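import Mathlib
import Pool.Agent.H7.Abc.Height

/-! # UDC: violators of the weak abc inequality of degree `d`, over all number fields

`hgt`, `cnd` are the unnormalised height and conductor of `Pool.Agent.H7.Abc.Height`
(`d` times the ones of the problem).  `rad n` is the product of the primes dividing `n`. -/

namespace Pool.Agent.UDC

open NumberField IsDedekindDomain Polynomial Pool.Agent.H7.Abc

/-- The product of the primes dividing `n`. -/
def rad (n : ℕ) : ℕ := ∏ p ∈ n.primeFactors, p

/-- `x` violates the weak abc inequality with the constant `κ` (in unnormalised terms). -/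
def Viol {K : Type*} [Field K] [NumberField K] (κ : ℝ) (x : K) : Prop :=
  x ≠ 0 ∧ x ≠ 1 ∧ κ * (cnd x + cnd x⁻¹ + cnd (x - 1) + Module.finrank ℚ K) < hgt x

/-- `f` is the primitive integral minimal polynomial of `x`, and `x` generates its field. -/
structure Prim {K : Type*} [Field K] [NumberField K] (x : K) (f : ℤ[X]) : Prop where
  prim : f.IsPrimitive
  lead : 0 < f.leadingCoeff
  eq : f.map (Int.castRingHom ℚ) = C (f.leadingCoeff : ℚ) * minpoly ℚ x
  deg : f.natDegree = Module.finrank ℚ K

end Pool.Agent.UDC
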