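import Mathlib
import Pool.Agent.UDC.Defs

/-! # Module Arch (UDC)
Paper proof.  `minpoly ℚ x` has degree `[K:ℚ]`, so `ℚ(x) = K` and `φ ↦ φ x` is a bijection from the embeddings `K → ℂ` onto the roots of
`minpoly ℚ x` in `ℂ` (simple roots: separable).  (Mathlib: `NumberField.Embeddings.range_eval_eq_rootSet_minpoly`,
`Field.primitive_element_iff_minpoly_natDegree_eq`, `PowerBasis.liftEquiv'`, the proof of `trace_eq_sum_embeddings_gen`.)
`∑_w mult(w) g(w x) = ∑_φ g(‖φ x‖)`: group the embeddings by their place (see the proofs of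
`InfinitePlace.prod_eq_abs_norm` / `card_filter_mk_eq`).  `arch_eq`: `g = log max 1` and
`mahlerMeasure_eq_leadingCoeff_mul_prod_roots` (leading coefficient 1), log of a product. -/

namespace Pool.Agent.UDC

open NumberField IsDedekindDomain Polynomial Pool.Agent.H7.Abc

variable {K : Type*} [Field K] [NumberField K]

/-- Sums over the infinite places as sums over the complex roots of the minimal polynomial of a
generator. -/
theorem sum_places (x : K) (hx : (minpoly ℚ x).natDegree = Module.finrank ℚ K) (g : ℝ → ℝ) :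
    ∑ w : InfinitePlace K, (w.mult : ℝ) * g (w x) =
      (((minpoly ℚ x).map (algebraMap ℚ ℂ)).roots.map (fun z => g ‖z‖)).sum := by
  classical
  have h1 : ∑ w : InfinitePlace K, (w.mult : ℝ) * g (w x) = ∑ φ : K →+* ℂ, g ‖φ x‖ := by
    rw [← Finset.sum_fiberwise Finset.univ InfinitePlace.mk (fun φ : K →+* ℂ => g ‖φ x‖)]
    have (w : InfinitePlace K) (φ : K →+* ℂ)
        (hφ : φ ∈ ({φ | InfinitePlace.mk φ = w} : Finset _)) :
        g ‖φ x‖ = g (w x) := by rw [← (Finset.mem_filter.mp hφ).2, InfinitePlace.apply]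
    refine Finset.sum_congr rfl fun w _ => ?_
    rw [Finset.sum_congr rfl (this w), Finset.sum_const, InfinitePlace.card_filter_mk_eq,
      nsmul_eq_mul]
  have hint : IsIntegral ℚ x := Algebra.IsIntegral.isIntegral x
  have hsep : (minpoly ℚ x).Separable := (minpoly.irreducible hint).separable
  have hnd : ((minpoly ℚ x).map (algebraMap ℚ ℂ)).roots.Nodup :=
    nodup_roots (hsep.map)
  have hcard : Multiset.card ((minpoly ℚ x).map (algebraMap ℚ ℂ)).roots =
      Module.finrank ℚ K := by
    rw [← (IsAlgClosed.splits ((minpoly ℚ x).map (algebraMap ℚ ℂ))).natDegree_eq_card_roots,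
      natDegree_map, hx]
  have himg : (Finset.univ.image (fun φ : K →+* ℂ => φ x)) =
      ((minpoly ℚ x).map (algebraMap ℚ ℂ)).roots.toFinset := by
    apply Finset.coe_injective
    rw [Finset.coe_image, Finset.coe_univ, Set.image_univ,
      NumberField.Embeddings.range_eval_eq_rootSet_minpoly]
    rfl
  have hcard2 : (Finset.univ.image (fun φ : K →+* ℂ => φ x)).card =
      (Finset.univ : Finset (K →+* ℂ)).card := by
    rw [himg, Multiset.toFinset_card_of_nodup hnd, hcard, Finset.card_univ,
      NumberField.Embeddings.card K ℂ]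
  have hinj : Set.InjOn (fun φ : K →+* ℂ => φ x) (Finset.univ : Finset (K →+* ℂ)) :=
    Finset.card_image_iff.mp hcard2
  rw [h1, ← Finset.sum_image (f := fun z : ℂ => g ‖z‖) hinj, himg]
  rw [Finset.sum_multiset_map_count]
  refine Finset.sum_congr rfl fun z hz => ?_
  rw [Multiset.count_eq_one_of_mem hnd (Multiset.mem_toFinset.mp hz), one_smul]

/-- The archimedean part of the height is the Mahler measure of the minimal polynomial. -/
theorem arch_eq (x : K) (hx : (minpoly ℚ x).natDegree = Module.finrank ℚ K) :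
    ∑ w : InfinitePlace K, (w.mult : ℝ) * Real.log (max 1 (w x)) =
      Real.log ((minpoly ℚ x).map (algebraMap ℚ ℂ)).mahlerMeasure := by
  have hint : IsIntegral ℚ x := Algebra.IsIntegral.isIntegral x
  rw [sum_places x hx (fun t => Real.log (max 1 t)),
    mahlerMeasure_eq_leadingCoeff_mul_prod_roots,
    ((minpoly.monic hint).map (algebraMap ℚ ℂ)).leadingCoeff, norm_one, one_mul,
    Real.log_multiset_prod]
  · rw [Multiset.map_map]
    rfl
  · intro t ht
    obtain ⟨z, _, hz⟩ := Multiset.mem_map.mp ht
    have : (1 : ℝ) ≤ max 1 ‖z‖ := le_max_left _ _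
    intro h0
    rw [h0] at hz
    linarith

end Pool.Agent.UDC
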