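import Mathlib
import Pool.Agent.UDC.Defs

/-! # Module Rad (UDC)
Rankin's trick and a finite Euler product. -/

namespace Pool.Agent.UDC

theorem rad_pos (n : ℕ) : 1 ≤ rad n := by
  unfold rad
  exact Finset.prod_pos fun p hp => (Nat.prime_of_mem_primeFactors hp).pos

theorem rad_mul {m n : ℕ} (h : Nat.Coprime m n) : rad (m * n) = rad m * rad n := by
  unfold rad
  rw [h.primeFactors_mul, Finset.prod_union h.disjoint_primeFactors]

theorem rad_prime_pow {p k : ℕ} (hp : p.Prime) (hk : k ≠ 0) : rad (p ^ k) = p := by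
  unfold rad
  rw [Nat.primeFactors_prime_pow hk hp, Finset.prod_singleton]

/-- `rad(n)^(-(1+δ)) n^(-δ)` -/
noncomputable def rf (δ : ℝ) (n : ℕ) : ℝ := (rad n : ℝ) ^ (-(1 + δ)) * (n : ℝ) ^ (-δ)

theorem rf_one (δ : ℝ) : rf δ 1 = 1 := by
  unfold rf rad
  simp

theorem rf_nonneg (δ : ℝ) (n : ℕ) : 0 ≤ rf δ n := by
  unfold rf
  positivity

theorem rf_mul (δ : ℝ) {m n : ℕ} (h : Nat.Coprime m n) : rf δ (m * n) = rf δ m * rf δ n := by
  unfold rf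
  rw [rad_mul h]
  push_cast
  rw [Real.mul_rpow (by positivity) (by positivity), Real.mul_rpow (by positivity) (by positivity)]
  ring

theorem rf_pow (δ : ℝ) {p : ℕ} (hp : p.Prime) (k : ℕ) :
    rf δ (p ^ (k + 1)) = (p : ℝ) ^ (-(1 + δ)) * ((p : ℝ) ^ (-δ)) ^ (k + 1) := by
  unfold rf
  rw [rad_prime_pow hp (by omega)]
  congr 1
  push_cast
  rw [← Real.rpow_natCast, ← Real.rpow_mul (by positivity), ← Real.rpow_natCast,
    ← Real.rpow_mul (by positivity)]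
  congr 1
  ring

theorem geo {δ : ℝ} (hδ : 0 < δ) {p : ℕ} (hp : p.Prime) :
    0 < (p : ℝ) ^ (-δ) ∧ (p : ℝ) ^ (-δ) ≤ (2 : ℝ) ^ (-δ) ∧ (2 : ℝ) ^ (-δ) < 1 := by
  have hp2 : (2 : ℝ) ≤ p := by exact_mod_cast hp.two_le
  refine ⟨by positivity, ?_, ?_⟩
  · rw [Real.rpow_neg (by positivity), Real.rpow_neg (by positivity)]
    gcongr
  · rw [Real.rpow_neg (by positivity)]
    apply inv_lt_one_of_one_lt₀
    exact Real.one_lt_rpow (by norm_num) hδ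

theorem rf_summable {δ : ℝ} (hδ : 0 < δ) {p : ℕ} (hp : p.Prime) :
    Summable (fun k : ℕ => ‖rf δ (p ^ k)‖) := by
  rw [← summable_nat_add_iff 1]
  obtain ⟨h1, h2, h3⟩ := geo hδ hp
  have h4 : Summable (fun k : ℕ => ((p : ℝ) ^ (-δ)) ^ (k + 1)) :=
    (summable_nat_add_iff 1).2 (summable_geometric_of_lt_one h1.le (by linarith))
  refine (h4.mul_left ((p : ℝ) ^ (-(1 + δ)))).congr fun k => ?_
  rw [Real.norm_of_nonneg (rf_nonneg _ _), rf_pow δ hp]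

theorem rf_tsum {δ : ℝ} (hδ : 0 < δ) {p : ℕ} (hp : p.Prime) :
    ∑' k : ℕ, rf δ (p ^ k) ≤ 1 + (1 - (2 : ℝ) ^ (-δ))⁻¹ * (p : ℝ) ^ (-(1 + δ)) := by
  have hs : Summable (fun k : ℕ => rf δ (p ^ k)) := (rf_summable hδ hp).of_norm
  rw [hs.tsum_eq_zero_add, pow_zero, rf_one]
  obtain ⟨h1, h2, h3⟩ := geo hδ hp
  have hq : (p : ℝ) ^ (-δ) < 1 := by linarith
  have h4 : Summable (fun k : ℕ => ((p : ℝ) ^ (-δ)) ^ (k + 1)) :=
    (summable_nat_add_iff 1).2 (summable_geometric_of_lt_one h1.le hq)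
  simp_rw [rf_pow δ hp]
  rw [tsum_mul_left, mul_comm ((1 - (2 : ℝ) ^ (-δ))⁻¹)]
  have h5 : ∑' k : ℕ, ((p : ℝ) ^ (-δ)) ^ (k + 1) ≤ (1 - (2 : ℝ) ^ (-δ))⁻¹ := by
    simp_rw [pow_succ]
    rw [tsum_mul_right, tsum_geometric_of_lt_one h1.le hq]
    have h6 : (1 - (p : ℝ) ^ (-δ))⁻¹ ≤ (1 - (2 : ℝ) ^ (-δ))⁻¹ := by
      apply inv_anti₀ (by linarith)
      linarith
    calc (1 - (p : ℝ) ^ (-δ))⁻¹ * (p : ℝ) ^ (-δ) ≤ (1 - (p : ℝ) ^ (-δ))⁻¹ * 1 := by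
          have : 0 < (1 - (p : ℝ) ^ (-δ))⁻¹ := inv_pos.2 (by linarith)
          gcongr
      _ ≤ _ := by rw [mul_one]; exact h6
  gcongr

theorem rf_sum {δ : ℝ} (hδ : 0 < δ) : ∃ A : ℝ, 0 < A ∧ ∀ N : ℕ, ∑ n ∈ Finset.Icc 1 N, rf δ n ≤ A := by
  set A0 : ℝ := (1 - (2 : ℝ) ^ (-δ))⁻¹ with hA0
  have hA0' : 0 < A0 := inv_pos.2 (by
    have := (geo hδ Nat.prime_two).2.2
    linarith)
  have hsp : Summable (fun p : Nat.Primes => (p : ℝ) ^ (-(1 + δ))) :=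
    Nat.Primes.summable_rpow.2 (by linarith)
  refine ⟨Real.exp (A0 * ∑' p : Nat.Primes, (p : ℝ) ^ (-(1 + δ))), Real.exp_pos _, fun N => ?_⟩
  obtain ⟨h1, h2⟩ := EulerProduct.summable_and_hasSum_smoothNumbers_prod_primesBelow_tsum
    (f := rf δ) (rf_one δ) (fun h => rf_mul δ h) (fun hp => rf_summable hδ hp) (N + 1)
  -- the left hand side
  have h3 : ∑ n ∈ Finset.Icc 1 N, rf δ n ≤ ∏ p ∈ (N + 1).primesBelow, ∑' n : ℕ, rf δ (p ^ n) := by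
    have hmem : ∀ n ∈ Finset.Icc 1 N, n ∈ (N + 1).smoothNumbers := by
      intro n hn
      rw [Finset.mem_Icc] at hn
      rw [Nat.mem_smoothNumbers']
      intro p _ hp
      have := Nat.le_of_dvd (by omega) hp
      omega
    have h4 : ∑ n ∈ Finset.Icc 1 N, rf δ n =
        ∑ m ∈ (Finset.Icc 1 N).subtype (fun n => n ∈ (N + 1).smoothNumbers), rf δ (m : ℕ) := by
      rw [Finset.sum_subtype_eq_sum_filter, Finset.filter_true_of_mem hmem]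
    rw [h4]
    exact sum_le_hasSum _ (fun m _ => rf_nonneg δ m) h2
  refine h3.trans ?_
  have h5 : ∏ p ∈ (N + 1).primesBelow, ∑' n : ℕ, rf δ (p ^ n) ≤
      ∏ p ∈ (N + 1).primesBelow, Real.exp (A0 * (p : ℝ) ^ (-(1 + δ))) := by
    refine Finset.prod_le_prod (fun p _ => tsum_nonneg fun n => rf_nonneg _ _) fun p hp => ?_
    refine (rf_tsum hδ (Nat.prime_of_mem_primesBelow hp)).trans ?_
    have := Real.add_one_le_exp (A0 * (p : ℝ) ^ (-(1 + δ)))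
    linarith
  refine h5.trans ?_
  rw [← Real.exp_sum]
  apply Real.exp_le_exp.2
  rw [← Finset.mul_sum]
  refine mul_le_mul_of_nonneg_left ?_ hA0'.le
  have h6 : ∑ p ∈ (N + 1).primesBelow, (p : ℝ) ^ (-(1 + δ)) =
      ∑ q ∈ ((N + 1).primesBelow).subtype Nat.Prime, ((q : ℕ) : ℝ) ^ (-(1 + δ)) := by
    rw [Finset.sum_subtype_eq_sum_filter (p := Nat.Prime) (f := fun p : ℕ => (p : ℝ) ^ (-(1 + δ))),
      Finset.filter_true_of_mem fun p hp => Nat.prime_of_mem_primesBelow hp]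
  rw [h6]
  have hsp' : Summable (fun p : {p : ℕ // p.Prime} => ((p : ℕ) : ℝ) ^ (-(1 + δ))) := hsp
  change _ ≤ ∑' p : {p : ℕ // p.Prime}, ((p : ℕ) : ℝ) ^ (-(1 + δ))
  exact hsp'.sum_le_tsum _ (fun p _ => by positivity)

/-- Number of triples in `[1,B]^3` with product of radicals at most `R`. -/
theorem triples (ε : ℝ) (hε : 0 < ε) : ∃ C : ℝ, 0 < C ∧ ∀ (B : ℕ) (R : ℝ), 1 ≤ B → 0 ≤ R →
    (((Finset.Icc 1 B ×ˢ Finset.Icc 1 B ×ˢ Finset.Icc 1 B).filter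
      (fun t : ℕ × ℕ × ℕ => ((rad t.1 * rad t.2.1 * rad t.2.2 : ℕ) : ℝ) ≤ R)).card : ℝ) ≤
      C * R ^ (1 + ε) * (B : ℝ) ^ ε := by
  set δ : ℝ := ε / 3 with hδ
  have hδ0 : 0 < δ := by positivity
  obtain ⟨A, hA, hsum⟩ := rf_sum hδ0
  refine ⟨A ^ 3, by positivity, fun B R hB hR => ?_⟩
  have hB0 : (0 : ℝ) < B := by exact_mod_cast hB
  set T := (Finset.Icc 1 B ×ˢ Finset.Icc 1 B ×ˢ Finset.Icc 1 B).filter
      (fun t : ℕ × ℕ × ℕ => ((rad t.1 * rad t.2.1 * rad t.2.2 : ℕ) : ℝ) ≤ R) with hT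
  rcases lt_or_ge R 1 with hR1 | hR1
  · -- empty
    have : T = ∅ := by
      rw [hT, Finset.filter_eq_empty_iff]
      intro t _ h
      have h1 : 1 ≤ rad t.1 * rad t.2.1 * rad t.2.2 :=
        Nat.one_le_iff_ne_zero.2 (mul_ne_zero (mul_ne_zero (Nat.one_le_iff_ne_zero.1 (rad_pos _))
          (Nat.one_le_iff_ne_zero.1 (rad_pos _))) (Nat.one_le_iff_ne_zero.1 (rad_pos _)))
      have h2 : (1 : ℝ) ≤ ((rad t.1 * rad t.2.1 * rad t.2.2 : ℕ) : ℝ) := by exact_mod_cast h1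
      linarith
    rw [this, Finset.card_empty, Nat.cast_zero]
    positivity
  -- Rankin
  have h1 : ∀ t ∈ T, (1 : ℝ) ≤ R ^ (1 + δ) * (B : ℝ) ^ (3 * δ) *
      (rf δ t.1 * rf δ t.2.1 * rf δ t.2.2) := by
    intro t ht
    rw [hT, Finset.mem_filter, Finset.mem_product, Finset.mem_product, Finset.mem_Icc,
      Finset.mem_Icc, Finset.mem_Icc] at ht
    obtain ⟨⟨⟨a1, a2⟩, ⟨b1, b2⟩, c1, c2⟩, hr⟩ := ht
    have ra : (0 : ℝ) < rad t.1 := by exact_mod_cast rad_pos _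
    have rb : (0 : ℝ) < rad t.2.1 := by exact_mod_cast rad_pos _
    have rc : (0 : ℝ) < rad t.2.2 := by exact_mod_cast rad_pos _
    have na : (0 : ℝ) < t.1 := by exact_mod_cast a1
    have nb : (0 : ℝ) < t.2.1 := by exact_mod_cast b1
    have nc : (0 : ℝ) < t.2.2 := by exact_mod_cast c1
    have e : R ^ (1 + δ) * (B : ℝ) ^ (3 * δ) * (rf δ t.1 * rf δ t.2.1 * rf δ t.2.2) =
        (R / ((rad t.1 : ℝ) * rad t.2.1 * rad t.2.2)) ^ (1 + δ) *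
          (((B : ℝ) / t.1) ^ δ * ((B : ℝ) / t.2.1) ^ δ * ((B : ℝ) / t.2.2) ^ δ) := by
      unfold rf
      rw [Real.div_rpow hR (by positivity), Real.div_rpow hB0.le na.le,
        Real.div_rpow hB0.le nb.le, Real.div_rpow hB0.le nc.le,
        Real.mul_rpow (by positivity) rc.le, Real.mul_rpow ra.le rb.le,
        Real.rpow_neg ra.le, Real.rpow_neg rb.le, Real.rpow_neg rc.le,
        Real.rpow_neg na.le, Real.rpow_neg nb.le, Real.rpow_neg nc.le]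
      have : (B : ℝ) ^ (3 * δ) = (B : ℝ) ^ δ * (B : ℝ) ^ δ * (B : ℝ) ^ δ := by
        rw [← Real.rpow_add hB0, ← Real.rpow_add hB0]
        congr 1
        ring
      rw [this]
      field_simp
    rw [e]
    have g1 : 1 ≤ R / ((rad t.1 : ℝ) * rad t.2.1 * rad t.2.2) := by
      rw [le_div_iff₀ (by positivity), one_mul]
      push_cast at hr
      exact hr
    have g2 : ∀ n : ℕ, 1 ≤ n → n ≤ B → 1 ≤ ((B : ℝ) / n) ^ δ := by
      intro n hn1 hn2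
      apply Real.one_le_rpow _ hδ0.le
      have : (0 : ℝ) < n := by exact_mod_cast hn1
      rw [le_div_iff₀ this, one_mul]
      exact_mod_cast hn2
    have g3 : 1 ≤ (R / ((rad t.1 : ℝ) * rad t.2.1 * rad t.2.2)) ^ (1 + δ) :=
      Real.one_le_rpow g1 (by linarith)
    have g4 := g2 t.1 a1 a2
    have g5 := g2 t.2.1 b1 b2
    have g6 := g2 t.2.2 c1 c2
    exact one_le_mul_of_one_le_of_one_le g3
      (one_le_mul_of_one_le_of_one_le (one_le_mul_of_one_le_of_one_le g4 g5) g6)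
  have h2 : (T.card : ℝ) ≤ ∑ t ∈ Finset.Icc 1 B ×ˢ Finset.Icc 1 B ×ˢ Finset.Icc 1 B,
      R ^ (1 + δ) * (B : ℝ) ^ (3 * δ) * (rf δ t.1 * rf δ t.2.1 * rf δ t.2.2) := by
    calc (T.card : ℝ) = ∑ t ∈ T, (1 : ℝ) := by simp
      _ ≤ ∑ t ∈ T, R ^ (1 + δ) * (B : ℝ) ^ (3 * δ) * (rf δ t.1 * rf δ t.2.1 * rf δ t.2.2) :=
          Finset.sum_le_sum h1
      _ ≤ _ := by
          apply Finset.sum_le_sum_of_subset_of_nonneg (Finset.filter_subset _ _)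
          intro t _ _
          have := rf_nonneg δ t.1
          have := rf_nonneg δ t.2.1
          have := rf_nonneg δ t.2.2
          positivity
  have h3 : ∑ t ∈ Finset.Icc 1 B ×ˢ Finset.Icc 1 B ×ˢ Finset.Icc 1 B,
      R ^ (1 + δ) * (B : ℝ) ^ (3 * δ) * (rf δ t.1 * rf δ t.2.1 * rf δ t.2.2) =
      R ^ (1 + δ) * (B : ℝ) ^ (3 * δ) * (∑ n ∈ Finset.Icc 1 B, rf δ n) ^ 3 := by
    rw [← Finset.mul_sum]
    congr 1
    rw [Finset.sum_product, pow_three, Finset.sum_mul]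
    refine Finset.sum_congr rfl fun a _ => ?_
    rw [Finset.sum_product, Finset.sum_mul, Finset.mul_sum]
    refine Finset.sum_congr rfl fun b _ => ?_
    rw [Finset.mul_sum, Finset.mul_sum]
    refine Finset.sum_congr rfl fun c _ => ?_
    ring
  rw [h3] at h2
  refine h2.trans ?_
  have h4 : (∑ n ∈ Finset.Icc 1 B, rf δ n) ^ 3 ≤ A ^ 3 := by
    have : 0 ≤ ∑ n ∈ Finset.Icc 1 B, rf δ n := Finset.sum_nonneg fun n _ => rf_nonneg δ n
    have := hsum B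
    gcongr
  have h5 : R ^ (1 + δ) ≤ R ^ (1 + ε) := Real.rpow_le_rpow_of_exponent_le hR1 (by
    rw [hδ]; linarith)
  have h6 : (3 * δ) = ε := by rw [hδ]; ring
  rw [h6]
  have h7 : 0 ≤ ∑ n ∈ Finset.Icc 1 B, rf δ n := Finset.sum_nonneg fun n _ => rf_nonneg δ n
  calc R ^ (1 + δ) * (B : ℝ) ^ ε * (∑ n ∈ Finset.Icc 1 B, rf δ n) ^ 3
      ≤ R ^ (1 + ε) * (B : ℝ) ^ ε * A ^ 3 := by gcongr
    _ = A ^ 3 * R ^ (1 + ε) * (B : ℝ) ^ ε := by ring

end Pool.Agent.UDC
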