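import Mathlib
import Pool.Agent.UDC.Defs
import Pool.Agent.UDC.Rad

/-! # Module Cand (UDC)
Paper proof.  Map `f` to (`|lc f|`, `|f(0)|`, `|f(1)|`) ∈ the filter of `triples B R`, the signs of `f(0)`, `f(1)`, and the coefficients
`f.coeff j`, `2 ≤ j ≤ d-1` (`d - 2` integers in `[-B,B]`).  This is injective on `cand d B R`: `f.coeff d = lc f > 0`, `f.coeff 0` is known, and
`f.coeff 1 = f(1) - ∑_{j ≠ 1} f.coeff j`.  Hence `#cand ≤ 4 · #triples · (2B+1)^(d-2) ≤ 4 · 3^(d-2) C R^(1+ε) B^ε B^(d-2)`. -/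

namespace Pool.Agent.UDC

open Polynomial

/-- Integral polynomials of degree `d` with coefficients in `[-B,B]`, `f(1) ∈ [-B,B]`, nonzero
`f(0)`, `f(1)` and small product of radicals. -/
def cand (d B : ℕ) (R : ℝ) : Set ℤ[X] :=
  {f | f.natDegree = d ∧ 0 < f.leadingCoeff ∧ (∀ j, |f.coeff j| ≤ B) ∧ f.coeff 0 ≠ 0 ∧
    f.eval 1 ≠ 0 ∧ |f.eval 1| ≤ B ∧
    ((rad f.leadingCoeff.natAbs * rad (f.coeff 0).natAbs * rad (f.eval 1).natAbs : ℕ) : ℝ) ≤ R}

/-- The data that determine a polynomial of `cand d B R`. -/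
noncomputable def code (d : ℕ) (f : ℤ[X]) : (ℕ × ℕ × ℕ) × (Bool × Bool) × (Fin (d - 2) → ℤ) :=
  ((f.leadingCoeff.natAbs, (f.coeff 0).natAbs, (f.eval 1).natAbs),
    (decide (0 < f.coeff 0), decide (0 < f.eval 1)), fun j => f.coeff (j + 2))

theorem eq_of_abs_sign {a b : ℤ} (h : a.natAbs = b.natAbs) (h' : decide (0 < a) = decide (0 < b)) :
    a = b := by
  rw [decide_eq_decide] at h'
  omega

theorem code_injOn (d B : ℕ) (hd : 2 ≤ d) (R : ℝ) : Set.InjOn (code d) (cand d B R) := by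
  rintro f ⟨fd, fl, -, -, -, -, -⟩ g ⟨gd, gl, -, -, -, -, -⟩ h
  simp only [code, Prod.mk.injEq] at h
  obtain ⟨⟨h1, h2, h3⟩, ⟨h4, h5⟩, h6⟩ := h
  have e0 : f.coeff 0 = g.coeff 0 := eq_of_abs_sign h2 h4
  have e1 : f.eval 1 = g.eval 1 := eq_of_abs_sign h3 h5
  have el : f.leadingCoeff = g.leadingCoeff := by omega
  have key : ∀ n, n ≠ 1 → (f - g).coeff n = 0 := by
    intro n hn
    rw [coeff_sub, sub_eq_zero]
    rcases Nat.lt_trichotomy n d with hlt | heq | hgt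
    · rcases Nat.eq_zero_or_pos n with h0 | hpos
      · rw [h0, e0]
      · have := congrFun h6 ⟨n - 2, by omega⟩
        simp only at this
        rwa [show n - 2 + 2 = n by omega] at this
    · rw [heq]
      have a1 := el
      unfold leadingCoeff at a1
      rwa [fd, gd] at a1
    · rw [coeff_eq_zero_of_natDegree_lt (by omega), coeff_eq_zero_of_natDegree_lt (by omega)]
  have hX : f - g = C ((f - g).coeff 1) * X := by
    ext n
    rw [coeff_C_mul_X]
    split_ifs with hn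
    · rw [hn]
    · exact key n hn
  have h7 := congrArg (eval 1) hX
  rw [eval_sub, e1, sub_self, eval_mul, eval_C, eval_X, mul_one] at h7
  rw [← h7, C_0, zero_mul, sub_eq_zero] at hX
  exact hX

theorem cand_card (d : ℕ) (hd : 2 ≤ d) (ε : ℝ) (hε : 0 < ε) : ∃ C : ℝ, 0 < C ∧
    ∀ (B : ℕ) (R : ℝ), 1 ≤ B → 0 ≤ R → (cand d B R).Finite ∧
      ((cand d B R).ncard : ℝ) ≤ C * R ^ (1 + ε) * (B : ℝ) ^ ((d : ℝ) - 2 + ε) := by
  obtain ⟨C, hC, hT⟩ := triples ε hε
  refine ⟨4 * 3 ^ (d - 2) * C, by positivity, fun B R hB hR => ?_⟩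
  have hB0 : (0 : ℝ) < B := by exact_mod_cast hB
  have hB1 : (1 : ℝ) ≤ B := by exact_mod_cast hB
  specialize hT B R hB hR
  set T := (Finset.Icc 1 B ×ˢ Finset.Icc 1 B ×ˢ Finset.Icc 1 B).filter
      (fun t : ℕ × ℕ × ℕ => ((rad t.1 * rad t.2.1 * rad t.2.2 : ℕ) : ℝ) ≤ R) with hTdef
  set S : Finset ((ℕ × ℕ × ℕ) × (Bool × Bool) × (Fin (d - 2) → ℤ)) :=
    T ×ˢ (Finset.univ ×ˢ Fintype.piFinset (fun _ => Finset.Icc (-(B : ℤ)) B)) with hS
  have hmaps : Set.MapsTo (code d) (cand d B R) (S : Set _) := by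
    rintro f ⟨fd, fl, fc, f0, f1, f1', fR⟩
    rw [Finset.mem_coe, hS, Finset.mem_product, Finset.mem_product, Fintype.mem_piFinset, hTdef,
      Finset.mem_filter, Finset.mem_product, Finset.mem_product, Finset.mem_Icc, Finset.mem_Icc,
      Finset.mem_Icc]
    have hl := fc f.natDegree
    have h0 := fc 0
    change |f.leadingCoeff| ≤ _ at hl
    rw [abs_le] at hl h0 f1'
    refine ⟨⟨⟨⟨?_, ?_⟩, ⟨?_, ?_⟩, ?_, ?_⟩, fR⟩, Finset.mem_univ _, fun j => ?_⟩
    · simp only [code]; omega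
    · simp only [code]; omega
    · simp only [code]; omega
    · simp only [code]; omega
    · simp only [code]; omega
    · simp only [code]; omega
    · rw [Finset.mem_Icc, ← abs_le]
      exact fc _
  have hfin : (cand d B R).Finite := Set.Finite.of_injOn hmaps (code_injOn d B hd R) S.finite_toSet
  refine ⟨hfin, ?_⟩
  have hcard : (cand d B R).ncard ≤ S.card := by
    have := Set.ncard_le_ncard_of_injOn (code d) hmaps (code_injOn d B hd R) S.finite_toSet
    rwa [Set.ncard_coe_finset] at this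
  have hcS : S.card = T.card * (4 * (2 * B + 1) ^ (d - 2)) := by
    rw [hS, Finset.card_product, Finset.card_product, Fintype.card_piFinset_const, Int.card_Icc,
      Finset.card_univ, Fintype.card_prod, Fintype.card_bool]
    congr 3
    omega
  have h1 : ((cand d B R).ncard : ℝ) ≤ T.card * (4 * (2 * B + 1) ^ (d - 2)) := by
    have : ((cand d B R).ncard : ℝ) ≤ (S.card : ℝ) := by exact_mod_cast hcard
    rw [hcS] at this
    push_cast at this
    exact this
  refine h1.trans ?_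
  have h2 : (2 * (B : ℝ) + 1) ^ (d - 2) ≤ 3 ^ (d - 2) * (B : ℝ) ^ (d - 2) := by
    rw [← mul_pow]
    apply pow_le_pow_left₀ (by positivity)
    linarith
  have h3 : (B : ℝ) ^ ((d : ℝ) - 2 + ε) = (B : ℝ) ^ (d - 2) * (B : ℝ) ^ ε := by
    rw [Real.rpow_add hB0, ← Real.rpow_natCast, Nat.cast_sub hd]
    push_cast
    rfl
  rw [h3]
  calc (T.card : ℝ) * (4 * (2 * B + 1) ^ (d - 2))
      ≤ (C * R ^ (1 + ε) * (B : ℝ) ^ ε) * (4 * (3 ^ (d - 2) * (B : ℝ) ^ (d - 2))) := by gcongr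
    _ = _ := by ring

end Pool.Agent.UDC
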