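import Mathlib
import Pool.Agent.UDC.Defs

/-! # Module Den (UDC)
Paper proof.  Let `D = ∏_v v^(e_v)`, `e_v = max 0 (-ord_v x)` (finite product over the support).  Then `log absNorm D = ∑_v e_v log N v` which is
the right hand side (`log_mk`, `mk_eq_zpow` of H7/Abc/Height), and for `δ ∈ D`, `δ x` is integral (`|δ|_v ≤ N(v)^(-e_v)`;
`HeightOneSpectrum.mem_integers_of_valuation_le_one`).
(1) For `δ ∈ D`, `δ ≠ 0`, `β = δ x ∈ 𝓞 K`: `N(δ) · charpoly(mult by x) = det(δ) det(T - x) = det(T M_δ - M_β)` has integral coefficients: `M_δ`, `M_β`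
are the integral matrices of multiplication in an integral basis (`Algebra.leftMulMatrix`, `RingOfIntegers.basis`).  Since `x` generates `K`,
`charpoly = minpoly ℚ x` (`(minpoly ℚ x).natDegree = finrank`: `Prim.deg`, `Prim.eq`).
(2) `absNorm D` is a `ℤ`-combination of the `N(δ)`, `δ ∈ D`: `Ideal.relNorm_int : relNorm ℤ I = span {(absNorm I : ℤ)}`, and `relNorm = spanNorm`
is the ideal spanned by the norms (`Algebra.intNorm`) of the elements.  Hence `absNorm D • minpoly ℚ x` has integral coefficients, i.e. is `G.map`, `G ∈ ℤ[X]`.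
(3) `f` primitive, `G = (absNorm D / lc f) f` over `ℚ`: clear denominators: `lc(f) G = absNorm D • f`, take contents (`f` has content 1): `lc f ∣ absNorm D`.
So `lc f ≤ absNorm D` (positive), and take logs. -/

namespace Pool.Agent.UDC

open NumberField IsDedekindDomain Polynomial Pool.Agent.H7.Abc

variable {K : Type*} [Field K] [NumberField K]

/-- The minimal polynomial of a generator is the characteristic polynomial of multiplication. -/
theorem Den_charpoly {ι : Type*} [Fintype ι] [DecidableEq ι] (b : Module.Basis ι ℚ K) {x : K}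
    (hx : (minpoly ℚ x).natDegree = Module.finrank ℚ K) :
    (Algebra.leftMulMatrix b x).charpoly = minpoly ℚ x := by
  set M := Algebra.leftMulMatrix b x with hM
  have h0 : aeval x M.charpoly = 0 := by
    apply Algebra.leftMulMatrix_injective b
    rw [map_zero, ← Polynomial.aeval_algHom_apply, ← hM]
    exact Matrix.aeval_self_charpoly M
  have hd : minpoly ℚ x ∣ M.charpoly := minpoly.dvd ℚ x h0
  have hm1 : (minpoly ℚ x).Monic := minpoly.monic (IsIntegral.of_finite ℚ x)
  have hm2 : M.charpoly.Monic := Matrix.charpoly_monic M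
  have hdeg : M.charpoly.natDegree = (minpoly ℚ x).natDegree := by
    rw [Matrix.charpoly_natDegree_eq_dim, hx, Module.finrank_eq_card_basis b]
  exact (Polynomial.eq_of_monic_of_dvd_of_natDegree_le hm1 hm2 hd hdeg.le)

/-- `N(δ) · minpoly x` is integral if `δ x` is integral. -/
theorem Den_norm {x : K} (hx : (minpoly ℚ x).natDegree = Module.finrank ℚ K) (δ β : 𝓞 K)
    (h : (β : K) = δ * x) :
    ∃ G : ℤ[X], G.map (Int.castRingHom ℚ) = C ((Algebra.norm ℤ δ : ℤ) : ℚ) * minpoly ℚ x := by
  classical
  set bI := RingOfIntegers.basis K with hbI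
  set bQ := integralBasis K with hbQ
  set A := Algebra.leftMulMatrix bI δ with hA
  set B := Algebra.leftMulMatrix bI β with hB
  have hmap : ∀ a : 𝓞 K, (Algebra.leftMulMatrix bI a).map (Int.castRingHom ℚ) =
      Algebra.leftMulMatrix bQ (a : K) := by
    intro a
    exact Algebra.map_leftMulMatrix_localization ℤ (Rₘ := ℚ) (Sₘ := K) (nonZeroDivisors ℤ) bI a
  refine ⟨((X : ℤ[X]) • A.map C - B.map C).det, ?_⟩
  have hx2 : Algebra.leftMulMatrix bQ (β : K) =
      Algebra.leftMulMatrix bQ (δ : K) * Algebra.leftMulMatrix bQ x := by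
    rw [h, map_mul]
  have h1 : (((X : ℤ[X]) • A.map C - B.map C).det).map (Int.castRingHom ℚ) =
      ((X : ℚ[X]) • (Algebra.leftMulMatrix bQ (δ : K)).map C -
        (Algebra.leftMulMatrix bQ (β : K)).map C).det := by
    rw [← coe_mapRingHom, RingHom.map_det]
    congr 1
    rw [← hmap, ← hmap]
    ext i j
    simp [hA, hB]
  rw [h1, hx2]
  have h2 : (X : ℚ[X]) • (Algebra.leftMulMatrix bQ (δ : K)).map C -
      (Algebra.leftMulMatrix bQ (δ : K) * Algebra.leftMulMatrix bQ x).map C =
      (Algebra.leftMulMatrix bQ (δ : K)).map C * (Algebra.leftMulMatrix bQ x).charmatrix := by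
    rw [Matrix.charmatrix, mul_sub, Matrix.map_mul]
    congr 1
    rw [Matrix.scalar_apply, ← Matrix.smul_one_eq_diagonal, Matrix.mul_smul, mul_one]
  rw [h2, Matrix.det_mul, ← Matrix.charpoly, Den_charpoly bQ hx]
  congr 1
  have h3 : (Algebra.leftMulMatrix bQ (δ : K)).map C = (C : ℚ →+* ℚ[X]).mapMatrix
      (Algebra.leftMulMatrix bQ (δ : K)) := rfl
  rw [h3, ← RingHom.map_det, ← Algebra.norm_eq_matrix_det]
  congr 1
  exact Algebra.norm_localization ℤ (nonZeroDivisors ℤ) (Sₘ := K) δ

/-- The set of multipliers making the minimal polynomial integral, an ideal. -/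
def DenIdeal (m : ℚ[X]) : Ideal ℤ where
  carrier := {a | ∃ G : ℤ[X], G.map (Int.castRingHom ℚ) = C (a : ℚ) * m}
  add_mem' := by
    rintro a b ⟨G, hG⟩ ⟨H, hH⟩
    exact ⟨G + H, by rw [Polynomial.map_add, hG, hH, Int.cast_add, C_add, add_mul]⟩
  zero_mem' := ⟨0, by simp⟩
  smul_mem' := by
    rintro c a ⟨G, hG⟩
    refine ⟨C c * G, ?_⟩
    rw [Polynomial.map_mul, hG, map_C, smul_eq_mul, Int.cast_mul, C_mul, mul_assoc]
    rfl

theorem Den_absNorm {x : K} (hx : (minpoly ℚ x).natDegree = Module.finrank ℚ K) (D : Ideal (𝓞 K))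
    (hD : ∀ δ ∈ D, ∃ β : 𝓞 K, (β : K) = δ * x) :
    ∃ G : ℤ[X], G.map (Int.castRingHom ℚ) = C ((Ideal.absNorm D : ℤ) : ℚ) * minpoly ℚ x := by
  have h1 : Ideal.relNorm ℤ D ≤ DenIdeal (minpoly ℚ x) := by
    rw [Ideal.relNorm_apply, Ideal.span_le]
    rintro _ ⟨δ, hδ, rfl⟩
    obtain ⟨β, hβ⟩ := hD δ hδ
    obtain ⟨G, hG⟩ := Den_norm hx δ β hβ
    refine ⟨G, ?_⟩
    rw [hG, Algebra.intNorm_eq_norm]
  have h2 : (Ideal.absNorm D : ℤ) ∈ Ideal.relNorm ℤ D := by
    rw [Ideal.relNorm_int]
    exact Ideal.mem_span_singleton_self _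
  exact h1 h2

theorem Den_dvd {f G : ℤ[X]} {m : ℚ[X]} {N : ℤ} (hp : f.IsPrimitive)
    (hf : f.map (Int.castRingHom ℚ) = C (f.leadingCoeff : ℚ) * m)
    (hG : G.map (Int.castRingHom ℚ) = C (N : ℚ) * m) : f.leadingCoeff ∣ N := by
  have h1 : C f.leadingCoeff * G = C N * f := by
    apply Polynomial.map_injective (Int.castRingHom ℚ) (RingHom.injective_int _)
    rw [Polynomial.map_mul, Polynomial.map_mul, hG, hf, map_C, map_C]
    simp only [eq_intCast]
    ring
  have h2 : f.leadingCoeff ∣ (C N * f).content := by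
    rw [dvd_content_iff_C_dvd, ← h1]
    exact dvd_mul_right _ _
  have h3 := (associated_content_C_mul N f)
  rw [hp.content_eq_one, mul_one] at h3
  exact (h3.dvd_iff_dvd_right).1 h2

/-- The leading coefficient is at most the norm of the denominator ideal. -/
theorem lead_le {x : K} {f : ℤ[X]} (hf : Prim x f) (hx0 : x ≠ 0) :
    Real.log (f.leadingCoeff : ℝ) ≤
      ∑ᶠ v : HeightOneSpectrum (𝓞 K), Real.log (max 1 (FinitePlace.mk v x)) := by
  classical
  have hfin := finite_support_hgt hx0
  have hlq : (f.leadingCoeff : ℚ) ≠ 0 := by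
    have := hf.lead
    exact_mod_cast this.ne'
  have hdeg : (minpoly ℚ x).natDegree = Module.finrank ℚ K := by
    rw [← hf.deg, ← natDegree_map_eq_of_injective (RingHom.injective_int (Int.castRingHom ℚ)) f,
      hf.eq, natDegree_C_mul hlq]
  set S : Finset (HeightOneSpectrum (𝓞 K)) := hfin.toFinset with hS
  set e : HeightOneSpectrum (𝓞 K) → ℕ := fun v => (-ord v x).toNat with he
  set D : Ideal (𝓞 K) := ∏ v ∈ S, v.asIdeal ^ e v with hD
  -- the local terms
  have hterm : ∀ v : HeightOneSpectrum (𝓞 K), Real.log (max 1 (FinitePlace.mk v x)) =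
      e v * Real.log (Ideal.absNorm v.asIdeal : ℝ) := by
    intro v
    rcases le_total (ord v x) 0 with h | h
    · have h1 : ((e v : ℕ) : ℝ) = -(ord v x : ℝ) := by
        have : ((e v : ℕ) : ℤ) = -ord v x := Int.toNat_of_nonneg (by omega)
        have h2 : (((e v : ℕ) : ℤ) : ℝ) = ((-ord v x : ℤ) : ℝ) := by rw [this]
        push_cast at h2
        exact h2
      have h3 : 1 ≤ FinitePlace.mk v x := by
        rw [mk_eq_zpow v hx0]
        exact one_le_zpow₀ (one_lt_norm v).le (by omega)
      rw [max_eq_right h3, log_mk v hx0, h1]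
    · have h1 : e v = 0 := by
        simp only [he]
        omega
      have h3 : FinitePlace.mk v x ≤ 1 := by
        rw [mk_eq_zpow v hx0]
        exact zpow_le_one_of_nonpos₀ (one_lt_norm v).le (by omega)
      rw [max_eq_left h3, h1]
      simp
  have hsum : ∑ᶠ v : HeightOneSpectrum (𝓞 K), Real.log (max 1 (FinitePlace.mk v x)) =
      Real.log (Ideal.absNorm D : ℝ) := by
    rw [finsum_eq_sum_of_support_subset _ (s := S) (by
      intro v hv
      rw [hS, Set.Finite.coe_toFinset]
      exact hv)]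
    rw [hD, map_prod]
    simp only [map_pow]
    push_cast
    rw [Real.log_prod (fun v _ => by
      have := one_lt_norm v
      positivity)]
    refine Finset.sum_congr rfl fun v _ => ?_
    rw [Real.log_pow, hterm]
  have hDmem : ∀ δ ∈ D, ∃ β : 𝓞 K, (β : K) = δ * x := by
    intro δ hδ
    have hin : ((δ : K) * x) ∈ (algebraMap (𝓞 K) K).range := by
      apply HeightOneSpectrum.mem_integers_of_valuation_le_one
      intro v
      have hvx : v.valuation K x ≠ 0 := (Valuation.ne_zero_iff _).2 hx0
      have hvx2 : v.valuation K x = WithZero.exp (-ord v x) := by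
        rw [ord, neg_neg, WithZero.exp_log hvx]
      rw [map_mul, hvx2]
      by_cases hvS : v ∈ S
      · have hle : D ≤ v.asIdeal ^ e v := by
          rw [hD]
          exact Ideal.le_of_dvd (Finset.dvd_prod_of_mem _ hvS)
        have h1 : v.intValuation δ ≤ WithZero.exp (-((e v : ℕ) : ℤ)) :=
          (v.intValuation_le_pow_iff_mem δ (e v)).2 (hle hδ)
        have h2 : v.valuation K (δ : K) ≤ WithZero.exp (-((e v : ℕ) : ℤ)) := by
          rw [show (δ : K) = algebraMap (𝓞 K) K δ from rfl, v.valuation_of_algebraMap]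
          exact h1
        calc v.valuation K (δ : K) * WithZero.exp (-ord v x)
            ≤ WithZero.exp (-((e v : ℕ) : ℤ)) * WithZero.exp (-ord v x) := by gcongr
          _ = WithZero.exp (-((e v : ℕ) : ℤ) + -ord v x) := by rw [WithZero.exp_add]
          _ ≤ 1 := by
              rw [← WithZero.exp_zero, WithZero.exp_le_exp]
              simp only [he]
              omega
      · have h0 : Real.log (max 1 (FinitePlace.mk v x)) = 0 := by
          by_contra hne
          apply hvS
          rw [hS, Set.Finite.mem_toFinset]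
          exact hne
        rw [hterm v] at h0
        have h1 : e v = 0 := by
          rcases mul_eq_zero.1 h0 with h | h
          · exact_mod_cast h
          · exact absurd h (log_norm_pos v).ne'
        have h2 : v.valuation K (δ : K) ≤ 1 := by
          rw [show (δ : K) = algebraMap (𝓞 K) K δ from rfl]
          exact v.valuation_le_one δ
        calc v.valuation K (δ : K) * WithZero.exp (-ord v x)
            ≤ 1 * WithZero.exp (-ord v x) := by gcongr
          _ ≤ 1 := by
              rw [one_mul, ← WithZero.exp_zero, WithZero.exp_le_exp]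
              simp only [he] at h1
              omega
    obtain ⟨β, hβ⟩ := hin
    exact ⟨β, hβ⟩
  obtain ⟨G, hG⟩ := Den_absNorm hdeg D hDmem
  have hdvd : f.leadingCoeff ∣ (Ideal.absNorm D : ℤ) := Den_dvd hf.prim hf.eq hG
  have hD0 : 0 < Ideal.absNorm D := by
    rw [Nat.pos_iff_ne_zero]
    intro h0
    rw [Ideal.absNorm_eq_zero_iff, hD] at h0
    have := Finset.prod_ne_zero_iff.2 (fun v (_ : v ∈ S) => pow_ne_zero (e v) v.ne_bot)
    exact this h0
  have hle : f.leadingCoeff ≤ (Ideal.absNorm D : ℤ) := Int.le_of_dvd (by exact_mod_cast hD0) hdvd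
  rw [hsum]
  apply Real.log_le_log
  · exact_mod_cast hf.lead
  · exact_mod_cast hle

end Pool.Agent.UDC
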