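import Mathlib
import Pool.Agent.UDC.Defs

/-! # Module DiscBd (UDC): the discriminant of a field generated by an integer of small height -/

namespace Pool.Agent.UDC

open NumberField IsDedekindDomain Polynomial Pool.Agent.H7.Abc

variable {K : Type*} [Field K] [NumberField K]

theorem prod_pairs {d : ℕ} (m : Fin d → ℝ) :
    ∏ i : Fin d, ∏ j ∈ Finset.Ioi i, (2 * (m i * m j)) =
      2 ^ (∑ i : Fin d, (Finset.Ioi i).card) * (∏ i : Fin d, m i) ^ (d - 1) := by
  have h1 : ∏ i : Fin d, ∏ j ∈ Finset.Ioi i, (2 * (m i * m j)) =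
      (∏ i : Fin d, ∏ j ∈ Finset.Ioi i, (2 : ℝ)) *
        ((∏ i : Fin d, ∏ j ∈ Finset.Ioi i, m i) * (∏ i : Fin d, ∏ j ∈ Finset.Ioi i, m j)) := by
    rw [← Finset.prod_mul_distrib, ← Finset.prod_mul_distrib]
    refine Finset.prod_congr rfl fun i _ => ?_
    rw [← Finset.prod_mul_distrib, ← Finset.prod_mul_distrib]
  rw [h1]
  congr 1
  · simp only [Finset.prod_const]
    rw [Finset.prod_pow_eq_pow_sum]
  · have h2 : ∏ i : Fin d, ∏ j ∈ Finset.Ioi i, m j = ∏ j : Fin d, ∏ i ∈ Finset.Iio j, m j := by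
      refine Finset.prod_comm' ?_
      intro i j
      simp
    rw [h2, ← Finset.prod_mul_distrib, ← Finset.prod_pow]
    refine Finset.prod_congr rfl fun i _ => ?_
    rw [Finset.prod_const, Finset.prod_const, ← pow_add]
    congr 1
    rw [Fin.card_Ioi, Fin.card_Iio]
    omega

theorem sum_emb (x : K) (g : ℝ → ℝ) :
    ∑ w : InfinitePlace K, (w.mult : ℝ) * g (w x) = ∑ φ : K →ₐ[ℚ] ℂ, g ‖φ x‖ := by
  classical
  have h1 : ∑ w : InfinitePlace K, (w.mult : ℝ) * g (w x) = ∑ φ : K →+* ℂ, g ‖φ x‖ := by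
    rw [← Finset.sum_fiberwise Finset.univ InfinitePlace.mk (fun φ : K →+* ℂ => g ‖φ x‖)]
    have (w : InfinitePlace K) (φ : K →+* ℂ)
        (hφ : φ ∈ ({φ | InfinitePlace.mk φ = w} : Finset _)) :
        g ‖φ x‖ = g (w x) := by rw [← (Finset.mem_filter.mp hφ).2, InfinitePlace.apply]
    refine Finset.sum_congr rfl fun w _ => ?_
    rw [Finset.sum_congr rfl (this w), Finset.sum_const, InfinitePlace.card_filter_mk_eq,
      nsmul_eq_mul]
  rw [h1, ← Equiv.sum_comp (RingHom.equivRatAlgHom (R := K) (S := ℂ)).symm]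
  rfl

/-- The discriminant of the powers of a generator. -/
theorem discr_powers_le {x : K} {d : ℕ} (hd : Module.finrank ℚ K = d)
    (hx : (minpoly ℚ x).natDegree = d) :
    Algebra.discr ℚ (fun i : Fin d => x ^ (i : ℕ)) ≠ 0 ∧
    ((|Algebra.discr ℚ (fun i : Fin d => x ^ (i : ℕ))| : ℚ) : ℝ) ≤
      2 ^ (d * (d - 1)) * Real.exp (hgt x) ^ (2 * (d - 1)) := by
  classical
  have hcard : Fintype.card (Fin d) = Fintype.card (K →ₐ[ℚ] ℂ) := by
    rw [Fintype.card_fin, AlgHom.card, hd]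
  set e : Fin d ≃ (K →ₐ[ℚ] ℂ) := Fintype.equivOfCardEq hcard with he
  have hdisc := Algebra.discr_eq_det_embeddingsMatrixReindex_pow_two (K := ℚ) (E := ℂ)
    (fun i : Fin d => x ^ (i : ℕ)) e
  have hmat : Algebra.embeddingsMatrixReindex ℚ ℂ (fun i : Fin d => x ^ (i : ℕ)) e =
      (Matrix.vandermonde fun i => e i x).transpose := by
    ext i j
    simp [Algebra.embeddingsMatrixReindex, Algebra.embeddingsMatrix, Matrix.vandermonde]
  rw [hmat, Matrix.det_transpose] at hdisc
  have htop : IntermediateField.adjoin ℚ {x} = ⊤ :=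
    (Field.primitive_element_iff_minpoly_natDegree_eq ℚ x).2 (by rw [hx, hd])
  have hinj : Function.Injective (fun i : Fin d => e i x) := by
    intro i j hij
    have := (Field.primitive_element_iff_algHom_eq_of_eval ℚ ℂ
      (fun y : K => IsAlgClosed.splits _) x (e i)).1 htop
    exact e.injective (this _ hij)
  refine ⟨?_, ?_⟩
  · intro h0
    rw [h0, map_zero] at hdisc
    have h1 := pow_eq_zero_iff (two_ne_zero) |>.1 hdisc.symm
    exact (Matrix.det_vandermonde_ne_zero_iff.2 hinj) h1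
  · have hnorm : ((|Algebra.discr ℚ (fun i : Fin d => x ^ (i : ℕ))| : ℚ) : ℝ) =
        ‖(Matrix.vandermonde fun i => e i x).det‖ ^ 2 := by
      rw [← norm_pow, ← hdisc]
      simp
    rw [hnorm, Matrix.det_vandermonde]
    set m : Fin d → ℝ := fun i => max 1 ‖e i x‖ with hm
    have hm1 : ∀ i, 1 ≤ m i := fun i => le_max_left _ _
    have hbound : ‖∏ i : Fin d, ∏ j ∈ Finset.Ioi i, (e j x - e i x)‖ ≤
        ∏ i : Fin d, ∏ j ∈ Finset.Ioi i, (2 * (m i * m j)) := by
      rw [norm_prod]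
      refine Finset.prod_le_prod (fun i _ => norm_nonneg _) fun i _ => ?_
      rw [norm_prod]
      refine Finset.prod_le_prod (fun j _ => norm_nonneg _) fun j _ => ?_
      refine le_trans (norm_sub_le _ _) ?_
      have h1 : ‖e j x‖ ≤ m j := le_max_right _ _
      have h2 : ‖e i x‖ ≤ m i := le_max_right _ _
      nlinarith [hm1 i, hm1 j]
    have hprod : ∏ i : Fin d, m i ≤ Real.exp (hgt x) := by
      have h1 : ∏ i : Fin d, m i = Real.exp (∑ φ : K →ₐ[ℚ] ℂ, Real.log (max 1 ‖φ x‖)) := by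
        rw [← Equiv.sum_comp e, Real.exp_sum]
        refine Finset.prod_congr rfl fun i _ => ?_
        rw [Real.exp_log (lt_of_lt_of_le one_pos (le_max_left _ _))]
      rw [h1, ← sum_emb x (fun t => Real.log (max 1 t))]
      apply Real.exp_le_exp.2
      unfold hgt
      have : 0 ≤ ∑ᶠ v : HeightOneSpectrum (𝓞 K), Real.log (max 1 (FinitePlace.mk v x)) :=
        finsum_nonneg fun v => log_max_nonneg _
      linarith
    have hprod0 : 0 ≤ ∏ i : Fin d, m i := Finset.prod_nonneg fun i _ => by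
      linarith [hm1 i]
    have hcount : 2 * ∑ i : Fin d, (Finset.Ioi i).card = d * (d - 1) := by
      have h1 : ∑ i : Fin d, (Finset.Ioi i).card = ∑ i : Fin d, (d - 1 - (i : ℕ)) := by
        refine Finset.sum_congr rfl fun i _ => ?_
        rw [Fin.card_Ioi]
      rw [h1, Fin.sum_univ_eq_sum_range (fun i => d - 1 - i) d, Finset.sum_range_reflect
        (fun i => i) d, mul_comm, Finset.sum_range_id_mul_two]
    calc ‖∏ i : Fin d, ∏ j ∈ Finset.Ioi i, (e j x - e i x)‖ ^ 2
        ≤ (∏ i : Fin d, ∏ j ∈ Finset.Ioi i, (2 * (m i * m j))) ^ 2 :=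
          pow_le_pow_left₀ (norm_nonneg _) hbound 2
      _ = 2 ^ (d * (d - 1)) * (∏ i : Fin d, m i) ^ (2 * (d - 1)) := by
          rw [prod_pairs, mul_pow, ← pow_mul, ← pow_mul, ← hcount]
          congr 2 <;> ring
      _ ≤ _ := by
          refine mul_le_mul_of_nonneg_left ?_ (by positivity)
          exact pow_le_pow_left₀ hprod0 hprod _

/-- The discriminant of a field generated by an algebraic integer. -/
theorem discr_le {x : K} {d : ℕ} (hd : Module.finrank ℚ K = d) (hint : IsIntegral ℤ x)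
    (hx : (minpoly ℚ x).natDegree = d) :
    ((|discr K| : ℤ) : ℝ) ≤ 2 ^ (d * (d - 1)) * Real.exp (hgt x) ^ (2 * (d - 1)) := by
  classical
  obtain ⟨hne, hle⟩ := discr_powers_le hd hx
  refine le_trans ?_ hle
  set x' : 𝓞 K := ⟨x, hint⟩ with hx'
  have hcard : Fintype.card (Module.Free.ChooseBasisIndex ℤ (𝓞 K)) = d := by
    rw [← Module.finrank_eq_card_chooseBasisIndex, RingOfIntegers.rank, hd]
  set b := (RingOfIntegers.basis K).reindex (Fintype.equivFinOfCardEq hcard) with hb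
  set v : Fin d → 𝓞 K := fun i => x' ^ (i : ℕ) with hv
  have h1 : Algebra.discr ℤ v = (b.toMatrix v).det ^ 2 * discr K := by
    rw [← NumberField.discr_eq_discr K b, ← Algebra.discr_of_matrix_vecMul,
      Module.Basis.toMatrix_map_vecMul]
  have h2 : ((Algebra.discr ℤ v : ℤ) : ℚ) = Algebra.discr ℚ (fun i : Fin d => x ^ (i : ℕ)) := by
    rw [Algebra.discr_def, Algebra.discr_def]
    have h3 : Algebra.traceMatrix ℚ (fun i : Fin d => x ^ (i : ℕ)) =
        (Algebra.traceMatrix ℤ v).map (Int.castRingHom ℚ) := by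
      ext i j
      simp only [Algebra.traceMatrix_apply, Algebra.traceForm_apply, Matrix.map_apply, hv]
      have h4 := Algebra.coe_trace_int (x' ^ (i : ℕ) * x' ^ (j : ℕ))
      rw [eq_intCast, h4]
      rfl
    rw [h3]
    exact (Int.cast_det _)
  have h5 : ((|Algebra.discr ℚ (fun i : Fin d => x ^ (i : ℕ))| : ℚ) : ℝ) =
      ((|Algebra.discr ℤ v| : ℤ) : ℝ) := by
    rw [← h2]
    push_cast
    rfl
  rw [h5]
  have h6 : Algebra.discr ℤ v ≠ 0 := by
    intro h0
    rw [h0] at h2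
    exact hne h2.symm
  have h7 : (b.toMatrix v).det ≠ 0 := by
    intro h0
    rw [h0] at h1
    apply h6
    rw [h1]; ring
  have h8 : |discr K| ≤ |Algebra.discr ℤ v| := by
    rw [h1, abs_mul, abs_of_nonneg (sq_nonneg (b.toMatrix v).det)]
    have h9 : 1 ≤ (b.toMatrix v).det ^ 2 := by
      have : 0 < (b.toMatrix v).det ^ 2 := by positivity
      omega
    nlinarith [abs_nonneg (discr K)]
  exact_mod_cast h8

end Pool.Agent.UDC
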