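import Mathlib
import Pool.Agent.UDC.Defs

/-! # Module Family (UDC)
Paper proof.  `exists_irr_two`: minimal polynomial of a primitive element of `GaloisField 2 d`.
`family`: `g` as above (`g.coeff 0 = 1`, `g(1) = 1` as `d ≥ 2`).  `M = e^L/4`, `T = ⌊e^L/(8d)⌋`, `R = c₁ e^(L/κ)` with
`log c₁ = -(log 12 + d log 2 + 1)/κ - d log 3 - d`.  For `r ∈ [1,R]`, `r ≡ 1 mod 6`, let `l` be the largest with `m := r 3^l ≤ M` (exists: `R ≤ M`), so `M/3 < m`, `m` odd.
For integers `|c_j| ≤ T`, `c_j ≡ g_j mod 2` (`2 ≤ j ≤ d-1`), put `c_1 = m - 2 - ∑_{j ≥ 2} c_j` and `F = X^d + ∑_{j=1}^{d-1} c_j X^j + 1`: `F(1) = m`.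
`F ≡ g mod 2` (for `c_1` because `g(1) = 1 ≡ m`), so `F` is irreducible (`Polynomial.Monic.irreducible_of_irreducible_map` and Gauss
`Monic.irreducible_iff_irreducible_map_fraction_map`).  `∑|coeff| ≤ 4 + 2(d-2)T + m ≤ e^L` for `e^L ≥ 8`.
Inequality: `κ log r ≤ κ log c₁ + L` and `log(r 3^l) ≥ L - log 12`.
Injectivity: `F(1) = m` determines `r` (`3 ∤ r`), the coefficients determine `c_j`.  Count: `≥ (R/6 - 1) T^(d-2)` (each parity class of `[-T,T]` has `≥ T` elements). -/

namespace Pool.Agent.UDC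

open Polynomial

/-- An irreducible polynomial over `F_2` of every degree. -/
theorem exists_irr_two (d : ℕ) (hd : 1 ≤ d) :
    ∃ g : (ZMod 2)[X], g.Monic ∧ Irreducible g ∧ g.natDegree = d := by
  have : Fact (Nat.Prime 2) := ⟨Nat.prime_two⟩
  obtain ⟨α, hα⟩ := Field.exists_primitive_element (ZMod 2) (GaloisField 2 d)
  have hint : IsIntegral (ZMod 2) α := Algebra.IsIntegral.isIntegral α
  refine ⟨minpoly (ZMod 2) α, minpoly.monic hint, minpoly.irreducible hint, ?_⟩
  rw [(Field.primitive_element_iff_minpoly_natDegree_eq (ZMod 2) α).mp hα,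
    GaloisField.finrank 2 (by omega)]

/-- The polynomial with the given coefficients up to degree `d`. -/
noncomputable def pol (d : ℕ) (co : ℕ → ℤ) : ℤ[X] :=
  ∑ j ∈ Finset.range (d + 1), C (co j) * X ^ j

theorem pol_coeff (d : ℕ) (co : ℕ → ℤ) (n : ℕ) :
    (pol d co).coeff n = if n ≤ d then co n else 0 := by
  simp only [pol, finsetSum_coeff, coeff_C_mul_X_pow]
  rw [Finset.sum_ite_eq]
  simp

theorem pol_natDegree_le (d : ℕ) (co : ℕ → ℤ) : (pol d co).natDegree ≤ d := by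
  rw [natDegree_le_iff_coeff_eq_zero]
  intro n hn
  rw [pol_coeff, if_neg (by omega)]

theorem pol_monic (d : ℕ) (co : ℕ → ℤ) (h : co d = 1) : (pol d co).Monic := by
  refine monic_of_natDegree_le_of_coeff_eq_one d (pol_natDegree_le d co) ?_
  rw [pol_coeff, if_pos le_rfl, h]

theorem pol_natDegree (d : ℕ) (co : ℕ → ℤ) (h : co d = 1) : (pol d co).natDegree = d := by
  refine natDegree_eq_of_le_of_coeff_ne_zero (pol_natDegree_le d co) ?_
  rw [pol_coeff, if_pos le_rfl, h]
  exact one_ne_zero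

theorem sum_split {M : Type*} [AddCommMonoid M] (d : ℕ) (hd : 2 ≤ d) (f : ℕ → M) :
    ∑ j ∈ Finset.range (d + 1), f j = f 0 + f 1 + ∑ j ∈ Finset.Ico 2 d, f j + f d := by
  rw [Finset.sum_range_succ, ← Finset.sum_range_add_sum_Ico f hd, Finset.sum_range_succ,
    Finset.sum_range_succ, Finset.sum_range_zero, zero_add]

theorem pol_eval_one (d : ℕ) (co : ℕ → ℤ) :
    (pol d co).eval 1 = ∑ j ∈ Finset.range (d + 1), co j := by
  simp [pol, eval_finsetSum]

/-- The coefficients. -/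
noncomputable def co (g : (ZMod 2)[X]) (d m : ℕ) (a : ℕ → ℕ) : ℕ → ℤ := fun j =>
  if j = 0 then 1 else if j = 1 then
    (m : ℤ) - 2 - ∑ i ∈ Finset.Ico 2 d, ((2 * a i + (g.coeff i).val : ℕ) : ℤ)
  else if j = d then 1 else ((2 * a j + (g.coeff j).val : ℕ) : ℤ)

theorem co_zero (g : (ZMod 2)[X]) (d m : ℕ) (a : ℕ → ℕ) : co g d m a 0 = 1 := by
  simp [co]

theorem co_one (g : (ZMod 2)[X]) (d m : ℕ) (a : ℕ → ℕ) : co g d m a 1 =
    (m : ℤ) - 2 - ∑ i ∈ Finset.Ico 2 d, ((2 * a i + (g.coeff i).val : ℕ) : ℤ) := by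
  unfold co; rw [if_neg (by norm_num), if_pos rfl]

theorem co_top (g : (ZMod 2)[X]) (d m : ℕ) (hd : 2 ≤ d) (a : ℕ → ℕ) : co g d m a d = 1 := by
  unfold co; rw [if_neg (by omega), if_neg (by omega), if_pos rfl]

theorem co_mid (g : (ZMod 2)[X]) (d m : ℕ) (a : ℕ → ℕ) (j : ℕ) (h2 : 2 ≤ j) (hj : j < d) :
    co g d m a j = ((2 * a j + (g.coeff j).val : ℕ) : ℤ) := by
  unfold co; rw [if_neg (by omega), if_neg (by omega), if_neg (by omega)]

theorem co_sum_mid (g : (ZMod 2)[X]) (d m : ℕ) (a : ℕ → ℕ) :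
    ∑ j ∈ Finset.Ico 2 d, co g d m a j =
      ∑ i ∈ Finset.Ico 2 d, ((2 * a i + (g.coeff i).val : ℕ) : ℤ) :=
  Finset.sum_congr rfl fun j hj =>
    co_mid g d m a j (Finset.mem_Ico.mp hj).1 (Finset.mem_Ico.mp hj).2

theorem eval_one_co (g : (ZMod 2)[X]) (d m : ℕ) (hd : 2 ≤ d) (a : ℕ → ℕ) :
    (pol d (co g d m a)).eval 1 = (m : ℤ) := by
  rw [pol_eval_one, sum_split d hd, co_zero, co_one, co_top g d m hd, co_sum_mid]
  ring

theorem abs_sum_co (g : (ZMod 2)[X]) (d m : ℕ) (hd : 2 ≤ d) (a : ℕ → ℕ) :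
    ∑ j ∈ Finset.range (d + 1), |co g d m a j| ≤
      (m : ℤ) + 4 + 2 * ∑ i ∈ Finset.Ico 2 d, ((2 * a i + (g.coeff i).val : ℕ) : ℤ) := by
  rw [sum_split d hd, co_zero, co_one, co_top g d m hd]
  have h1 : ∑ j ∈ Finset.Ico 2 d, |co g d m a j| =
      ∑ i ∈ Finset.Ico 2 d, ((2 * a i + (g.coeff i).val : ℕ) : ℤ) := by
    refine Finset.sum_congr rfl fun j hj => ?_
    rw [co_mid g d m a j (Finset.mem_Ico.mp hj).1 (Finset.mem_Ico.mp hj).2, abs_of_nonneg]
    positivity
  rw [h1]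
  set s := ∑ i ∈ Finset.Ico 2 d, ((2 * a i + (g.coeff i).val : ℕ) : ℤ) with hs
  have hs0 : 0 ≤ s := Finset.sum_nonneg fun i _ => by positivity
  have hm : (0 : ℤ) ≤ m := by positivity
  have h2 : |(m : ℤ) - 2 - s| ≤ m + 2 + s := by
    rw [abs_le]; constructor <;> linarith
  rw [abs_one]
  linarith

theorem zmod2_eq_one (x : ZMod 2) (hx : x ≠ 0) : x = 1 := by
  revert x; decide

theorem cast_val_two (x : ZMod 2) : ((x.val : ℕ) : ZMod 2) = x := by
  revert x; decide

theorem map_co (g : (ZMod 2)[X]) (hg : g.Monic) (hirr : Irreducible g) (d : ℕ) (hd : 2 ≤ d)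
    (hdeg : g.natDegree = d) (m : ℕ) (hm : (m : ZMod 2) = 1) (a : ℕ → ℕ) :
    (pol d (co g d m a)).map (Int.castRingHom (ZMod 2)) = g := by
  have : Fact (Nat.Prime 2) := ⟨Nat.prime_two⟩
  have hdeg' : g.degree ≠ 1 := by
    intro h
    have := natDegree_eq_of_degree_eq_some (n := 1) (by exact_mod_cast h)
    omega
  have h0 : g.coeff 0 = 1 := by
    apply zmod2_eq_one
    intro h
    refine hdeg' (degree_eq_one_of_irreducible_of_root hirr (x := 0) ?_)
    rw [IsRoot, ← coeff_zero_eq_eval_zero, h]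
  have h1 : g.eval 1 = 1 := by
    apply zmod2_eq_one
    intro h
    exact hdeg' (degree_eq_one_of_irreducible_of_root hirr (x := 1) h)
  have hd1 : g.coeff d = 1 := by rw [← hdeg]; exact hg
  have h2 : g.eval 1 = ∑ j ∈ Finset.range (d + 1), g.coeff j := by
    rw [eval_eq_sum_range, hdeg]; simp
  rw [sum_split d hd, h0, hd1, h1] at h2
  have h22 : (2 : ZMod 2) = 0 := rfl
  have hg1 : g.coeff 1 = 1 - ∑ j ∈ Finset.Ico 2 d, g.coeff j := by
    linear_combination -h2 + h22 * (-1 : ZMod 2)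
  ext n
  rw [coeff_map, pol_coeff]
  by_cases hn : n ≤ d
  · rw [if_pos hn]
    rcases Nat.lt_or_ge n 2 with h | h
    · interval_cases n
      · rw [co_zero, h0]; simp
      · rw [co_one, hg1]
        push_cast
        rw [eq_intCast]
        push_cast
        rw [hm]
        have : ∑ x ∈ Finset.Ico 2 d, (2 * (a x : ZMod 2) + (((g.coeff x).val : ℕ) : ZMod 2)) =
            ∑ j ∈ Finset.Ico 2 d, g.coeff j := by
          refine Finset.sum_congr rfl fun j _ => ?_
          rw [cast_val_two, h22]; ring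
        rw [this, h22]; ring
    · rcases hn.eq_or_lt with rfl | hlt
      · rw [co_top g _ m hd, hd1]; simp
      · rw [co_mid g d m a n h hlt, eq_intCast]
        push_cast
        rw [cast_val_two, h22]; ring
  · rw [if_neg hn, coeff_eq_zero_of_natDegree_lt (by omega)]; simp

theorem irr_co (g : (ZMod 2)[X]) (hg : g.Monic) (hirr : Irreducible g) (d : ℕ) (hd : 2 ≤ d)
    (hdeg : g.natDegree = d) (m : ℕ) (hm : (m : ZMod 2) = 1) (a : ℕ → ℕ) :
    Irreducible ((pol d (co g d m a)).map (Int.castRingHom ℚ)) := by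
  have : Fact (Nat.Prime 2) := ⟨Nat.prime_two⟩
  have hmon : (pol d (co g d m a)).Monic := pol_monic d _ (co_top g d m hd a)
  have h1 : Irreducible (pol d (co g d m a)) := by
    refine Monic.irreducible_of_irreducible_map (Int.castRingHom (ZMod 2)) _ hmon ?_
    rw [map_co g hg hirr d hd hdeg m hm a]
    exact hirr
  exact (Monic.irreducible_iff_irreducible_map_fraction_map (K := ℚ) hmon).mp h1

theorem three_part {r r' l l' : ℕ} (hr : ¬ 3 ∣ r) (hr' : ¬ 3 ∣ r')
    (h : r * 3 ^ l = r' * 3 ^ l') : r = r' := by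
  rcases Nat.lt_trichotomy l l' with h1 | h1 | h1
  · exfalso
    obtain ⟨k, rfl⟩ := Nat.exists_eq_add_of_lt h1
    rw [show l + k + 1 = l + (k + 1) by ring, pow_add, pow_succ] at h
    have : r = r' * 3 ^ k * 3 := by
      have h3 : 0 < 3 ^ l := by positivity
      apply Nat.eq_of_mul_eq_mul_right h3
      rw [h]; ring
    exact hr ⟨r' * 3 ^ k, by rw [this]; ring⟩
  · subst h1
    exact Nat.eq_of_mul_eq_mul_right (by positivity) h
  · exfalso
    obtain ⟨k, rfl⟩ := Nat.exists_eq_add_of_lt h1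
    rw [show l' + k + 1 = l' + (k + 1) by ring, pow_add, pow_succ] at h
    have : r' = r * 3 ^ k * 3 := by
      have h3 : 0 < 3 ^ l' := by positivity
      apply Nat.eq_of_mul_eq_mul_right h3
      rw [← h]; ring
    exact hr' ⟨r * 3 ^ k, by rw [this]; ring⟩

/-- The family of polynomials. -/
theorem family (d : ℕ) (hd : 2 ≤ d) (κ : ℝ) (hκ : 1 ≤ κ) : ∃ c L₀ : ℝ, 0 < c ∧
    ∀ L : ℝ, L₀ ≤ L → ∃ S : Finset ℤ[X],
      c * Real.exp (((d : ℝ) - 2 + 1 / κ) * L) ≤ (S.card : ℝ) ∧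
      ∀ F ∈ S, F.Monic ∧ Irreducible (F.map (Int.castRingHom ℚ)) ∧ F.natDegree = d ∧
        F.coeff 0 = 1 ∧
        (∑ j ∈ Finset.range (F.natDegree + 1), (|F.coeff j| : ℝ)) ≤ Real.exp L ∧
        ∃ r l : ℕ, ¬ 3 ∣ r ∧ F.eval 1 = (r : ℤ) * 3 ^ l ∧
          κ * (Real.log r + d * Real.log 3 + d) < Real.log ((r : ℝ) * 3 ^ l) - d * Real.log 2 := by
  obtain ⟨g, hg, hirr, hdeg⟩ := exists_irr_two d (by omega)
  have hκ0 : 0 < κ := by linarith
  have hd0 : (0 : ℝ) < d := by positivity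
  have hd2 : (2 : ℝ) ≤ d := by exact_mod_cast hd
  have hl3 : 0 < Real.log 3 := Real.log_pos (by norm_num)
  have hl2 : 0 < Real.log 2 := Real.log_pos (by norm_num)
  have hl12 : 0 < Real.log 12 := Real.log_pos (by norm_num)
  set lc : ℝ := -((Real.log 12 + d * Real.log 2 + 1) / κ) - d * Real.log 3 - d with hlc
  set c₁ : ℝ := Real.exp lc with hc1
  have hc1pos : 0 < c₁ := Real.exp_pos _
  have hlcle : lc ≤ -2 := by
    have h1 : 0 ≤ (Real.log 12 + d * Real.log 2 + 1) / κ := by positivity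
    have h2 : 0 ≤ d * Real.log 3 := by positivity
    rw [hlc]; linarith
  have hc1le : c₁ ≤ 1 / 4 := by
    have h1 : (2 : ℝ) ≤ Real.exp 1 := by
      have := Real.add_one_le_exp (1 : ℝ); linarith
    have h2 : (4 : ℝ) ≤ Real.exp 2 := by
      have : Real.exp 2 = Real.exp 1 * Real.exp 1 := by rw [← Real.exp_add]; norm_num
      rw [this]; nlinarith
    have h3 : c₁ ≤ Real.exp (-2) := Real.exp_le_exp.mpr hlcle
    rw [Real.exp_neg] at h3
    have h4 : (Real.exp 2)⁻¹ ≤ (4 : ℝ)⁻¹ := inv_anti₀ (by norm_num) h2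
    linarith
  refine ⟨c₁ / 12 * (1 / (32 * d)) ^ (d - 2),
    max (Real.log (32 * d)) (κ * Real.log (12 / c₁)), by positivity, ?_⟩
  intro L hL
  have hL1 : Real.log (32 * d) ≤ L := le_trans (le_max_left _ _) hL
  have hL2 : κ * Real.log (12 / c₁) ≤ L := le_trans (le_max_right _ _) hL
  have hE1 : 32 * (d : ℝ) ≤ Real.exp L := by
    rw [← Real.exp_log (show (0 : ℝ) < 32 * d by positivity)]
    exact Real.exp_le_exp.mpr hL1
  have hE8 : 8 ≤ Real.exp L := by linarith
  have hL0 : 0 ≤ L := le_trans (Real.log_nonneg (by linarith)) hL1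
  set R : ℝ := c₁ * Real.exp (L / κ) with hR
  have hR12 : 12 ≤ R := by
    have h1 : Real.log (12 / c₁) ≤ L / κ := by
      rw [le_div_iff₀ hκ0]; linarith
    have h2 : 12 / c₁ ≤ Real.exp (L / κ) := by
      rw [← Real.exp_log (show (0 : ℝ) < 12 / c₁ by positivity)]
      exact Real.exp_le_exp.mpr h1
    rw [div_le_iff₀ hc1pos] at h2
    rw [hR]; linarith
  have hRM : R ≤ Real.exp L / 4 := by
    have h1 : Real.exp (L / κ) ≤ Real.exp L := Real.exp_le_exp.mpr (div_le_self hL0 hκ)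
    calc R = c₁ * Real.exp (L / κ) := rfl
      _ ≤ 1 / 4 * Real.exp L := by gcongr
      _ = Real.exp L / 4 := by ring
  -- the parameters
  set N : ℕ := ⌊R / 6⌋₊ with hN
  set A : ℕ := ⌊Real.exp L / (16 * d)⌋₊ with hA
  have hNle : (N : ℝ) ≤ R / 6 := Nat.floor_le (by positivity)
  have hNge : R / 12 ≤ (N : ℝ) := by
    have := Nat.sub_one_lt_floor (R / 6)
    have h2 : R / 6 - 1 < (N : ℝ) := this
    linarith
  have hAle : (A : ℝ) ≤ Real.exp L / (16 * d) := Nat.floor_le (by positivity)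
  have hAge : Real.exp L / (32 * d) ≤ (A : ℝ) := by
    have h2 : Real.exp L / (16 * d) - 1 < (A : ℝ) := Nat.sub_one_lt_floor _
    have h3 : 1 ≤ Real.exp L / (32 * d) := by
      rw [le_div_iff₀ (by positivity)]; linarith
    have h4 : Real.exp L / (16 * d) = 2 * (Real.exp L / (32 * d)) := by
      field_simp; ring
    linarith
  -- the exponent of three
  have hex : ∀ k : Fin N, ∃ l : ℕ, ((6 * (k : ℕ) + 1 : ℕ) : ℝ) * 3 ^ l ≤ Real.exp L / 4 ∧
      Real.exp L / 4 < ((6 * (k : ℕ) + 1 : ℕ) : ℝ) * 3 ^ (l + 1) := by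
    intro k
    have hk : ((k : ℕ) : ℝ) + 1 ≤ N := by exact_mod_cast k.2
    have hr0 : (0 : ℝ) < ((6 * (k : ℕ) + 1 : ℕ) : ℝ) := by positivity
    have hr1 : ((6 * (k : ℕ) + 1 : ℕ) : ℝ) ≤ Real.exp L / 4 := by
      push_cast; linarith
    obtain ⟨l, h1, h2⟩ := exists_nat_pow_near
      (show (1 : ℝ) ≤ Real.exp L / 4 / ((6 * (k : ℕ) + 1 : ℕ) : ℝ) by
        rw [le_div_iff₀ hr0]; linarith) (show (1 : ℝ) < 3 by norm_num)
    refine ⟨l, ?_, ?_⟩
    · rw [le_div_iff₀ hr0] at h1; linarith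
    · rw [div_lt_iff₀ hr0] at h2; linarith
  choose l hl1 hl2' using hex
  set ext : (Fin (d - 2) → Fin A) → ℕ → ℕ := fun a j =>
    if h : j - 2 < d - 2 then ((a ⟨j - 2, h⟩ : Fin A) : ℕ) else 0 with hext
  have hextA : ∀ (a : Fin (d - 2) → Fin A) (j : ℕ), 2 ≤ j → j < d → ext a j < A := by
    intro a j h2 hj
    have hlt : j - 2 < d - 2 := by omega
    simp only [hext, dif_pos hlt]
    exact (a ⟨j - 2, hlt⟩).2
  set m : Fin N → ℕ := fun k => (6 * (k : ℕ) + 1) * 3 ^ (l k) with hm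
  set Φ : Fin N × (Fin (d - 2) → Fin A) → ℤ[X] := fun p =>
    pol d (co g d (m p.1) (ext p.2)) with hΦ
  have h3k : ∀ k : Fin N, ¬ 3 ∣ (6 * (k : ℕ) + 1) := by intro k; omega
  have hinj : Function.Injective Φ := by
    rintro ⟨k, a⟩ ⟨k', a'⟩ h
    have h1 : ((m k : ℕ) : ℤ) = (m k' : ℕ) := by
      rw [← eval_one_co g d (m k) hd (ext a), ← eval_one_co g d (m k') hd (ext a')]
      exact congrArg (fun F => F.eval 1) h
    have h2 : m k = m k' := by exact_mod_cast h1
    have h3 : 6 * (k : ℕ) + 1 = 6 * (k' : ℕ) + 1 := three_part (h3k k) (h3k k') h2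
    have h4 : k = k' := by apply Fin.ext; omega
    subst h4
    have h5 : a = a' := by
      funext i
      have hi := i.2
      have h6 : (pol d (co g d (m k) (ext a))).coeff (i + 2) =
          (pol d (co g d (m k) (ext a'))).coeff (i + 2) := congrArg (fun F => F.coeff (i + 2)) h
      rw [pol_coeff, pol_coeff, if_pos (by omega), if_pos (by omega),
        co_mid g d _ _ _ (by omega) (by omega), co_mid g d _ _ _ (by omega) (by omega)] at h6
      have h7 : ext a (i + 2) = ext a' (i + 2) := by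
        have : 2 * ext a (i + 2) + (g.coeff (i + 2)).val =
          2 * ext a' (i + 2) + (g.coeff (i + 2)).val := by exact_mod_cast h6
        omega
      have hlt : (i : ℕ) + 2 - 2 < d - 2 := by omega
      simp only [hext, dif_pos hlt] at h7
      apply Fin.ext
      simpa using h7
    rw [h5]
  refine ⟨Finset.univ.image Φ, ?_, ?_⟩
  · rw [Finset.card_image_of_injective _ hinj, Finset.card_univ, Fintype.card_prod,
      Fintype.card_fin, Fintype.card_fun, Fintype.card_fin, Fintype.card_fin]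
    push_cast
    have h1 : Real.exp (((d : ℝ) - 2 + 1 / κ) * L) = Real.exp (L / κ) * Real.exp L ^ (d - 2) := by
      rw [← Real.exp_nat_mul, ← Real.exp_add]
      congr 1
      rw [Nat.cast_sub hd]; push_cast; ring
    calc c₁ / 12 * (1 / (32 * d)) ^ (d - 2) * Real.exp (((d : ℝ) - 2 + 1 / κ) * L)
        = R / 12 * (Real.exp L / (32 * d)) ^ (d - 2) := by
          rw [h1, hR, div_pow, div_pow, one_pow]; ring
      _ ≤ N * (A : ℝ) ^ (d - 2) := by gcongr
  · intro F hF
    obtain ⟨⟨k, a⟩, -, rfl⟩ := Finset.mem_image.mp hF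
    have hmk : ((m k : ℕ) : ZMod 2) = 1 := by
      simp only [hm]
      push_cast
      have h6 : (6 : ZMod 2) = 0 := rfl
      have h3 : (3 : ZMod 2) = 1 := rfl
      rw [h6, h3]; simp
    have htop := co_top g d (m k) hd (ext a)
    have hmR : ((m k : ℕ) : ℝ) = ((6 * (k : ℕ) + 1 : ℕ) : ℝ) * 3 ^ (l k) := by
      simp only [hm]; push_cast; ring
    have hnat : (Φ (k, a)).natDegree = d := pol_natDegree d _ htop
    refine ⟨pol_monic d _ htop, irr_co g hg hirr d hd hdeg _ hmk _, hnat, ?_, ?_, ?_⟩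
    · simp only [hΦ]
      rw [pol_coeff, if_pos (by omega), co_zero]
    · rw [hnat]
      have h1 : ∑ j ∈ Finset.range (d + 1), (|(Φ (k, a)).coeff j| : ℝ) =
          ((∑ j ∈ Finset.range (d + 1), |co g d (m k) (ext a) j| : ℤ) : ℝ) := by
        push_cast
        refine Finset.sum_congr rfl fun j hj => ?_
        simp only [hΦ]
        rw [pol_coeff, if_pos (by have := Finset.mem_range.mp hj; omega)]
      rw [h1]
      have h2 : ((∑ j ∈ Finset.range (d + 1), |co g d (m k) (ext a) j| : ℤ) : ℝ) ≤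
          (((m k : ℤ) + 4 + 2 * ∑ i ∈ Finset.Ico 2 d,
            ((2 * ext a i + (g.coeff i).val : ℕ) : ℤ) : ℤ) : ℝ) := by
        exact_mod_cast abs_sum_co g d (m k) hd (ext a)
      have h3 : (((∑ i ∈ Finset.Ico 2 d,
            ((2 * ext a i + (g.coeff i).val : ℕ) : ℤ) : ℤ)) : ℝ) ≤ d * (2 * A) := by
        have h4 : (∑ i ∈ Finset.Ico 2 d, (2 * ext a i + (g.coeff i).val)) ≤ d * (2 * A) := by
          calc ∑ i ∈ Finset.Ico 2 d, (2 * ext a i + (g.coeff i).val)
              ≤ ∑ i ∈ Finset.Ico 2 d, 2 * A := by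
                refine Finset.sum_le_sum fun i hi => ?_
                have h5 := hextA a i (Finset.mem_Ico.mp hi).1 (Finset.mem_Ico.mp hi).2
                have h6 : (g.coeff i).val < 2 := ZMod.val_lt _
                omega
            _ = (d - 2) * (2 * A) := by rw [Finset.sum_const, Nat.card_Ico, smul_eq_mul]
            _ ≤ d * (2 * A) := Nat.mul_le_mul_right _ (by omega)
        exact_mod_cast h4
      have h7 : (d : ℝ) * (2 * A) ≤ Real.exp L / 8 := by
        calc (d : ℝ) * (2 * A) ≤ d * (2 * (Real.exp L / (16 * d))) := by gcongr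
          _ = Real.exp L / 8 := by field_simp; ring
      have h8 := hl1 k
      rw [← hmR] at h8
      push_cast at h2 h3
      push_cast
      linarith
    · refine ⟨6 * k + 1, l k, h3k k, ?_, ?_⟩
      · simp only [hΦ]
        rw [eval_one_co g d (m k) hd (ext a)]
        simp only [hm]; push_cast; ring
      · have hr0 : (0 : ℝ) < ((6 * (k : ℕ) + 1 : ℕ) : ℝ) := by positivity
        have hk : ((k : ℕ) : ℝ) + 1 ≤ N := by exact_mod_cast k.2
        have hrR : ((6 * (k : ℕ) + 1 : ℕ) : ℝ) ≤ R := by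
          push_cast; linarith
        have hlogr : Real.log ((6 * (k : ℕ) + 1 : ℕ) : ℝ) ≤ lc + L / κ := by
          have h1 := Real.log_le_log hr0 hrR
          rw [hR, Real.log_mul hc1pos.ne' (Real.exp_pos _).ne', hc1, Real.log_exp,
            Real.log_exp] at h1
          exact h1
        have h2 : κ * (Real.log ((6 * (k : ℕ) + 1 : ℕ) : ℝ) + d * Real.log 3 + d) ≤
            L - (Real.log 12 + d * Real.log 2 + 1) := by
          have h3 : Real.log ((6 * (k : ℕ) + 1 : ℕ) : ℝ) + d * Real.log 3 + d ≤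
              L / κ - (Real.log 12 + d * Real.log 2 + 1) / κ := by
            rw [hlc] at hlogr; linarith
          calc κ * (Real.log ((6 * (k : ℕ) + 1 : ℕ) : ℝ) + d * Real.log 3 + d)
              ≤ κ * (L / κ - (Real.log 12 + d * Real.log 2 + 1) / κ) := by gcongr
            _ = L - (Real.log 12 + d * Real.log 2 + 1) := by field_simp
        have h4 : L - Real.log 12 < Real.log (((6 * (k : ℕ) + 1 : ℕ) : ℝ) * 3 ^ (l k)) := by
          have h5 := hl2' k
          have h6 : Real.exp L / 12 < ((6 * (k : ℕ) + 1 : ℕ) : ℝ) * 3 ^ (l k) := by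
            rw [pow_succ] at h5; linarith
          have h7 := Real.log_lt_log (by positivity) h6
          rw [Real.log_div (Real.exp_pos _).ne' (by norm_num), Real.log_exp] at h7
          exact h7
        linarith

end Pool.Agent.UDC
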