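import Mathlib
import Pool.Agent.UDC.Defs

/-! # Module Loc (UDC)
Paper proof.  (0) Lemma: `p` prime, `y ∈ K` generator, `|y|_v ≤ 1` for all `v ∣ p`.  Then there is `m : ℕ`, `p ∤ m`, with `m y ∈ 𝓞 K` (take `m = absNorm D`,
`D = ∏_v v^(max 0 (-ord_v y))`, coprime to `p`: `absNorm D ∈ D` and every prime factor of `absNorm D` lies under a `v ∣ D`; or any other way, e.g. `IsLocalization`
/ integral closure of `ℤ_(p)`).  `minpoly ℤ (m y)` is monic integral of degree `d`, so the coefficients of `minpoly ℚ y` are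
`g_j / m^(d-j)`, i.e. `m^d • minpoly ℚ y` is integral.
`lead_prime`: suppose `|x|_v ≤ 1` for all `v ∣ p`.  Then `m^d • minpoly ℚ x = G.map`, `G ∈ ℤ[X]`, so `lc(f) G = m^d f`; `p ∣ lc f` and `p ∤ m` give `p ∣ f` in `ℤ[X]`,
contradiction with `f` primitive.  (`|x|_v > 1` iff `|x⁻¹|_v < 1`.)
`const_prime`: apply the argument to `x⁻¹` and the reverse polynomial (`f.reverse`/`reflect`, up to sign; coefficients `a_{d-j}`, leading coefficient `a_0 ≠ 0`), which is primitive.
It may be convenient to state (0) for any `g : ℤ[X]` primitive, degree `d = finrank`, `aeval y g = 0`, irreducible or not: `g.map = C (lc g) * minpoly ℚ y`.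
`one_prime`: `f.comp (X + 1)` (or `taylor 1 f`) is primitive with constant coefficient `f(1)` and root `x - 1` (minpoly of `x - 1` is `(minpoly ℚ x).comp (X + 1)`).
`rad_le_cnd`: choose `v_p` for each `p ∣ n`; the `v_p` are distinct (a prime ideal contains one rational prime), `N(v_p) ≥ p`; `log rad n = ∑_p log p ≤ ∑_p log N(v_p) ≤ cnd y`
(`sum_le_finsum'`, `finite_support_cnd`, `cnd_term_nonneg` of H7/Abc/Height).
`rad_prod_le`: the three together. -/

namespace Pool.Agent.UDC

open NumberField IsDedekindDomain Polynomial Pool.Agent.H7.Abc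

variable {K : Type*} [Field K] [NumberField K]


theorem Loc_mk_le_one {v : HeightOneSpectrum (𝓞 K)} {x : K} (hx : x ≠ 0) (h : FinitePlace.mk v x ≤ 1) :
    v.valuation K x ≤ 1 := by
  have hv : v.valuation K x ≠ 0 := (Valuation.ne_zero_iff _).2 hx
  rw [mk_eq_zpow v hx] at h
  have h1 : -ord v x ≤ 0 := by
    by_contra hc
    push Not at hc
    have := one_lt_zpow₀ (one_lt_norm v) hc
    linarith
  unfold ord at h1
  rw [neg_neg] at h1
  have h2 := WithZero.exp_le_exp.2 h1
  rwa [WithZero.exp_log hv, WithZero.exp_zero] at h2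

/-- the ideal of denominators -/
def Loc_D (y : K) : Ideal (𝓞 K) where
  carrier := {a | ∃ c : 𝓞 K, (a : K) * y = c}
  zero_mem' := ⟨0, by simp⟩
  add_mem' := by
    rintro a b ⟨c, hc⟩ ⟨d, hd⟩
    exact ⟨c + d, by push_cast; rw [add_mul, hc, hd]⟩
  smul_mem' := by
    rintro a b ⟨c, hc⟩
    exact ⟨a * c, by rw [smul_eq_mul]; push_cast; rw [mul_assoc, hc]⟩

theorem Loc_norm {p : ℕ} (hp : p.Prime) (a c : 𝓞 K) (h : a + p * c = 1) :
    ¬ (p : ℤ) ∣ Algebra.norm ℤ a := by
  classical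
  have ha : a = 1 - (p : 𝓞 K) * c := by rw [← h]; ring
  have : Fact p.Prime := ⟨hp⟩
  intro hd
  obtain ⟨b⟩ : Nonempty (Module.Basis (Module.Free.ChooseBasisIndex ℤ (𝓞 K)) ℤ (𝓞 K)) :=
    ⟨Module.Free.chooseBasis ℤ (𝓞 K)⟩
  rw [Algebra.norm_eq_matrix_det b] at hd
  have h1 : Algebra.leftMulMatrix b a = 1 - (p : ℤ) • Algebra.leftMulMatrix b c := by
    rw [ha, map_sub, map_one]
    congr 1
    have : (p : 𝓞 K) * c = (p : ℤ) • c := by
      rw [zsmul_eq_mul]; push_cast; rfl
    rw [this, map_zsmul]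
  rw [h1] at hd
  have h2 : ((Matrix.det (1 - (p : ℤ) • Algebra.leftMulMatrix b c) : ℤ) : ZMod p) = 1 := by
    have h3 : ((Matrix.det (1 - (p : ℤ) • Algebra.leftMulMatrix b c) : ℤ) : ZMod p) =
        (Int.castRingHom (ZMod p)) (Matrix.det (1 - (p : ℤ) • Algebra.leftMulMatrix b c)) := rfl
    rw [h3, RingHom.map_det]
    have h4 : (Int.castRingHom (ZMod p)).mapMatrix (1 - (p : ℤ) • Algebra.leftMulMatrix b c) = 1 := by
      rw [map_sub, map_one]
      have : (Int.castRingHom (ZMod p)).mapMatrix ((p : ℤ) • Algebra.leftMulMatrix b c) = 0 := by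
        ext i j
        rw [RingHom.mapMatrix_apply, Matrix.map_apply, Matrix.smul_apply, smul_eq_mul, map_mul]
        simp
      rw [this, sub_zero]
    rw [h4, Matrix.det_one]
  rw [(ZMod.intCast_zmod_eq_zero_iff_dvd _ p).2 hd] at h2
  exact zero_ne_one h2

/-- (0) denominators prime to `p` -/
theorem Loc_den {y : K} {p : ℕ} (hp : p.Prime)
    (h : ∀ v : HeightOneSpectrum (𝓞 K), (p : 𝓞 K) ∈ v.asIdeal → v.valuation K y ≤ 1) :
    ∃ m : ℕ, ¬ p ∣ m ∧ IsIntegral ℤ ((m : K) * y) := by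
  classical
  have htop : Loc_D y ⊔ Ideal.span {(p : 𝓞 K)} = ⊤ := by
    by_contra hc
    obtain ⟨M, hM, hle⟩ := Ideal.exists_le_maximal _ hc
    have hpM : (p : 𝓞 K) ∈ M := hle (Ideal.mem_sup_right (Ideal.mem_span_singleton_self _))
    have hp0 : (p : 𝓞 K) ≠ 0 := by exact_mod_cast hp.ne_zero
    have hMb : M ≠ ⊥ := by
      rintro rfl
      exact hp0 (Ideal.mem_bot.1 hpM)
    obtain ⟨n, d, hb⟩ := HeightOneSpectrum.exists_primeCompl_mul_eq_of_integer
      (⟨M, hM.isPrime, hMb⟩ : HeightOneSpectrum (𝓞 K)) y (h ⟨M, hM.isPrime, hMb⟩ hpM)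
    apply d.2
    apply hle
    apply Ideal.mem_sup_left
    exact ⟨n, by rw [mul_comm]; exact hb⟩
  obtain ⟨a, ha, b, hb, hab⟩ := Submodule.mem_sup.1 ((Ideal.eq_top_iff_one _).1 htop)
  obtain ⟨c, hc⟩ := Ideal.mem_span_singleton'.1 hb
  have hn := Loc_norm hp a c (by rw [← hab, ← hc, mul_comm])
  refine ⟨Ideal.absNorm (Loc_D y), ?_, ?_⟩
  · intro hd
    apply hn
    have h1 : (p : ℤ) ∣ (Ideal.absNorm (Loc_D y) : ℤ) := by exact_mod_cast hd
    exact h1.trans (Ideal.absNorm_dvd_norm_of_mem ha)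
  · obtain ⟨e, he⟩ := Ideal.absNorm_mem (Loc_D y)
    have : ((Ideal.absNorm (Loc_D y) : ℕ) : K) * y = e := by
      rw [← he]; push_cast; rfl
    rw [this]
    exact RingOfIntegers.isIntegral_coe e

/-- the core: `p` does not divide the leading coefficient -/
theorem Loc_core {y : K} {p : ℕ} (hp : p.Prime)
    (h : ∀ v : HeightOneSpectrum (𝓞 K), (p : 𝓞 K) ∈ v.asIdeal → v.valuation K y ≤ 1)
    {g : ℤ[X]} (hg : g.IsPrimitive) (hroot : aeval y g = 0) (hdeg : g.natDegree = Module.finrank ℚ K)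
    (hmin : (minpoly ℚ y).natDegree = Module.finrank ℚ K) : ¬ (p : ℤ) ∣ g.leadingCoeff := by
  intro hdvd
  obtain ⟨m, hpm, hint⟩ := Loc_den hp h
  have hm0 : m ≠ 0 := by rintro rfl; exact hpm (dvd_zero _)
  have hmK : (m : K) ≠ 0 := by exact_mod_cast hm0
  obtain ⟨P, hP⟩ : ∃ P, P = minpoly ℤ ((m : K) * y) := ⟨_, rfl⟩
  obtain ⟨G, hG⟩ : ∃ G : ℤ[X], G = P.comp (C (m : ℤ) * X) := ⟨_, rfl⟩
  have hPm : P.Monic := by rw [hP]; exact minpoly.monic hint
  have hGroot : aeval y G = 0 := by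
    rw [hG, aeval_comp]
    have : aeval y (C (m : ℤ) * X : ℤ[X]) = (m : K) * y := by simp
    rw [this, hP]
    exact minpoly.aeval ℤ _
  have hPQ : P.map (Int.castRingHom ℚ) = minpoly ℚ ((m : K) * y) := by
    rw [hP]
    exact (minpoly.isIntegrallyClosed_eq_field_fractions' ℚ hint).symm
  have hPdeg : P.natDegree ≤ Module.finrank ℚ K := by
    rw [← natDegree_map_eq_of_injective (f := Int.castRingHom ℚ) (RingHom.injective_int _) P, hPQ]
    exact minpoly.natDegree_le _
  have hGdeg : G.natDegree = P.natDegree := by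
    rw [hG, natDegree_comp, natDegree_C_mul_X _ (by exact_mod_cast hm0), mul_one]
  have hGlead : G.leadingCoeff = (m : ℤ) ^ P.natDegree := by
    rw [hG, leadingCoeff_comp (by rw [natDegree_C_mul_X _ (by exact_mod_cast hm0)]; norm_num), hPm.leadingCoeff,
      one_mul, leadingCoeff_C_mul_X]
  have hG0 : G ≠ 0 := by
    rw [← leadingCoeff_ne_zero, hGlead]
    exact pow_ne_zero _ (by exact_mod_cast hm0)
  have hGQ : minpoly ℚ y ∣ G.map (Int.castRingHom ℚ) := by
    apply minpoly.dvd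
    rw [← hGroot]
    exact aeval_map_algebraMap ℚ y G
  have hGQ0 : G.map (Int.castRingHom ℚ) ≠ 0 := (Polynomial.map_ne_zero_iff (RingHom.injective_int _)).2 hG0
  have hdG : Module.finrank ℚ K ≤ G.natDegree := by
    have := natDegree_le_of_dvd hGQ hGQ0
    rw [hmin, natDegree_map_eq_of_injective (RingHom.injective_int _)] at this
    exact this
  have hPd : P.natDegree = Module.finrank ℚ K := by omega
  have hGd : G.natDegree = Module.finrank ℚ K := by omega
  have hyint : IsIntegral ℚ y := Algebra.IsIntegral.isIntegral y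
  have key : ∀ F : ℤ[X], aeval y F = 0 → F.natDegree = Module.finrank ℚ K →
      F.map (Int.castRingHom ℚ) = C (F.leadingCoeff : ℚ) * minpoly ℚ y := by
    intro F hF hFd
    have h1 : minpoly ℚ y ∣ F.map (Int.castRingHom ℚ) := by
      apply minpoly.dvd
      rw [← hF]
      exact aeval_map_algebraMap ℚ y F
    obtain ⟨R, hR⟩ := h1
    rcases eq_or_ne F 0 with h0 | h0
    · rw [h0]; simp
    have hFQ0 : F.map (Int.castRingHom ℚ) ≠ 0 := (Polynomial.map_ne_zero_iff (RingHom.injective_int _)).2 h0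
    have hR0 : R ≠ 0 := by
      rintro rfl
      rw [mul_zero] at hR
      exact hFQ0 hR
    have hRd : R.natDegree = 0 := by
      have h2 := congrArg natDegree hR
      rw [natDegree_mul (minpoly.ne_zero hyint) hR0, hmin,
        natDegree_map_eq_of_injective (RingHom.injective_int _), hFd] at h2
      omega
    rw [natDegree_eq_zero] at hRd
    obtain ⟨r, rfl⟩ := hRd
    have h3 := congrArg leadingCoeff hR
    rw [leadingCoeff_map_of_injective (RingHom.injective_int _), leadingCoeff_mul, (minpoly.monic hyint).leadingCoeff,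
      one_mul, leadingCoeff_C] at h3
    rw [hR, mul_comm, ← h3]
    rfl
  have e1 := key g hroot hdeg
  have e2 := key G hGroot hGd
  have e3 : C g.leadingCoeff * G = C ((m : ℤ) ^ P.natDegree) * g := by
    apply map_injective (Int.castRingHom ℚ) (RingHom.injective_int _)
    rw [Polynomial.map_mul, Polynomial.map_mul, e1, e2, hGlead, Polynomial.map_C, Polynomial.map_C]
    simp only [eq_intCast]
    ring
  have hpI : Prime (p : ℤ) := Nat.prime_iff_prime_int.1 hp
  have hdiv : C (p : ℤ) ∣ g := by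
    rw [C_dvd_iff_dvd_coeff]
    intro i
    have h1 := congrArg (fun F => coeff F i) e3
    simp only [coeff_C_mul] at h1
    have h2 : (p : ℤ) ∣ (m : ℤ) ^ P.natDegree * g.coeff i := by
      rw [← h1]; exact hdvd.mul_right _
    rcases hpI.dvd_or_dvd h2 with h3 | h3
    · exfalso
      apply hpm
      exact_mod_cast hpI.dvd_of_dvd_pow h3
    · exact h3
  exact hpI.not_isUnit (hg _ hdiv)

theorem Loc_gen_inv {x : K} (h : (minpoly ℚ x).natDegree = Module.finrank ℚ K) :
    (minpoly ℚ x⁻¹).natDegree = Module.finrank ℚ K := by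
  rw [← Field.primitive_element_iff_minpoly_natDegree_eq] at h ⊢
  rw [eq_top_iff, ← h, IntermediateField.adjoin_simple_le_iff]
  have := IntermediateField.mem_adjoin_simple_self ℚ (x⁻¹)
  have h2 := inv_mem this
  rwa [inv_inv] at h2

theorem Loc_gen_sub {x : K} (h : (minpoly ℚ x).natDegree = Module.finrank ℚ K) :
    (minpoly ℚ (x - 1)).natDegree = Module.finrank ℚ K := by
  rw [← Field.primitive_element_iff_minpoly_natDegree_eq] at h ⊢
  rw [eq_top_iff, ← h, IntermediateField.adjoin_simple_le_iff]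
  have := IntermediateField.mem_adjoin_simple_self ℚ (x - 1)
  have h2 := add_mem this (one_mem _)
  rwa [sub_add_cancel] at h2

theorem Loc_Prim_min {x : K} {f : ℤ[X]} (hf : Prim x f) : (minpoly ℚ x).natDegree = Module.finrank ℚ K := by
  have h1 := congrArg natDegree hf.eq
  rw [natDegree_map_eq_of_injective (RingHom.injective_int _), natDegree_C_mul (by
    have := hf.lead
    exact_mod_cast this.ne'), hf.deg] at h1
  exact h1.symm

theorem Loc_Prim_root {x : K} {f : ℤ[X]} (hf : Prim x f) : aeval x f = 0 := by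
  have h1 := aeval_map_algebraMap ℚ x f
  rw [← h1]
  have h2 : f.map (algebraMap ℤ ℚ) = f.map (Int.castRingHom ℚ) := rfl
  rw [h2, hf.eq, map_mul, minpoly.aeval, mul_zero]

/-- A prime dividing the leading coefficient lies under a pole of `x`. -/
theorem lead_prime {x : K} {f : ℤ[X]} (hf : Prim x f) (hx0 : x ≠ 0) {p : ℕ} (hp : p.Prime)
    (hdvd : (p : ℤ) ∣ f.leadingCoeff) :
    ∃ v : HeightOneSpectrum (𝓞 K), (p : 𝓞 K) ∈ v.asIdeal ∧ FinitePlace.mk v x⁻¹ < 1 := by
  by_contra hc
  push Not at hc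
  refine Loc_core hp ?_ hf.prim (Loc_Prim_root hf) hf.deg (Loc_Prim_min hf) hdvd
  intro v hv
  apply Loc_mk_le_one hx0
  have h1 := hc v hv
  rw [mk_inv] at h1
  exact (one_le_inv₀ (FinitePlace.pos_iff.2 hx0)).1 h1

/-- A prime dividing the constant coefficient lies under a zero of `x`. -/
theorem const_prime {x : K} {f : ℤ[X]} (hf : Prim x f) (hx0 : x ≠ 0) {p : ℕ} (hp : p.Prime)
    (hdvd : (p : ℤ) ∣ f.coeff 0) :
    ∃ v : HeightOneSpectrum (𝓞 K), (p : 𝓞 K) ∈ v.asIdeal ∧ FinitePlace.mk v x < 1 := by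
  by_contra hc
  push Not at hc
  have hf0 : f ≠ 0 := by
    rintro rfl
    have := hf.lead
    simp at this
  have hc0 : f.coeff 0 ≠ 0 := by
    intro h0
    have h1 := congrArg (fun F => coeff F 0) hf.eq
    simp only [coeff_map, coeff_C_mul, h0, map_zero] at h1
    have h2 : (f.leadingCoeff : ℚ) ≠ 0 := by
      have := hf.lead
      exact_mod_cast this.ne'
    have h3 : (minpoly ℚ x).coeff 0 = 0 := by
      rcases mul_eq_zero.1 h1.symm with h | h
      · exact absurd h h2
      · exact h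
    exact hx0 ((minpoly.coeff_zero_eq_zero (Algebra.IsIntegral.isIntegral x)).1 h3)
  have hrd : f.reverse.natDegree = f.natDegree := by
    rw [reverse_natDegree, natTrailingDegree_eq_zero.2 (Or.inr hc0), Nat.sub_zero]
  have hrl : f.reverse.leadingCoeff = f.coeff 0 := by
    rw [reverse_leadingCoeff, trailingCoeff, natTrailingDegree_eq_zero.2 (Or.inr hc0)]
  have hrp : f.reverse.IsPrimitive := by
    intro r hr
    apply hf.prim r
    rw [C_dvd_iff_dvd_coeff] at hr ⊢
    intro i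
    rcases le_or_gt i f.natDegree with h1 | h1
    · have h2 := hr (f.natDegree - i)
      rw [coeff_reverse, revAt_le (by omega)] at h2
      rwa [show f.natDegree - (f.natDegree - i) = i by omega] at h2
    · rw [coeff_eq_zero_of_natDegree_lt h1]
      exact dvd_zero _
  have hroot : aeval x⁻¹ f.reverse = 0 := by
    let _ : Invertible x := invertibleOfNonzero hx0
    have h1 := (eval₂_reverse_eq_zero_iff (algebraMap ℤ K) x f).2 (Loc_Prim_root hf)
    rwa [invOf_eq_inv] at h1
  refine Loc_core hp ?_ hrp hroot (hrd.trans hf.deg) (Loc_gen_inv (Loc_Prim_min hf)) (by rw [hrl]; exact hdvd)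
  intro v hv
  apply Loc_mk_le_one (inv_ne_zero hx0)
  have h1 := hc v hv
  rw [mk_inv]
  exact inv_le_one_of_one_le₀ h1

/-- the shifted polynomial -/
theorem Loc_Prim_sub {x : K} {f : ℤ[X]} (hf : Prim x f) : Prim (x - 1) (f.comp (X + 1)) := by
  have hd1 : (X + 1 : ℤ[X]).natDegree = 1 := by
    rw [← C_1, natDegree_X_add_C]
  have hl1 : (X + 1 : ℤ[X]).leadingCoeff = 1 := by
    rw [← C_1, leadingCoeff_X_add_C]
  have hlc : (f.comp (X + 1)).leadingCoeff = f.leadingCoeff := by
    rw [leadingCoeff_comp (by rw [hd1]; norm_num), hl1, one_pow, mul_one]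
  have hdg : (f.comp (X + 1)).natDegree = f.natDegree := by
    rw [natDegree_comp, hd1, mul_one]
  have hpr : (f.comp (X + 1)).IsPrimitive := by
    intro r hr
    apply hf.prim r
    obtain ⟨g, hg⟩ := hr
    refine ⟨g.comp (X - 1), ?_⟩
    have h1 := congrArg (fun F => F.comp (X - 1 : ℤ[X])) hg
    simp only [comp_assoc] at h1
    have h2 : (X + 1 : ℤ[X]).comp (X - 1) = X := by simp
    rw [h2, comp_X] at h1
    rw [h1, mul_comp, C_comp]
  refine ⟨hpr, by rw [hlc]; exact hf.lead, ?_, by rw [hdg, hf.deg]⟩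
  have hmin := Loc_gen_sub (Loc_Prim_min hf)
  have hxi : IsIntegral ℚ (x - 1) := Algebra.IsIntegral.isIntegral _
  have hroot : aeval (x - 1) ((f.comp (X + 1)).map (Int.castRingHom ℚ)) = 0 := by
    have h1 := aeval_map_algebraMap ℚ (x - 1) (f.comp (X + 1))
    have h2 : (f.comp (X + 1)).map (algebraMap ℤ ℚ) = (f.comp (X + 1)).map (Int.castRingHom ℚ) := rfl
    rw [h2] at h1
    rw [h1, aeval_comp]
    have h3 : aeval (x - 1) (X + 1 : ℤ[X]) = x := by simp
    rw [h3]
    exact Loc_Prim_root hf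
  obtain ⟨R, hR⟩ := minpoly.dvd ℚ (x - 1) hroot
  have hf0 : f ≠ 0 := by
    rintro rfl
    have := hf.lead
    simp at this
  have hg0 : f.comp (X + 1) ≠ 0 := by
    rw [← leadingCoeff_ne_zero, hlc]
    exact hf.lead.ne'
  have hFQ0 : (f.comp (X + 1)).map (Int.castRingHom ℚ) ≠ 0 :=
    (Polynomial.map_ne_zero_iff (RingHom.injective_int _)).2 hg0
  have hR0 : R ≠ 0 := by
    rintro rfl
    rw [mul_zero] at hR
    exact hFQ0 hR
  have hRd : R.natDegree = 0 := by
    have h2 := congrArg natDegree hR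
    rw [natDegree_mul (minpoly.ne_zero hxi) hR0, hmin,
      natDegree_map_eq_of_injective (RingHom.injective_int _), hdg, hf.deg] at h2
    omega
  rw [natDegree_eq_zero] at hRd
  obtain ⟨r, rfl⟩ := hRd
  have h3 := congrArg leadingCoeff hR
  rw [leadingCoeff_map_of_injective (RingHom.injective_int _), leadingCoeff_mul, (minpoly.monic hxi).leadingCoeff,
    one_mul, leadingCoeff_C] at h3
  rw [hR, mul_comm, ← h3]
  rfl

/-- A prime dividing `f(1)` lies under a zero of `x - 1`. -/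
theorem one_prime {x : K} {f : ℤ[X]} (hf : Prim x f) (hx1 : x ≠ 1) {p : ℕ} (hp : p.Prime)
    (hdvd : (p : ℤ) ∣ f.eval 1) :
    ∃ v : HeightOneSpectrum (𝓞 K), (p : 𝓞 K) ∈ v.asIdeal ∧ FinitePlace.mk v (x - 1) < 1 := by
  apply const_prime (Loc_Prim_sub hf) (sub_ne_zero.2 hx1) hp
  rw [coeff_zero_eq_eval_zero, eval_comp]
  simpa using hdvd

theorem Loc_le_norm {v : HeightOneSpectrum (𝓞 K)} {p : ℕ} (hp : p.Prime) (h : (p : 𝓞 K) ∈ v.asIdeal) :
    (p : ℝ) ≤ Ideal.absNorm v.asIdeal := by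
  have h1 : Ideal.absNorm v.asIdeal ∣ Ideal.absNorm (Ideal.span {(p : 𝓞 K)}) := by
    apply Ideal.absNorm_dvd_absNorm_of_le
    rwa [Ideal.span_singleton_le_iff_mem]
  have h2 : Ideal.absNorm (Ideal.span {(p : 𝓞 K)}) = p ^ Module.finrank ℤ (𝓞 K) := by
    rw [Ideal.absNorm_span_singleton]
    have : (p : 𝓞 K) = algebraMap ℤ (𝓞 K) p := by simp
    rw [this, Algebra.norm_algebraMap]
    simp
  rw [h2] at h1
  obtain ⟨k, hk, hk2⟩ := (Nat.dvd_prime_pow hp).1 h1
  have h3 := one_lt_norm v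
  have hk0 : k ≠ 0 := by
    rintro rfl
    rw [hk2] at h3
    norm_num at h3
  rw [hk2]
  exact_mod_cast Nat.le_self_pow hk0 p

/-- The radical of `n` is bounded by the conductor of `y` if every prime dividing `n` lies under
a zero of `y`. -/
theorem rad_le_cnd {y : K} (hy : y ≠ 0) {n : ℕ}
    (h : ∀ p : ℕ, p.Prime → p ∣ n → ∃ v : HeightOneSpectrum (𝓞 K), (p : 𝓞 K) ∈ v.asIdeal ∧
      FinitePlace.mk v y < 1) :
    Real.log (rad n : ℝ) ≤ cnd y := by
  classical
  rcases (isEmpty_or_nonempty (HeightOneSpectrum (𝓞 K))) with hE | hE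
  · have : n.primeFactors = ∅ := by
      rw [Finset.eq_empty_iff_forall_notMem]
      intro p hp
      obtain ⟨v, _⟩ := h p (Nat.prime_of_mem_primeFactors hp) (Nat.dvd_of_mem_primeFactors hp)
      exact hE.elim v
    unfold rad
    rw [this]
    simp
    exact cnd_nonneg y
  have h' : ∀ p : ℕ, ∃ v : HeightOneSpectrum (𝓞 K), p ∈ n.primeFactors → (p : 𝓞 K) ∈ v.asIdeal ∧
      FinitePlace.mk v y < 1 := by
    intro p
    by_cases hp : p ∈ n.primeFactors
    · obtain ⟨v, hv⟩ := h p (Nat.prime_of_mem_primeFactors hp) (Nat.dvd_of_mem_primeFactors hp)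
      exact ⟨v, fun _ => hv⟩
    · exact ⟨hE.some, fun h => absurd h hp⟩
  choose v hv using h'
  have hinj : Set.InjOn v (n.primeFactors : Set ℕ) := by
    intro p hp q hq hpq
    by_contra hne
    have h1 := (hv p hp).1
    have h2 := (hv q hq).1
    rw [← hpq] at h2
    have hpp := Nat.prime_of_mem_primeFactors hp
    have hqp := Nat.prime_of_mem_primeFactors hq
    have hc : IsCoprime (p : ℤ) (q : ℤ) := Nat.isCoprime_iff_coprime.2 ((Nat.coprime_primes hpp hqp).2 hne)
    obtain ⟨a, b, hab⟩ := hc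
    apply (v p).isPrime.ne_top
    rw [Ideal.eq_top_iff_one]
    have h3 : (1 : 𝓞 K) = (a : 𝓞 K) * (p : 𝓞 K) + (b : 𝓞 K) * (q : 𝓞 K) := by
      have := congrArg (fun z : ℤ => (z : 𝓞 K)) hab
      push_cast at this
      exact this.symm
    rw [h3]
    exact Ideal.add_mem _ (Ideal.mul_mem_left _ _ h1) (Ideal.mul_mem_left _ _ h2)
  unfold rad cnd
  push_cast
  rw [Real.log_prod (fun p hp => by exact_mod_cast (Nat.prime_of_mem_primeFactors hp).ne_zero)]
  calc ∑ p ∈ n.primeFactors, Real.log (p : ℝ)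
      ≤ ∑ p ∈ n.primeFactors, (fun w : HeightOneSpectrum (𝓞 K) =>
        (if FinitePlace.mk w y < 1 then Real.log (Ideal.absNorm w.asIdeal : ℝ) else 0)) (v p) := by
        apply Finset.sum_le_sum
        intro p hp
        obtain ⟨h1, h2⟩ := hv p hp
        simp only [h2, if_true]
        apply Real.log_le_log
        · exact_mod_cast (Nat.prime_of_mem_primeFactors hp).pos
        · exact Loc_le_norm (Nat.prime_of_mem_primeFactors hp) h1
    _ = ∑ w ∈ n.primeFactors.image v, (if FinitePlace.mk w y < 1 then Real.log (Ideal.absNorm w.asIdeal : ℝ) else 0) := by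
        rw [Finset.sum_image hinj]
    _ ≤ _ := sum_le_finsum' (finite_support_cnd hy) (cnd_term_nonneg y) _

theorem Loc_rad_pos (n : ℕ) : 0 < rad n := by
  unfold rad
  exact Finset.prod_pos (fun p hp => (Nat.prime_of_mem_primeFactors hp).pos)

/-- The product of the three radicals. -/
theorem rad_prod_le {x : K} {f : ℤ[X]} (hf : Prim x f) (hx0 : x ≠ 0) (hx1 : x ≠ 1) :
    ((rad f.leadingCoeff.natAbs * rad (f.coeff 0).natAbs * rad (f.eval 1).natAbs : ℕ) : ℝ) ≤
      Real.exp (cnd x + cnd x⁻¹ + cnd (x - 1)) := by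
  have h1 : Real.log (rad f.leadingCoeff.natAbs : ℝ) ≤ cnd x⁻¹ :=
    rad_le_cnd (inv_ne_zero hx0) (fun p hp hd => lead_prime hf hx0 hp (Int.natCast_dvd.2 hd))
  have h2 : Real.log (rad (f.coeff 0).natAbs : ℝ) ≤ cnd x :=
    rad_le_cnd hx0 (fun p hp hd => const_prime hf hx0 hp (Int.natCast_dvd.2 hd))
  have h3 : Real.log (rad (f.eval 1).natAbs : ℝ) ≤ cnd (x - 1) :=
    rad_le_cnd (sub_ne_zero.2 hx1) (fun p hp hd => one_prime hf hx1 hp (Int.natCast_dvd.2 hd))
  have p1 : (0 : ℝ) < rad f.leadingCoeff.natAbs := by exact_mod_cast Loc_rad_pos _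
  have p2 : (0 : ℝ) < rad (f.coeff 0).natAbs := by exact_mod_cast Loc_rad_pos _
  have p3 : (0 : ℝ) < rad (f.eval 1).natAbs := by exact_mod_cast Loc_rad_pos _
  push_cast
  rw [← Real.log_le_iff_le_exp (by positivity), Real.log_mul (by positivity) p3.ne', Real.log_mul p1.ne' p2.ne']
  linarith

end Pool.Agent.UDC
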