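import Mathlib
import Pool.Agent.UDC.Defs
import Pool.Agent.UDC.Arch

/-! # Module Unit (UDC)
Paper proof.  `minpoly_eq`: monic irreducible with root `x`.  `x` is integral and `x · (-(F - 1)/X)(x) = 1`, so `x` is a unit of `𝓞 K`: `mk_eq_one`.
`hgt_eq_mahler`: all finite terms vanish; `arch_eq`.
`cnd_sub_one_le`: `1 - x ∈ 𝓞 K` has norm `F(1) = r 3^l ≠ 0` (`Algebra.norm_eq_...`: norm of `1 - x` is `± ` the constant coefficient of the charpoly of `x - 1`, or
`Algebra.charpoly`/`minpoly` evaluated at 1).  Let `I' = ∏ v` over the `v ∣ (x-1)`, `3 ∉ v`, `I₃ = ∏ v` over the `v ∣ (x-1)`, `3 ∈ v`.  `I' ∣ (x-1)`, so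
`absNorm I' ∣ r 3^l`, and `absNorm I'` is coprime to 3 (every `N(v)` is a power of the prime under `v`), so `absNorm I' ∣ r`, `≤ r`.
`I₃ ∣ (3)`, so `absNorm I₃ ≤ 3^d`.  `cnd(x-1) = log absNorm I' + log absNorm I₃`.
`unit_viol`: `x ≠ 0, 1`; `cnd x = cnd x⁻¹ = 0`; `|F(1)| = ∏ |1 - z| ≤ ∏ 2 max(1,|z|) = 2^d M(F)`, so `hgt x ≥ log(r 3^l) - d log 2`.
`hgt_le`: `mahlerMeasure_le_sum_norm_coeff`. -/

namespace Pool.Agent.UDC

open NumberField IsDedekindDomain Polynomial Pool.Agent.H7.Abc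

variable {K : Type*} [Field K] [NumberField K]

/-- `F` is monic irreducible over `ℚ` with integral coefficients, `F(0) = 1`, and `x` is a root
of `F` generating `K`. -/
structure URoot (x : K) (F : ℤ[X]) : Prop where
  monic : F.Monic
  irr : Irreducible (F.map (Int.castRingHom ℚ))
  deg : F.natDegree = Module.finrank ℚ K
  two : 2 ≤ F.natDegree
  coeff : F.coeff 0 = 1
  root : aeval x F = 0

theorem minpoly_eq {x : K} {F : ℤ[X]} (h : URoot x F) :
    minpoly ℚ x = F.map (Int.castRingHom ℚ) := by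
  symm
  apply minpoly.eq_of_irreducible_of_monic h.irr
  · rw [show Int.castRingHom ℚ = algebraMap ℤ ℚ from rfl, aeval_map_algebraMap, h.root]
  · exact h.monic.map _

private theorem Unit_natDegree {x : K} {F : ℤ[X]} (h : URoot x F) :
    (minpoly ℚ x).natDegree = Module.finrank ℚ K := by
  rw [minpoly_eq h, h.monic.natDegree_map, h.deg]

private theorem Unit_isIntegral {x : K} {F : ℤ[X]} (h : URoot x F) : IsIntegral ℤ x :=
  ⟨F, h.monic, by rw [← aeval_def]; exact h.root⟩

private theorem Unit_ne_zero {x : K} {F : ℤ[X]} (h : URoot x F) : x ≠ 0 := by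
  intro h0
  have := h.root
  rw [h0, ← coeff_zero_eq_aeval_zero', h.coeff] at this
  simp at this

private theorem Unit_ne_one {x : K} {F : ℤ[X]} (h : URoot x F) : x ≠ 1 := by
  intro h1
  have h2 := Unit_natDegree h
  have h3 := h.two
  rw [h.deg, ← h2, h1, minpoly.one, ← C_1, natDegree_X_sub_C] at h3
  omega

private theorem Unit_inv {x : K} {F : ℤ[X]} (h : URoot x F) :
    x⁻¹ = - aeval x (divX F) := by
  have h1 := h.root
  rw [← divX_mul_X_add F, h.coeff] at h1
  simp only [map_add, map_mul, aeval_X, map_one] at h1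
  have hx := Unit_ne_zero h
  field_simp
  linear_combination h1

omit [NumberField K] in
private theorem Unit_lift {x : K} (hx : IsIntegral ℤ x) : ∃ y : 𝓞 K, algebraMap (𝓞 K) K y = x :=
  ⟨⟨x, hx⟩, rfl⟩

private theorem Unit_isIntegral_inv {x : K} {F : ℤ[X]} (h : URoot x F) : IsIntegral ℤ x⁻¹ := by
  rw [Unit_inv h]
  apply IsIntegral.neg
  obtain ⟨y, rfl⟩ := Unit_lift (Unit_isIntegral h)
  rw [aeval_algebraMap_apply]
  exact RingOfIntegers.isIntegral_coe _

private theorem Unit_mk_le_one (v : HeightOneSpectrum (𝓞 K)) {x : K} (hx : IsIntegral ℤ x) :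
    FinitePlace.mk v x ≤ 1 := by
  rw [FinitePlace.mk_apply]
  obtain ⟨y, rfl⟩ := Unit_lift hx
  exact FinitePlace.norm_le_one K v y

theorem mk_eq_one {x : K} {F : ℤ[X]} (h : URoot x F) (v : HeightOneSpectrum (𝓞 K)) :
    FinitePlace.mk v x = 1 := by
  apply le_antisymm (Unit_mk_le_one v (Unit_isIntegral h))
  have h1 := Unit_mk_le_one v (Unit_isIntegral_inv h)
  rw [mk_inv] at h1
  have hpos : 0 < FinitePlace.mk v x := FinitePlace.pos_iff.2 (Unit_ne_zero h)
  exact (inv_le_one₀ hpos).1 h1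

theorem hgt_eq_mahler {x : K} {F : ℤ[X]} (h : URoot x F) :
    hgt x = Real.log (F.map (Int.castRingHom ℂ)).mahlerMeasure := by
  unfold hgt
  have h1 : ∑ᶠ v : HeightOneSpectrum (𝓞 K), Real.log (max 1 (FinitePlace.mk v x)) = 0 := by
    rw [← finsum_zero (α := HeightOneSpectrum (𝓞 K)) (M := ℝ)]
    refine finsum_congr fun v => ?_
    rw [mk_eq_one h v]
    simp
  rw [h1, add_zero, arch_eq x (Unit_natDegree h), minpoly_eq h, Polynomial.map_map]
  congr 3

private theorem Unit_norm {x : K} {F : ℤ[X]} (h : URoot x F) {y : 𝓞 K}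
    (hy : algebraMap (𝓞 K) K y = x - 1) :
    (Algebra.norm ℤ y).natAbs = (F.eval 1).natAbs := by
  have hint : IsIntegral ℚ (x - 1) := Algebra.IsIntegral.isIntegral _
  have hmin : minpoly ℚ (x - 1) = (minpoly ℚ x).comp (X + C 1) := by
    have := minpoly.sub_algebraMap x (1 : ℚ)
    rwa [map_one] at this
  have hdeg : (minpoly ℚ (x - 1)).natDegree = Module.finrank ℚ K := by
    rw [hmin, natDegree_comp, natDegree_X_add_C, mul_one, Unit_natDegree h]
  have htop : IntermediateField.adjoin ℚ {x - 1} = ⊤ :=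
    (Field.primitive_element_iff_minpoly_natDegree_eq ℚ (x - 1)).2 hdeg
  have htop' : Algebra.adjoin ℚ {x - 1} = ⊤ := by
    rw [← IntermediateField.adjoin_simple_toSubalgebra_of_isAlgebraic
      (IsAlgebraic.of_finite ℚ (x - 1)), htop]
    rfl
  let pb := PowerBasis.ofAdjoinEqTop hint htop'
  have hgen : pb.gen = x - 1 := PowerBasis.ofAdjoinEqTop_gen hint htop'
  have h2 := Algebra.PowerBasis.norm_gen_eq_coeff_zero_minpoly pb
  rw [hgen, hmin, minpoly_eq h] at h2
  have h3 : ((F.map (Int.castRingHom ℚ)).comp (X + C 1)).coeff 0 = ((F.eval 1 : ℤ) : ℚ) := by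
    rw [coeff_zero_eq_eval_zero, eval_comp]
    simp [eval_map]
  rw [h3] at h2
  have h4 : ((Algebra.norm ℤ y : ℤ) : ℚ) = Algebra.norm ℚ (x - 1) := by
    rw [Algebra.coe_norm_int]
    exact congrArg _ hy
  rw [h2] at h4
  have h5 : (Algebra.norm ℤ y : ℤ) = (-1) ^ pb.dim * F.eval 1 := by
    exact_mod_cast h4
  rw [h5, Int.natAbs_mul, Int.natAbs_pow]
  simp

/-- A product of distinct height one primes dividing an ideal divides it. -/
private theorem Unit_prod_dvd (S : Finset (HeightOneSpectrum (𝓞 K))) (I : Ideal (𝓞 K))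
    (hS : ∀ v ∈ S, v.asIdeal ∣ I) : ∏ v ∈ S, v.asIdeal ∣ I := by
  classical
  have hinj : Set.InjOn (fun v : HeightOneSpectrum (𝓞 K) => v.asIdeal) S := by
    intro v _ w _ h
    exact HeightOneSpectrum.ext h
  have h1 : ∏ v ∈ S, v.asIdeal = ∏ J ∈ S.image (fun v : HeightOneSpectrum (𝓞 K) => v.asIdeal), J := by
    rw [Finset.prod_image hinj]
  rw [h1]
  apply Finset.prod_primes_dvd
  · intro J hJ
    obtain ⟨v, _, rfl⟩ := Finset.mem_image.1 hJ
    exact v.prime
  · intro J hJ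
    obtain ⟨v, hv, rfl⟩ := Finset.mem_image.1 hJ
    exact hS v hv

/-- If `3` divides the norm of `v` then `3 ∈ v`. -/
private theorem Unit_three_mem (v : HeightOneSpectrum (𝓞 K)) (h3 : 3 ∣ Ideal.absNorm v.asIdeal) :
    (3 : 𝓞 K) ∈ v.asIdeal := by
  have : Fact (Nat.Prime 3) := ⟨Nat.prime_three⟩
  have := v.isPrime
  have hgt1 := NumberField.HeightOneSpectrum.one_lt_absNorm v
  rw [Ideal.absNorm_apply, Submodule.cardQuot_apply] at h3 hgt1
  have : Finite (𝓞 K ⧸ v.asIdeal) := Nat.finite_of_card_ne_zero (by omega)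
  obtain ⟨a, ha⟩ := exists_prime_addOrderOf_dvd_card' 3 h3
  have ha0 : a ≠ 0 := by
    intro h
    rw [h, addOrderOf_zero] at ha
    omega
  have h4 : (3 : 𝓞 K ⧸ v.asIdeal) * a = 0 := by
    have := addOrderOf_nsmul_eq_zero a
    rw [ha, nsmul_eq_mul] at this
    exact_mod_cast this
  rcases mul_eq_zero.1 h4 with h5 | h5
  · rw [← Ideal.Quotient.eq_zero_iff_mem]
    exact_mod_cast h5
  · exact absurd h5 ha0

/-- `cnd (x - 1)` for `F(1) = r 3^l`, `3 ∤ r`. -/
theorem cnd_sub_one_le {x : K} {F : ℤ[X]} (h : URoot x F) {r l : ℕ} (hr : ¬ 3 ∣ r)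
    (h1 : F.eval 1 = (r : ℤ) * 3 ^ l) :
    cnd (x - 1) ≤ Real.log r + Module.finrank ℚ K * Real.log 3 := by
  classical
  have hx1 : x - 1 ≠ 0 := sub_ne_zero.2 (Unit_ne_one h)
  have hint1 : IsIntegral ℤ (x - 1) := (Unit_isIntegral h).sub isIntegral_one
  obtain ⟨y, hy⟩ := Unit_lift hint1
  have hy0 : y ≠ 0 := by
    intro h0
    rw [h0, map_zero] at hy
    exact hx1 hy.symm
  have hr0 : 0 < r := Nat.pos_of_ne_zero (fun h0 => hr (by rw [h0]; exact dvd_zero 3))
  have hnorm : Ideal.absNorm (Ideal.span {y}) = r * 3 ^ l := by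
    rw [Ideal.absNorm_span_singleton, Unit_norm h hy, h1]
    rw [Int.natAbs_mul, Int.natAbs_pow]
    simp
  have hmem : ∀ v : HeightOneSpectrum (𝓞 K), FinitePlace.mk v (x - 1) < 1 ↔ y ∈ v.asIdeal := by
    intro v
    rw [FinitePlace.mk_apply, ← hy]
    exact FinitePlace.norm_lt_one_iff_mem K v y
  set S : Finset (HeightOneSpectrum (𝓞 K)) := (finite_support_cnd hx1).toFinset with hS
  have hcnd : cnd (x - 1) = ∑ v ∈ S, Real.log (Ideal.absNorm v.asIdeal : ℝ) := by
    unfold cnd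
    rw [finsum_eq_sum_of_support_subset (s := S) _ (by rw [hS, Set.Finite.coe_toFinset])]
    refine Finset.sum_congr rfl fun v hv => ?_
    rw [hS, Set.Finite.mem_toFinset, Function.mem_support] at hv
    split_ifs with hlt
    · rfl
    · rw [if_neg hlt] at hv
      exact absurd rfl hv
  have hSmem : ∀ v ∈ S, y ∈ v.asIdeal := by
    intro v hv
    rw [hS, Set.Finite.mem_toFinset, Function.mem_support] at hv
    by_contra hn
    rw [if_neg (fun hlt => hn ((hmem v).1 hlt))] at hv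
    exact hv rfl
  set S3 := S.filter (fun v => (3 : 𝓞 K) ∈ v.asIdeal) with hS3
  set S' := S.filter (fun v => ¬ (3 : 𝓞 K) ∈ v.asIdeal) with hS'
  have hsplit : ∑ v ∈ S, Real.log (Ideal.absNorm v.asIdeal : ℝ) =
      ∑ v ∈ S3, Real.log (Ideal.absNorm v.asIdeal : ℝ) +
      ∑ v ∈ S', Real.log (Ideal.absNorm v.asIdeal : ℝ) := by
    rw [hS3, hS', Finset.sum_filter_add_sum_filter_not]
  have hlog : ∀ T : Finset (HeightOneSpectrum (𝓞 K)),
      ∑ v ∈ T, Real.log (Ideal.absNorm v.asIdeal : ℝ) =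
        Real.log (Ideal.absNorm (∏ v ∈ T, v.asIdeal) : ℝ) := by
    intro T
    rw [map_prod, Nat.cast_prod, Real.log_prod]
    intro v _
    have := one_lt_norm v
    positivity
  have hpos : ∀ T : Finset (HeightOneSpectrum (𝓞 K)),
      0 < Ideal.absNorm (∏ v ∈ T, v.asIdeal) := by
    intro T
    rw [map_prod]
    apply Finset.prod_pos
    intro v _
    have := NumberField.HeightOneSpectrum.one_lt_absNorm v
    omega
  -- the part above 3
  have hI3 : Ideal.absNorm (∏ v ∈ S3, v.asIdeal) ≤ 3 ^ Module.finrank ℚ K := by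
    have hdvd : ∏ v ∈ S3, v.asIdeal ∣ Ideal.span {(3 : 𝓞 K)} := by
      apply Unit_prod_dvd
      intro v hv
      rw [Ideal.dvd_span_singleton]
      exact (Finset.mem_filter.1 hv).2
    have h2 := Ideal.absNorm_dvd_absNorm_of_le (Ideal.le_of_dvd hdvd)
    have h3 : Ideal.absNorm (Ideal.span {(3 : 𝓞 K)}) = 3 ^ Module.finrank ℚ K := by
      rw [Ideal.absNorm_span_singleton]
      have := Algebra.norm_natCast ℤ (S := 𝓞 K) 3
      rw [RingOfIntegers.rank] at this
      have h4 : Algebra.norm ℤ (3 : 𝓞 K) = 3 ^ Module.finrank ℚ K := by exact_mod_cast this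
      rw [h4, Int.natAbs_pow]
      rfl
    rw [h3] at h2
    exact Nat.le_of_dvd (by positivity) h2
  -- the part prime to 3
  have hI' : Ideal.absNorm (∏ v ∈ S', v.asIdeal) ≤ r := by
    have hdvd : ∏ v ∈ S', v.asIdeal ∣ Ideal.span {y} := by
      apply Unit_prod_dvd
      intro v hv
      rw [Ideal.dvd_span_singleton]
      exact hSmem v (Finset.mem_filter.1 hv).1
    have h2 := Ideal.absNorm_dvd_absNorm_of_le (Ideal.le_of_dvd hdvd)
    rw [hnorm] at h2
    have hcop : Nat.Coprime (Ideal.absNorm (∏ v ∈ S', v.asIdeal)) (3 ^ l) := by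
      apply Nat.Coprime.pow_right
      rw [Nat.coprime_comm, Nat.Prime.coprime_iff_not_dvd Nat.prime_three, map_prod]
      intro h3
      obtain ⟨v, hv, hv3⟩ := (Nat.prime_three.prime.dvd_finsetProd_iff _).1 h3
      exact (Finset.mem_filter.1 hv).2 (Unit_three_mem v hv3)
    exact Nat.le_of_dvd hr0 (hcop.dvd_of_dvd_mul_right h2)
  rw [hcnd, hsplit, hlog, hlog, add_comm]
  apply add_le_add
  · apply Real.log_le_log
    · exact_mod_cast hpos S'
    · exact_mod_cast hI'
  · rw [← Real.log_pow]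
    apply Real.log_le_log
    · exact_mod_cast hpos S3
    · exact_mod_cast hI3

/-- A violator. -/
theorem unit_viol {x : K} {F : ℤ[X]} (h : URoot x F) {r l : ℕ} (hr : ¬ 3 ∣ r)
    (h1 : F.eval 1 = (r : ℤ) * 3 ^ l) {κ : ℝ} (hκ : 1 ≤ κ)
    (hlt : κ * (Real.log r + Module.finrank ℚ K * Real.log 3 + Module.finrank ℚ K) <
      Real.log ((r : ℝ) * 3 ^ l) - Module.finrank ℚ K * Real.log 2) :
    Viol κ x := by
  refine ⟨Unit_ne_zero h, Unit_ne_one h, ?_⟩
  have hr0 : 0 < r := Nat.pos_of_ne_zero (fun h0 => hr (by rw [h0]; exact dvd_zero 3))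
  have c0 : ∀ z : K, (∀ v : HeightOneSpectrum (𝓞 K), FinitePlace.mk v z = 1) → cnd z = 0 := by
    intro z hz
    unfold cnd
    apply finsum_eq_zero_of_forall_eq_zero
    intro v
    rw [hz v, if_neg (lt_irrefl _)]
  have cx : cnd x = 0 := c0 x (mk_eq_one h)
  have cxi : cnd x⁻¹ = 0 := by
    apply c0
    intro v
    rw [mk_inv, mk_eq_one h v, inv_one]
  rw [cx, cxi, zero_add, zero_add, hgt_eq_mahler h]
  have hc := cnd_sub_one_le h hr h1
  set G : ℂ[X] := F.map (Int.castRingHom ℂ) with hG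
  have hGd : G.natDegree = Module.finrank ℚ K := by
    rw [hG, h.monic.natDegree_map, h.deg]
  have hG0 : G ≠ 0 := (h.monic.map _).ne_zero
  have hM : 0 < G.mahlerMeasure := mahlerMeasure_pos_of_ne_zero hG0
  have heval : G.eval 1 = ((F.eval 1 : ℤ) : ℂ) := by
    rw [hG, eval_map]
    simp
  have hnormG : ‖G.eval 1‖ = (r : ℝ) * 3 ^ l := by
    rw [heval, h1]
    push_cast
    rw [norm_mul, norm_pow]
    simp
  have hle : ‖G.eval 1‖ ≤ 2 ^ Module.finrank ℚ K * G.mahlerMeasure := by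
    rw [eval_eq_sum_range]
    calc ‖∑ i ∈ Finset.range (G.natDegree + 1), G.coeff i * 1 ^ i‖
        ≤ ∑ i ∈ Finset.range (G.natDegree + 1), ‖G.coeff i * 1 ^ i‖ := norm_sum_le _ _
      _ ≤ ∑ i ∈ Finset.range (G.natDegree + 1), (G.natDegree.choose i : ℝ) * G.mahlerMeasure := by
          apply Finset.sum_le_sum
          intro i _
          rw [one_pow, mul_one]
          exact norm_coeff_le_choose_mul_mahlerMeasure i G
      _ = 2 ^ Module.finrank ℚ K * G.mahlerMeasure := by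
          rw [← Finset.sum_mul, ← hGd]
          congr 1
          exact_mod_cast Nat.sum_range_choose G.natDegree
  rw [hnormG] at hle
  have hlog : Real.log ((r : ℝ) * 3 ^ l) ≤
      Module.finrank ℚ K * Real.log 2 + Real.log G.mahlerMeasure := by
    rw [← Real.log_pow, ← Real.log_mul (by positivity) hM.ne']
    apply Real.log_le_log (by positivity) hle
  have h5 : κ * (cnd (x - 1) + Module.finrank ℚ K) ≤
      κ * (Real.log r + Module.finrank ℚ K * Real.log 3 + Module.finrank ℚ K) := by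
    apply mul_le_mul_of_nonneg_left _ (by linarith)
    linarith
  linarith

theorem hgt_le {x : K} {F : ℤ[X]} (h : URoot x F) :
    hgt x ≤ Real.log (∑ j ∈ Finset.range (F.natDegree + 1), (|F.coeff j| : ℝ)) := by
  rw [hgt_eq_mahler h]
  have hG0 : F.map (Int.castRingHom ℂ) ≠ 0 := (h.monic.map _).ne_zero
  apply Real.log_le_log (mahlerMeasure_pos_of_ne_zero hG0)
  refine (mahlerMeasure_le_sum_norm_coeff _).trans ?_
  rw [sum_over_range _ (fun n => norm_zero), h.monic.natDegree_map]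
  apply le_of_eq
  refine Finset.sum_congr rfl fun j _ => ?_
  rw [coeff_map]
  simp

end Pool.Agent.UDC
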