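import Mathlib
import Pool.Agent.UDC.Defs

/-! # Module UnitCount (UDC)
Paper proof (uniformity in `K` is the point).  The set is finite by Northcott (`NumberField.finite_setOfPred_logHeight₁_le`, `hgt_eq`).
Let `Φ x = (w ↦ ⌊log (w x)⌋)`; `|log (w x)| ≤ hgt x ≤ X` (`abs_log_le_hgt`), so `Φ` takes at most `(2X+4)^(#places) ≤ (2X+4)^d` values
(`#places ≤ d`).  If `Φ x = Φ y` then `u = x/y` is a unit of `𝓞 K` with `|log (w u)| ≤ 1`, so `‖φ u‖ ≤ e` for all embeddings `φ`.
The number of such `u` is bounded in terms of `d` only: `minpoly ℤ u` has degree `≤ d` and coefficients bounded by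
`max e 1 ^ d * d.choose (d/2)` (`NumberField.Embeddings.coeff_bdd_of_norm_le`, see also the proof of `Embeddings.finite_of_norm_le`), so it is one of at most
`(2B+1)^(d+1)` polynomials, each with at most `d` roots in `K`.  (Integrality of `u`: all finite absolute values are `1`;
`HeightOneSpectrum.mem_integers_of_valuation_le_one`.)  Same scheme as `card_small_le` in H7/Abc/Count. -/

namespace Pool.Agent.UDC

open NumberField IsDedekindDomain Polynomial Pool.Agent.H7.Abc

/-- The units (elements with all finite absolute values equal to `1`) of height at most `X`. -/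
def units (K : Type*) [Field K] [NumberField K] (X : ℝ) : Set K :=
  {x : K | x ≠ 0 ∧ (∀ v : HeightOneSpectrum (𝓞 K), FinitePlace.mk v x = 1) ∧ hgt x ≤ X}

/-- A uniform bound for the number of algebraic integers of degree at most `d` with bounded
conjugates. -/
theorem int_count (d : ℕ) (R : ℝ) : ∃ N : ℕ, ∀ (K : Type) [Field K] [NumberField K],
    Module.finrank ℚ K = d → ∀ S : Finset K,
      (∀ x ∈ S, IsIntegral ℤ x ∧ ∀ φ : K →+* ℂ, ‖φ x‖ ≤ R) → S.card ≤ N := by
  classical
  set M : ℕ := Nat.ceil (max R 1 ^ d * d.choose (d / 2)) with hM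
  refine ⟨d * (Fintype.piFinset (fun _ : Fin (d + 1) => Finset.Icc (-(M : ℤ)) M)).card, ?_⟩
  intro K _ _ hd S hS
  set g : K → (Fin (d + 1) → ℤ) := fun x i => (minpoly ℤ x).coeff i with hg
  have hdeg : ∀ x ∈ S, (minpoly ℤ x).natDegree ≤ d := by
    intro x hx
    have h := minpoly.isIntegrallyClosed_eq_field_fractions' ℚ (hS x hx).1
    rw [← (minpoly.monic (hS x hx).1).natDegree_map (algebraMap ℤ ℚ), ← h, ← hd]
    exact minpoly.natDegree_le x
  have hcoef : ∀ x ∈ S, ∀ i, (minpoly ℤ x).coeff i ∈ Finset.Icc (-(M : ℤ)) M := by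
    intro x hx i
    have h := minpoly.isIntegrallyClosed_eq_field_fractions' ℚ (hS x hx).1
    rw [Finset.mem_Icc, ← abs_le, ← @Int.cast_le ℝ]
    have h2 := Embeddings.coeff_bdd_of_norm_le (hS x hx).2 i
    rw [hd] at h2
    refine (Eq.trans_le ?_ h2).trans (Nat.le_ceil _)
    rw [h, coeff_map, eq_intCast, Int.norm_cast_rat, Int.norm_eq_abs, Int.cast_abs]
  have himg : S.image g ⊆ Fintype.piFinset (fun _ : Fin (d + 1) => Finset.Icc (-(M : ℤ)) M) := by
    intro b hb
    obtain ⟨x, hx, rfl⟩ := Finset.mem_image.1 hb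
    rw [Fintype.mem_piFinset]
    exact fun i => hcoef x hx i
  have hfib : ∀ b ∈ S.image g, (S.filter (fun x => g x = b)).card ≤ d := by
    intro b hb
    obtain ⟨y, hy, rfl⟩ := Finset.mem_image.1 hb
    have hmp : ∀ x ∈ S, g x = g y → minpoly ℤ x = minpoly ℤ y := by
      intro x hx hxy
      ext n
      rcases Nat.lt_or_ge n (d + 1) with hn | hn
      · exact congrFun hxy ⟨n, hn⟩
      · rw [coeff_eq_zero_of_natDegree_lt (by have := hdeg x hx; omega),
          coeff_eq_zero_of_natDegree_lt (by have := hdeg y hy; omega)]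
    have hsub : S.filter (fun x => g x = g y) ⊆ ((minpoly ℤ y).aroots K).toFinset := by
      intro x hx
      rw [Finset.mem_filter] at hx
      rw [Multiset.mem_toFinset, mem_aroots, ← hmp x hx.1 hx.2]
      exact ⟨minpoly.ne_zero (hS x hx.1).1, minpoly.aeval ℤ x⟩
    refine (Finset.card_le_card hsub).trans ?_
    refine (Multiset.toFinset_card_le _).trans ?_
    refine (Polynomial.card_roots' _).trans ?_
    refine (natDegree_map_le).trans (hdeg y hy)
  have h1 := Finset.card_le_mul_card_image S d hfib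
  exact h1.trans (Nat.mul_le_mul_left _ (Finset.card_le_card himg))

theorem isIntegral_of_mk {K : Type*} [Field K] [NumberField K] {x : K} (hx : x ≠ 0)
    (h : ∀ v : HeightOneSpectrum (𝓞 K), FinitePlace.mk v x = 1) : IsIntegral ℤ x := by
  have h2 : ∀ v : HeightOneSpectrum (𝓞 K), v.valuation K x ≤ 1 := by
    intro v
    have h3 := (ord_eq_zero_iff v hx).2 (h v)
    have hv : v.valuation K x ≠ 0 := (Valuation.ne_zero_iff _).2 hx
    unfold ord at h3
    rw [← WithZero.log_le_log hv one_ne_zero, WithZero.log_one]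
    omega
  obtain ⟨y, rfl⟩ := HeightOneSpectrum.mem_integers_of_valuation_le_one K x h2
  exact RingOfIntegers.isIntegral_coe y

theorem card_places_le (K : Type*) [Field K] [NumberField K] :
    Fintype.card (InfinitePlace K) ≤ Module.finrank ℚ K := by
  rw [← InfinitePlace.sum_mult_eq (K := K), Fintype.card_eq_sum_ones]
  exact Finset.sum_le_sum fun w _ => w.mult_pos

/-- A bound for the number of units of bounded height, uniform in the field. -/
theorem unit_count (d : ℕ) : ∃ C : ℝ, 0 < C ∧ ∀ (K : Type) [Field K] [NumberField K],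
    Module.finrank ℚ K = d → ∀ X : ℝ, 0 ≤ X →
      (units K X).Finite ∧ ((units K X).ncard : ℝ) ≤ C * (X + 1) ^ d := by
  classical
  obtain ⟨N, hN⟩ := int_count d (Real.exp 1)
  refine ⟨(N : ℝ) * 4 ^ d + 1, by positivity, fun K _ _ hd X hX => ?_⟩
  have hfin : (units K X).Finite := by
    refine (NumberField.finite_setOfPred_logHeight₁_le K X).subset ?_
    rintro x ⟨-, -, h⟩
    rw [hgt_eq] at h
    exact h
  refine ⟨hfin, ?_⟩
  set T : Finset K := hfin.toFinset with hT
  have hmem : ∀ x, x ∈ T ↔ x ∈ units K X := fun x => by rw [hT, Set.Finite.mem_toFinset]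
  have hcard : (units K X).ncard = T.card := by
    rw [hT, Set.ncard_eq_toFinset_card _ hfin]
  rw [hcard]
  set Φ : K → (InfinitePlace K → ℤ) := fun x w => ⌊Real.log (w x)⌋ with hΦ
  have hfib : ∀ b ∈ T.image Φ, (T.filter (fun x => Φ x = b)).card ≤ N := by
    intro b hb
    obtain ⟨y, hy, rfl⟩ := Finset.mem_image.1 hb
    have hyU := (hmem y).1 hy
    have hy0 : y ≠ 0 := hyU.1
    rw [← Finset.card_image_of_injOn (s := T.filter (fun x => Φ x = Φ y)) (f := fun x => x / y)
      (by
        intro x _ x' _ h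
        simpa [div_left_inj' hy0] using h)]
    apply hN K hd
    intro u hu
    obtain ⟨x, hx, rfl⟩ := Finset.mem_image.1 hu
    rw [Finset.mem_filter] at hx
    have hxU := (hmem x).1 hx.1
    have hx0 : x ≠ 0 := hxU.1
    refine ⟨isIntegral_of_mk (div_ne_zero hx0 hy0) fun v => ?_, fun φ => ?_⟩
    · rw [map_div₀, hxU.2.1 v, hyU.2.1 v, div_one]
    · have h1 : ⌊Real.log (InfinitePlace.mk φ x)⌋ = ⌊Real.log (InfinitePlace.mk φ y)⌋ :=
        congrFun hx.2 (InfinitePlace.mk φ)
      have h2 := (Int.abs_sub_lt_one_of_floor_eq_floor h1).le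
      have hwx : 0 < InfinitePlace.mk φ x := InfinitePlace.pos_iff.2 hx0
      have hwy : 0 < InfinitePlace.mk φ y := InfinitePlace.pos_iff.2 hy0
      have h3 : Real.log (InfinitePlace.mk φ (x / y)) ≤ 1 := by
        rw [map_div₀, Real.log_div hwx.ne' hwy.ne']
        exact (abs_le.1 h2).2
      have h4 : InfinitePlace.mk φ (x / y) = ‖φ (x / y)‖ := InfinitePlace.apply φ _
      rw [← h4]
      have h5 : 0 < InfinitePlace.mk φ (x / y) := InfinitePlace.pos_iff.2 (div_ne_zero hx0 hy0)
      rw [← Real.exp_log h5]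
      exact Real.exp_le_exp.2 h3
  have h1 := Finset.card_le_mul_card_image T N hfib
  have h2 : (T.image Φ).card ≤
      (Fintype.piFinset (fun _ : InfinitePlace K => Finset.Icc (-⌈X⌉ - 1) ⌈X⌉)).card := by
    refine Finset.card_le_card ?_
    intro b hb
    obtain ⟨y, hy, rfl⟩ := Finset.mem_image.1 hb
    rw [Fintype.mem_piFinset]
    intro w
    have hyS := (hmem y).1 hy
    have h3 := abs_le.1 (le_trans (abs_log_le_hgt hyS.1 w) hyS.2.2)
    rw [Finset.mem_Icc]
    constructor
    · apply Int.le_floor.2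
      push_cast
      have := Int.le_ceil X
      linarith [h3.1]
    · have h4 : ((⌊Real.log (w y)⌋ : ℤ) : ℝ) ≤ ((⌈X⌉ : ℤ) : ℝ) :=
        le_trans (Int.floor_le _) (le_trans h3.2 (Int.le_ceil X))
      exact_mod_cast h4
  have h4 : ((Fintype.piFinset (fun _ : InfinitePlace K => Finset.Icc (-⌈X⌉ - 1) ⌈X⌉)).card : ℝ) ≤
      (2 * X + 4) ^ (Fintype.card (InfinitePlace K)) := by
    rw [Fintype.card_piFinset, Finset.prod_const, Finset.card_univ, Nat.cast_pow]
    refine pow_le_pow_left₀ (Nat.cast_nonneg _) ?_ _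
    rw [Int.card_Icc]
    have hc : (0 : ℤ) ≤ ⌈X⌉ := Int.ceil_nonneg hX
    have e1 : (((⌈X⌉ + 1 - (-⌈X⌉ - 1)).toNat : ℕ) : ℝ) = 2 * (⌈X⌉ : ℝ) + 2 := by
      have : ((⌈X⌉ + 1 - (-⌈X⌉ - 1)).toNat : ℤ) = 2 * ⌈X⌉ + 2 := by
        rw [Int.toNat_of_nonneg (by omega)]; ring
      exact_mod_cast this
    rw [e1]
    have := Int.ceil_lt_add_one X
    linarith
  have h5 : (2 * X + 4) ^ (Fintype.card (InfinitePlace K)) ≤ 4 ^ d * (X + 1) ^ d := by
    rw [← mul_pow]
    refine (pow_le_pow_right₀ (by linarith) (hd ▸ card_places_le K)).trans ?_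
    exact pow_le_pow_left₀ (by linarith) (by linarith) _
  have h6 : (T.card : ℝ) ≤ (N : ℝ) * (T.image Φ).card := by exact_mod_cast h1
  have h7 : ((T.image Φ).card : ℝ) ≤ 4 ^ d * (X + 1) ^ d :=
    (Nat.cast_le.2 h2).trans (h4.trans h5)
  have h8 : (0 : ℝ) ≤ (X + 1) ^ d := by positivity
  calc (T.card : ℝ) ≤ (N : ℝ) * (T.image Φ).card := h6
    _ ≤ (N : ℝ) * (4 ^ d * (X + 1) ^ d) := by gcongr
    _ ≤ ((N : ℝ) * 4 ^ d + 1) * (X + 1) ^ d := by nlinarith

end Pool.Agent.UDC
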