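import Mathlib
import Pool.Agent.UDC.Defs
import Pool.Agent.UDC.Arch
import Pool.Agent.UDC.Den
import Pool.Agent.UDC.Loc
import Pool.Agent.UDC.Cand

/-! # Module Upper (UDC)
Paper proof.  `exists_prim`: clear denominators and divide by the content (`IsLocalization.integerNormalization` / `primPart`), make the leading coefficient positive.
`mahler_le`: `log M(f) = log lc(f) + log M(minpoly) ≤ hgt x` by `lead_le` (Den) and `arch_eq` (Arch).
`upper`: for `F ∈ vset d κ L` with `x`, let `f` be its primitive integral multiple.  `|f.coeff j| ≤ binom(d,j) M(f) ≤ 2^d e^L`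
(`norm_coeff_le_choose_mul_mahlerMeasure`), `|f(1)| ≤ ∑_j |f.coeff j| ≤ 2^d e^L`, and by `rad_prod_le` (Loc) the product of radicals is
`≤ exp(cnd x + cnd x⁻¹ + cnd(x-1)) ≤ exp(L/κ)` (`Viol`).  So `f ∈ cand d B R`, `B = ⌊2^d e^L⌋`, `R = e^(L/κ)`, and `F = (lc f)⁻¹ f` is determined by `f`;
`f(0) ≠ 0`, `f(1) ≠ 0` since `x ≠ 0, 1` and `f` is irreducible over `ℚ` of degree `d ≥ 2`.
Apply `cand_card` with `ε/4` or so: `R^(1+ε') B^(d-2+ε') ≤ C e^{(1+ε')L/κ + (d-2+ε')L}`, `κ ≥ 1`. -/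

namespace Pool.Agent.UDC

open NumberField IsDedekindDomain Polynomial Pool.Agent.H7.Abc

/-- The minimal polynomials of the generators `x` of number fields of degree `d` with
`hgt x ≤ L` which violate the inequality with the constant `κ`. -/
def vset (d : ℕ) (κ L : ℝ) : Set ℚ[X] :=
  {F | ∃ (K : Type) (_ : Field K) (_ : NumberField K) (x : K),
    Module.finrank ℚ K = d ∧ minpoly ℚ x = F ∧ F.natDegree = d ∧ hgt x ≤ L ∧ Viol κ x}

theorem Upper_lc {f : ℤ[X]} {m : ℚ[X]} {c : ℚ} (hm : m.Monic)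
    (h : f.map (Int.castRingHom ℚ) = C c * m) : c = (f.leadingCoeff : ℚ) := by
  have h1 : (f.map (Int.castRingHom ℚ)).leadingCoeff = (f.leadingCoeff : ℚ) := by
    rw [leadingCoeff_map_of_injective (RingHom.injective_int _)]
    rfl
  rw [← h1, h, leadingCoeff_mul, leadingCoeff_C, hm.leadingCoeff, mul_one]

theorem exists_prim {K : Type*} [Field K] [NumberField K] (x : K)
    (hx : (minpoly ℚ x).natDegree = Module.finrank ℚ K) : ∃ f : ℤ[X], Prim x f := by
  have hint : IsIntegral ℚ x := IsIntegral.of_finite ℚ x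
  have hmon : (minpoly ℚ x).Monic := minpoly.monic hint
  have hm0 : minpoly ℚ x ≠ 0 := minpoly.ne_zero hint
  obtain ⟨b, hb⟩ := IsLocalization.integerNormalization_map_to_map (nonZeroDivisors ℤ) (minpoly ℚ x)
  set g : ℤ[X] := IsLocalization.integerNormalization (nonZeroDivisors ℤ) (minpoly ℚ x) with hg
  have hb0 : ((b : ℤ) : ℚ) ≠ 0 := by
    have := nonZeroDivisors.coe_ne_zero b
    exact_mod_cast this
  have hgm : g.map (Int.castRingHom ℚ) = C ((b : ℤ) : ℚ) * minpoly ℚ x := by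
    have : g.map (algebraMap ℤ ℚ) = ((b : ℤ)) • minpoly ℚ x := hb
    rw [show (Int.castRingHom ℚ) = algebraMap ℤ ℚ from rfl, this]
    rw [zsmul_eq_mul, ← C_eq_intCast]
  have hg0 : g ≠ 0 := by
    intro h0
    rw [h0, Polynomial.map_zero] at hgm
    exact (mul_ne_zero (C_ne_zero.2 hb0) hm0) hgm.symm
  set f0 := g.primPart with hf0
  have hc0 : g.content ≠ 0 := fun h => hg0 (content_eq_zero_iff.1 h)
  have hcq : (g.content : ℚ) ≠ 0 := by exact_mod_cast hc0
  have hfm : f0.map (Int.castRingHom ℚ) = C (((b : ℤ) : ℚ) / g.content) * minpoly ℚ x := by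
    have h1 : g.map (Int.castRingHom ℚ) = C (g.content : ℚ) * f0.map (Int.castRingHom ℚ) := by
      conv_lhs => rw [g.eq_C_content_mul_primPart]
      rw [Polynomial.map_mul, map_C]
      rfl
    have h2 : C (g.content : ℚ) * f0.map (Int.castRingHom ℚ) =
        C (g.content : ℚ) * (C (((b : ℤ) : ℚ) / g.content) * minpoly ℚ x) := by
      rw [← h1, hgm, ← mul_assoc, ← C_mul]
      congr 2
      field_simp
    exact mul_left_cancel₀ (C_ne_zero.2 hcq) h2
  have hlc := Upper_lc hmon hfm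
  have hf00 : f0.leadingCoeff ≠ 0 := by
    intro h0
    rw [h0] at hlc
    have : ((b : ℤ) : ℚ) / g.content ≠ 0 := div_ne_zero hb0 hcq
    exact this (by simpa using hlc)
  have hprim : f0.IsPrimitive := isPrimitive_primPart g
  have hdeg : f0.natDegree = Module.finrank ℚ K := by
    rw [← hx, ← natDegree_map_eq_of_injective (RingHom.injective_int (Int.castRingHom ℚ)) f0, hfm,
      natDegree_C_mul (div_ne_zero hb0 hcq)]
  rcases lt_or_gt_of_ne hf00 with hneg | hpos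
  · refine ⟨-f0, ?_, ?_, ?_, ?_⟩
    · intro r hr
      exact hprim r ((dvd_neg).1 hr)
    · rw [leadingCoeff_neg]; omega
    · rw [leadingCoeff_neg, Polynomial.map_neg, hfm, hlc]
      simp
    · rw [natDegree_neg, hdeg]
  · refine ⟨f0, hprim, hpos, ?_, hdeg⟩
    rw [hfm, hlc]

theorem Upper_map {K : Type*} [Field K] [NumberField K] {x : K} {f : ℤ[X]} (hf : Prim x f) :
    f.map (Int.castRingHom ℂ) = C (f.leadingCoeff : ℂ) * (minpoly ℚ x).map (algebraMap ℚ ℂ) := by
  have h := congrArg (fun g : ℚ[X] => g.map (algebraMap ℚ ℂ)) hf.eq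
  simp only [Polynomial.map_map, Polynomial.map_mul, map_C] at h
  have h2 : (algebraMap ℚ ℂ).comp (Int.castRingHom ℚ) = Int.castRingHom ℂ := by
    ext; simp
  rw [h2] at h
  rw [h]
  simp

theorem mahler_le {K : Type*} [Field K] [NumberField K] {x : K} {f : ℤ[X]} (hf : Prim x f)
    (hx0 : x ≠ 0) : (f.map (Int.castRingHom ℂ)).mahlerMeasure ≤ Real.exp (hgt x) := by
  have hint : IsIntegral ℚ x := IsIntegral.of_finite ℚ x
  have hm0 : minpoly ℚ x ≠ 0 := minpoly.ne_zero hint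
  have hinj : Function.Injective (Int.castRingHom ℚ) := RingHom.injective_int _
  have hdeg : (minpoly ℚ x).natDegree = Module.finrank ℚ K := by
    rw [← hf.deg, ← natDegree_map_eq_of_injective hinj f, hf.eq, natDegree_C_mul]
    have := hf.lead
    exact_mod_cast this.ne'
  have hlp : (0:ℝ) < f.leadingCoeff := by exact_mod_cast hf.lead
  have hMp : 0 < ((minpoly ℚ x).map (algebraMap ℚ ℂ)).mahlerMeasure := by
    apply mahlerMeasure_pos_of_ne_zero
    exact (Polynomial.map_ne_zero_iff (algebraMap ℚ ℂ).injective).2 hm0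
  rw [Upper_map hf, mahlerMeasure_mul, mahlerMeasure_const]
  have h1 : ‖(f.leadingCoeff : ℂ)‖ = (f.leadingCoeff : ℝ) := by
    rw [Complex.norm_intCast, abs_of_pos hlp]
  rw [h1]
  have h2 : (f.leadingCoeff : ℝ) = Real.exp (Real.log f.leadingCoeff) := (Real.exp_log hlp).symm
  have h3 : ((minpoly ℚ x).map (algebraMap ℚ ℂ)).mahlerMeasure =
      Real.exp (Real.log ((minpoly ℚ x).map (algebraMap ℚ ℂ)).mahlerMeasure) :=
    (Real.exp_log hMp).symm
  rw [h2, h3, ← Real.exp_add, Real.exp_le_exp, ← arch_eq x hdeg, hgt]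
  have h4 := lead_le hf hx0
  linarith

theorem Upper_coeff {K : Type*} [Field K] [NumberField K] {x : K} {f : ℤ[X]} (hf : Prim x f)
    (hx0 : x ≠ 0) {d : ℕ} (hd : f.natDegree = d) {L : ℝ} (hL : hgt x ≤ L) (j : ℕ) :
    ((|f.coeff j| : ℤ) : ℝ) ≤ d.choose j * Real.exp L := by
  have hM := mahler_le hf hx0
  have h1 := norm_coeff_le_choose_mul_mahlerMeasure j (f.map (Int.castRingHom ℂ))
  rw [natDegree_map_eq_of_injective (RingHom.injective_int _), hd, coeff_map] at h1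
  have h2 : ‖(Int.castRingHom ℂ) (f.coeff j)‖ = ((|f.coeff j| : ℤ) : ℝ) := by
    rw [eq_intCast, Complex.norm_intCast]
    push_cast
    rfl
  rw [h2] at h1
  refine h1.trans ?_
  have h3 : (f.map (Int.castRingHom ℂ)).mahlerMeasure ≤ Real.exp L :=
    hM.trans (Real.exp_le_exp.2 hL)
  gcongr

theorem upper (d : ℕ) (hd : 2 ≤ d) (ε : ℝ) (hε : 0 < ε) : ∃ C : ℝ, 0 < C ∧
    ∀ κ L : ℝ, 1 ≤ κ → 0 ≤ L → (vset d κ L).Finite ∧
      ((vset d κ L).ncard : ℝ) ≤ C * Real.exp (((d : ℝ) - 2 + 1 / κ + ε) * L) := by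
  classical
  obtain ⟨C₁, hC₁, hcand⟩ := cand_card d hd (ε / 2) (by positivity)
  have hd2 : (2:ℝ) ≤ d := by exact_mod_cast hd
  refine ⟨C₁ * ((2:ℝ) ^ d) ^ ((d:ℝ) - 2 + ε / 2), by positivity, fun κ L hκ hL => ?_⟩
  have hκ0 : 0 < κ := by linarith
  set Y : ℝ := (2:ℝ) ^ d * Real.exp L with hY
  have hY1 : 1 ≤ Y := by
    have h1 : (1:ℝ) ≤ (2:ℝ) ^ d := one_le_pow₀ (by norm_num)
    have h2 : (1:ℝ) ≤ Real.exp L := Real.one_le_exp hL
    calc (1:ℝ) = 1 * 1 := by norm_num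
      _ ≤ _ := by rw [hY]; gcongr
  set B : ℕ := ⌊Y⌋₊ with hB
  have hB1 : 1 ≤ B := Nat.one_le_floor_iff _ |>.2 hY1
  have hBY : (B : ℝ) ≤ Y := Nat.floor_le (by linarith)
  set R : ℝ := Real.exp (L / κ) with hR
  have hR0 : 0 ≤ R := (Real.exp_pos _).le
  obtain ⟨hfin, hcard⟩ := hcand B R hB1 hR0
  have hsub : vset d κ L ⊆ (fun f : ℤ[X] => C ((f.leadingCoeff : ℚ)⁻¹) * f.map (Int.castRingHom ℚ)) ''
      cand d B R := by
    rintro F ⟨K, _, _, x, hfr, hF, hdF, hht, hx0, hx1, hvi⟩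
    have hmd : (minpoly ℚ x).natDegree = Module.finrank ℚ K := by rw [hF, hdF, hfr]
    obtain ⟨f, hf⟩ := exists_prim x hmd
    have hfd : f.natDegree = d := by rw [hf.deg, hfr]
    have hlq : (f.leadingCoeff : ℚ) ≠ 0 := by
      have := hf.lead
      exact_mod_cast this.ne'
    have hbound : ∀ c : ℤ, ((|c| : ℤ) : ℝ) ≤ Y → |c| ≤ B := by
      intro c hc
      have h1 : ((|c|.toNat : ℕ) : ℝ) ≤ Y := by
        have h2 : ((|c|.toNat : ℕ) : ℝ) = ((|c| : ℤ) : ℝ) := by
          have : ((|c|.toNat : ℕ) : ℤ) = |c| := Int.toNat_of_nonneg (abs_nonneg c)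
          exact_mod_cast this
        rw [h2]; exact hc
      have h3 : |c|.toNat ≤ B := Nat.le_floor h1
      have h4 : ((|c|.toNat : ℕ) : ℤ) = |c| := Int.toNat_of_nonneg (abs_nonneg c)
      rw [← h4]
      exact_mod_cast h3
    have hco := Upper_coeff hf hx0 hfd hht
    refine ⟨f, ⟨hfd, hf.lead, ?_, ?_, ?_, ?_, ?_⟩, ?_⟩
    · intro j
      apply hbound
      refine (hco j).trans ?_
      have h5 : ((d.choose j : ℕ) : ℝ) ≤ (2:ℝ) ^ d := by
        exact_mod_cast Nat.choose_le_two_pow d j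
      rw [hY]
      gcongr
    · intro h0
      have h6 : (minpoly ℚ x).coeff 0 = 0 := by
        have h7 := congrArg (fun g : ℚ[X] => g.coeff 0) hf.eq
        simp only [coeff_map, coeff_C_mul, h0, map_zero] at h7
        exact (mul_eq_zero.1 h7.symm).resolve_left hlq
      exact hx0 ((minpoly.coeff_zero_eq_zero (IsIntegral.of_finite ℚ x)).1 h6)
    · intro h0
      have h6 : (minpoly ℚ x).eval 1 = 0 := by
        have h7 := congrArg (fun g : ℚ[X] => g.eval 1) hf.eq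
        simp only [eval_mul, eval_C] at h7
        have h8 : (f.map (Int.castRingHom ℚ)).eval 1 = ((f.eval 1 : ℤ) : ℚ) := by
          have := Polynomial.eval_map_apply (f := Int.castRingHom ℚ) (p := f) (1 : ℤ)
          simpa using this
        rw [h8, h0, Int.cast_zero] at h7
        exact (mul_eq_zero.1 h7.symm).resolve_left hlq
      have h9 := minpoly.root (IsIntegral.of_finite ℚ x) (y := (1:ℚ)) h6
      exact hx1 (by rw [← h9]; simp)
    · apply hbound
      have h6 : f.eval 1 = ∑ j ∈ Finset.range (d + 1), f.coeff j := by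
        rw [eval_eq_sum_range, hfd]
        simp
      rw [h6]
      have h7 : ((|∑ j ∈ Finset.range (d + 1), f.coeff j| : ℤ) : ℝ) ≤
          ∑ j ∈ Finset.range (d + 1), ((|f.coeff j| : ℤ) : ℝ) := by
        exact_mod_cast Finset.abs_sum_le_sum_abs _ _
      refine h7.trans ((Finset.sum_le_sum fun j _ => hco j).trans ?_)
      rw [← Finset.sum_mul, hY]
      have h8 : ∑ j ∈ Finset.range (d + 1), ((d.choose j : ℕ) : ℝ) = (2:ℝ) ^ d := by
        exact_mod_cast Nat.sum_range_choose d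
      rw [h8]
    · refine (rad_prod_le hf hx0 hx1).trans ?_
      rw [hR]
      apply Real.exp_le_exp.2
      rw [le_div_iff₀ hκ0]
      have h6 : (0:ℝ) ≤ Module.finrank ℚ K := Nat.cast_nonneg _
      nlinarith
    · show C ((f.leadingCoeff : ℚ)⁻¹) * f.map (Int.castRingHom ℚ) = F
      rw [hf.eq, hF, ← mul_assoc, ← C_mul, inv_mul_cancel₀ hlq, C_1, one_mul]
  refine ⟨(hfin.image _).subset hsub, ?_⟩
  have h1 : ((vset d κ L).ncard : ℝ) ≤ (cand d B R).ncard := by
    exact_mod_cast (Set.ncard_le_ncard hsub (hfin.image _)).trans (Set.ncard_image_le hfin)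
  refine h1.trans (hcard.trans ?_)
  have h2 : R ^ (1 + ε / 2) ≤ Real.exp ((1 / κ + ε / 2) * L) := by
    rw [hR, ← Real.exp_mul]
    apply Real.exp_le_exp.2
    have h3 : L / κ ≤ L := div_le_self hL hκ
    have h4 : L / κ = 1 / κ * L := by ring
    rw [h4] at h3 ⊢
    nlinarith
  have h3 : (B : ℝ) ^ ((d:ℝ) - 2 + ε / 2) ≤
      ((2:ℝ) ^ d) ^ ((d:ℝ) - 2 + ε / 2) * Real.exp (((d:ℝ) - 2 + ε / 2) * L) := by
    have hexp : 0 ≤ (d:ℝ) - 2 + ε / 2 := by linarith
    calc (B : ℝ) ^ ((d:ℝ) - 2 + ε / 2) ≤ Y ^ ((d:ℝ) - 2 + ε / 2) :=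
          Real.rpow_le_rpow (Nat.cast_nonneg _) hBY hexp
      _ = _ := by
          rw [hY, Real.mul_rpow (by positivity) (Real.exp_pos _).le, ← Real.exp_mul]
          congr 2
          ring
  calc C₁ * R ^ (1 + ε / 2) * (B : ℝ) ^ ((d:ℝ) - 2 + ε / 2)
      ≤ C₁ * Real.exp ((1 / κ + ε / 2) * L) *
        (((2:ℝ) ^ d) ^ ((d:ℝ) - 2 + ε / 2) * Real.exp (((d:ℝ) - 2 + ε / 2) * L)) := by
        gcongr
    _ = C₁ * ((2:ℝ) ^ d) ^ ((d:ℝ) - 2 + ε / 2) *
        (Real.exp ((1 / κ + ε / 2) * L) * Real.exp (((d:ℝ) - 2 + ε / 2) * L)) := by ring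
    _ = _ := by
        rw [← Real.exp_add]
        congr 2
        ring

end Pool.Agent.UDC
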