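import Mathlib
import Pool.Agent.UDC.Upper

/-! # Module UpC (UDC)
Paper proof.  If `z ∈ exc d κ L`, then `F = minpoly ℚ z = minpoly ℚ (gen) ∈ vset d κ L` and `z` is one of the at most `d` roots of `F`
(`F ≠ 0`, degree `d = finrank`, `IntermediateField.adjoin.finrank`).  So `exc d κ L ⊆ ⋃_{F ∈ vset} roots` and `ncard ≤ d · ncard vset`. -/

namespace Pool.Agent.UDC

open NumberField IsDedekindDomain Polynomial Pool.Agent.H7.Abc IntermediateField

/-- The algebraic numbers `z ∈ ℂ` of degree `d` with `hgt z ≤ L` which violate the inequality with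
the constant `κ` over the field `ℚ(z)`. -/
def exc (d : ℕ) (κ L : ℝ) : Set ℂ :=
  {z | ∃ (_ : NumberField ℚ⟮z⟯), Module.finrank ℚ ℚ⟮z⟯ = d ∧ hgt (AdjoinSimple.gen ℚ z) ≤ L ∧
    Viol κ (AdjoinSimple.gen ℚ z)}

theorem upper_exc (d : ℕ) (hd : 2 ≤ d) (ε : ℝ) (hε : 0 < ε) : ∃ C : ℝ, 0 < C ∧
    ∀ κ L : ℝ, 1 ≤ κ → 0 ≤ L → (exc d κ L).Finite ∧
      ((exc d κ L).ncard : ℝ) ≤ C * Real.exp (((d : ℝ) - 2 + 1 / κ + ε) * L) := by
  classical
  obtain ⟨C, hC, h⟩ := upper d hd ε hε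
  have hd0 : (0:ℝ) < d := by
    have : 0 < d := by omega
    exact_mod_cast this
  refine ⟨d * C, by positivity, fun κ L hκ hL => ?_⟩
  obtain ⟨hfin, hcard⟩ := h κ L hκ hL
  set U : Finset ℂ := hfin.toFinset.biUnion fun F => (F.map (algebraMap ℚ ℂ)).roots.toFinset with hU
  have hsub : exc d κ L ⊆ (U : Set ℂ) := by
    rintro z ⟨hNF, hfr, hht, hv⟩
    have hint0 : IsIntegral ℚ (AdjoinSimple.gen ℚ z) := IsIntegral.of_finite ℚ _
    have hint : IsIntegral ℚ z := (AdjoinSimple.isIntegral_gen ℚ z).1 hint0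
    have hmin : minpoly ℚ (AdjoinSimple.gen ℚ z) = minpoly ℚ z := minpoly_gen ℚ z
    have hdeg : (minpoly ℚ z).natDegree = d := by
      rw [← IntermediateField.adjoin.finrank hint, hfr]
    rw [hU]
    simp only [Finset.coe_biUnion, Set.mem_iUnion]
    refine ⟨minpoly ℚ z, ?_, ?_⟩
    · simp only [Finset.mem_coe, Set.Finite.mem_toFinset]
      exact ⟨ℚ⟮z⟯, inferInstance, hNF, AdjoinSimple.gen ℚ z, hfr, hmin, hdeg, hht, hv⟩
    · simp only [Finset.mem_coe, Multiset.mem_toFinset]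
      rw [mem_roots']
      refine ⟨?_, ?_⟩
      · exact (Polynomial.map_ne_zero_iff (algebraMap ℚ ℂ).injective).2 (minpoly.ne_zero hint)
      · rw [IsRoot, eval_map, ← aeval_def]
        exact minpoly.aeval ℚ z
  refine ⟨(Finset.finite_toSet U).subset hsub, ?_⟩
  have h1 : (exc d κ L).ncard ≤ U.card := by
    rw [← Set.ncard_coe_finset]
    exact Set.ncard_le_ncard hsub (Finset.finite_toSet U)
  have h2 : U.card ≤ hfin.toFinset.card * d := by
    refine Finset.card_biUnion_le_card_mul _ _ _ ?_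
    intro F hF
    rw [Set.Finite.mem_toFinset] at hF
    obtain ⟨K, _, _, x, -, -, hdF, -, -⟩ := hF
    calc _ ≤ Multiset.card (F.map (algebraMap ℚ ℂ)).roots := Multiset.toFinset_card_le _
      _ ≤ (F.map (algebraMap ℚ ℂ)).natDegree := card_roots' _
      _ ≤ F.natDegree := natDegree_map_le
      _ = d := hdF
  have h3 : hfin.toFinset.card = (vset d κ L).ncard := (Set.ncard_eq_toFinset_card _ hfin).symm
  have h4 : ((exc d κ L).ncard : ℝ) ≤ (vset d κ L).ncard * d := by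
    rw [← h3]
    exact_mod_cast h1.trans h2
  calc ((exc d κ L).ncard : ℝ) ≤ (vset d κ L).ncard * d := h4
    _ ≤ (C * Real.exp (((d : ℝ) - 2 + 1 / κ + ε) * L)) * d := by gcongr
    _ = _ := by ring

end Pool.Agent.UDC
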