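import Mathlib
import Pool.Agent.UDC.UpC
import Pool.Agent.UDC.Unit
import Pool.Agent.UDC.UnitCount
import Pool.Agent.UDC.Family

/-! # Module LowC (UDC)
Paper proof.  `lower_fields`: let `S` be the set of `family d κ`.  For `F ∈ S` choose a root `z_F ∈ ℂ`, `E_F = ℚ⟮z_F⟯`, a number field of degree `d`
(`F` irreducible over `ℚ`), and `x = gen`: `URoot x F`.  By `unit_viol` and `hgt_le`, `z_F ∈ exc d κ L`.  For a fixed `E` the map `F ↦ z_F` from
`{F ∈ S : E_F = E}` to `units E L` (`mk_eq_one`, `hgt_le`; transport `gen` along `E_F = E`) is injective (`F` is the minimal polynomial of `z_F`), so each fibre of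
`F ↦ E_F` has at most `C (L+1)^d` elements by `unit_count d`.  Hence `#S ≤ C (L+1)^d · #(fields)`; the set of fields is finite by `upper_exc`.
`large_discr`: otherwise the fields of `lower_fields` all lie in the finite set of `NumberField.finite_of_discr_bdd` (Hermite; `A = ℂ`), whose cardinality does not
depend on `L`; but the lower bound tends to infinity. -/

namespace Pool.Agent.UDC

open NumberField IsDedekindDomain Polynomial Pool.Agent.H7.Abc IntermediateField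

/-- The root of a member of the family, inside the field it generates. -/
theorem LowC_field {d : ℕ} {F : ℤ[X]} (hmon : F.Monic)
    (hirr : Irreducible (F.map (Int.castRingHom ℚ))) (hdeg : F.natDegree = d) {z : ℂ}
    (hz : aeval z F = 0) :
    minpoly ℚ z = F.map (Int.castRingHom ℚ) ∧ NumberField ℚ⟮z⟯ ∧ Module.finrank ℚ ℚ⟮z⟯ = d := by
  have h0 : aeval z (F.map (Int.castRingHom ℚ)) = 0 := by
    have : aeval z (F.map (algebraMap ℤ ℚ)) = aeval z F := aeval_map_algebraMap ℚ z F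
    rw [← this] at hz
    exact hz
  have hmin : minpoly ℚ z = F.map (Int.castRingHom ℚ) :=
    (minpoly.eq_of_irreducible_of_monic hirr h0 (hmon.map _)).symm
  have hint : IsIntegral ℚ z := ⟨F.map (Int.castRingHom ℚ), hmon.map _, h0⟩
  have hfr : Module.finrank ℚ ℚ⟮z⟯ = d := by
    rw [adjoin.finrank hint, hmin, hmon.natDegree_map, hdeg]
  have : FiniteDimensional ℚ ℚ⟮z⟯ := adjoin.finiteDimensional hint
  exact ⟨hmin, @NumberField.mk _ _ inferInstance this, hfr⟩

theorem LowC_uroot {F : ℤ[X]} (hmon : F.Monic)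
    (hirr : Irreducible (F.map (Int.castRingHom ℚ))) (hdeg : 2 ≤ F.natDegree)
    (h0 : F.coeff 0 = 1) {z : ℂ} (hz : aeval z F = 0)
    (hN : NumberField ℚ⟮z⟯) : URoot (AdjoinSimple.gen ℚ z) F := by
  have hf := LowC_field hmon hirr rfl hz
  refine ⟨hmon, hirr, hf.2.2.symm, hdeg, h0, ?_⟩
  have h1 : algebraMap ℚ⟮z⟯ ℂ (aeval (AdjoinSimple.gen ℚ z) F) = 0 := by
    rw [← aeval_algebraMap_apply, AdjoinSimple.algebraMap_gen]
    exact hz
  exact (map_eq_zero_iff _ (algebraMap ℚ⟮z⟯ ℂ).injective).1 h1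

theorem LowC_mem_units {F : ℤ[X]} {L : ℝ} (hmon : F.Monic)
    (hirr : Irreducible (F.map (Int.castRingHom ℚ))) (hdeg : 2 ≤ F.natDegree)
    (h0 : F.coeff 0 = 1) {z : ℂ} (hz : aeval z F = 0)
    (hsum : (∑ j ∈ Finset.range (F.natDegree + 1), (|F.coeff j| : ℝ)) ≤ Real.exp L)
    (E : IntermediateField ℚ ℂ) (hE : ℚ⟮z⟯ = E) [hN : NumberField E] :
    (⟨z, hE ▸ mem_adjoin_simple_self ℚ z⟩ : E) ∈ units E L := by
  subst hE
  have hU := LowC_uroot hmon hirr hdeg h0 hz hN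
  have hgen : (⟨z, mem_adjoin_simple_self ℚ z⟩ : ℚ⟮z⟯) = AdjoinSimple.gen ℚ z := rfl
  rw [hgen]
  have hpos : (0 : ℝ) < ∑ j ∈ Finset.range (F.natDegree + 1), (|F.coeff j| : ℝ) := by
    refine lt_of_lt_of_le ?_ (Finset.single_le_sum (f := fun j => (|F.coeff j| : ℝ))
      (fun j _ => abs_nonneg _) (Finset.mem_range.2 (Nat.succ_pos _)))
    simp [h0]
  refine ⟨?_, fun v => mk_eq_one hU v, ?_⟩
  · intro h
    have hr := hU.root
    rw [h] at hr
    rw [← coeff_zero_eq_aeval_zero', h0] at hr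
    simp at hr
  · refine le_trans (hgt_le hU) ?_
    have := Real.log_le_log hpos hsum
    rwa [Real.log_exp] at this

theorem LowC_exc {d : ℕ} {F : ℤ[X]} {κ L : ℝ} (hκ : 1 ≤ κ) (hmon : F.Monic)
    (hirr : Irreducible (F.map (Int.castRingHom ℚ))) (hd : 2 ≤ d) (hdeg : F.natDegree = d)
    (h0 : F.coeff 0 = 1)
    (hsum : (∑ j ∈ Finset.range (F.natDegree + 1), (|F.coeff j| : ℝ)) ≤ Real.exp L)
    {r l : ℕ} (hr : ¬ 3 ∣ r) (h1 : F.eval 1 = (r : ℤ) * 3 ^ l)
    (hlt : κ * (Real.log r + d * Real.log 3 + d) < Real.log ((r : ℝ) * 3 ^ l) - d * Real.log 2)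
    {z : ℂ} (hz : aeval z F = 0) : z ∈ exc d κ L := by
  obtain ⟨-, hN, hfr⟩ := LowC_field hmon hirr hdeg hz
  have hU := LowC_uroot hmon hirr (by omega) h0 hz hN
  refine ⟨hN, hfr, ?_, ?_⟩
  · have h := LowC_mem_units hmon hirr (by omega) h0 hz hsum ℚ⟮z⟯ rfl
    exact h.2.2
  · refine unit_viol hU hr h1 hκ ?_
    rw [hfr]
    exact hlt

/-- Many fields. -/
theorem lower_fields (d : ℕ) (hd : 2 ≤ d) (κ : ℝ) (hκ : 1 ≤ κ) : ∃ c L₀ : ℝ, 0 < c ∧
    ∀ L : ℝ, L₀ ≤ L → c * Real.exp (((d : ℝ) - 2 + 1 / κ) * L) / (L + 1) ^ d ≤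
      (((fun z : ℂ => ℚ⟮z⟯) '' exc d κ L).ncard : ℝ) := by
  classical
  obtain ⟨c, L₀, hc, hfam⟩ := family d hd κ hκ
  obtain ⟨C, hC, hcnt⟩ := unit_count d
  obtain ⟨C₁, _, hup⟩ := upper_exc d hd 1 one_pos
  refine ⟨c / C, max L₀ 0, by positivity, fun L hL => ?_⟩
  have hL0 : 0 ≤ L := le_trans (le_max_right _ _) hL
  obtain ⟨S, hScard, hS⟩ := hfam L (le_trans (le_max_left _ _) hL)
  have hfin : ((fun z : ℂ => ℚ⟮z⟯) '' exc d κ L).Finite := (hup κ L hκ hL0).1.image _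
  -- the roots
  have hroot : ∀ F : ℤ[X], ∃ z : ℂ, F ∈ S → aeval z F = 0 := by
    intro F
    by_cases hF : F ∈ S
    · obtain ⟨hmon, -, hdeg, -⟩ := hS F hF
      obtain ⟨z, hz⟩ := IsAlgClosed.exists_aeval_eq_zero ℂ F (by
        intro h
        have := natDegree_eq_zero_iff_degree_le_zero.2 h.le
        omega)
      exact ⟨z, fun _ => hz⟩
    · exact ⟨0, fun h => absurd h hF⟩
  choose z hz using hroot
  have hexc : ∀ F ∈ S, z F ∈ exc d κ L := by
    intro F hF
    obtain ⟨hmon, hirr, hdeg, h0, hsum, r, l, hr, h1, hlt⟩ := hS F hF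
    exact LowC_exc hκ hmon hirr hd hdeg h0 hsum hr h1 hlt (hz F hF)
  set T : Finset (IntermediateField ℚ ℂ) := hfin.toFinset with hT
  have hTcard : ((fun z : ℂ => ℚ⟮z⟯) '' exc d κ L).ncard = T.card := by
    rw [hT, Set.ncard_eq_toFinset_card _ hfin]
  have hmaps : ∀ F ∈ S, ℚ⟮z F⟯ ∈ T := by
    intro F hF
    rw [hT, Set.Finite.mem_toFinset]
    exact ⟨z F, hexc F hF, rfl⟩
  have hfib : ∀ E ∈ T, (((S.filter (fun F => ℚ⟮z F⟯ = E)).card : ℕ) : ℝ) ≤ C * (L + 1) ^ d := by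
    intro E hE
    rw [hT, Set.Finite.mem_toFinset] at hE
    obtain ⟨z₀, ⟨hN, hfr, -, -⟩, hzE⟩ := hE
    simp only at hzE
    subst hzE
    obtain ⟨hUfin, hUcard⟩ := hcnt ℚ⟮z₀⟯ hfr L hL0
    refine le_trans ?_ hUcard
    rw [Set.ncard_eq_toFinset_card _ hUfin]
    norm_cast
    refine Finset.card_le_card_of_injOn
      (fun F => if h : ℚ⟮z F⟯ = ℚ⟮z₀⟯ then ⟨z F, h ▸ mem_adjoin_simple_self ℚ (z F)⟩ else 0) ?_ ?_
    · intro F hF
      rw [Finset.mem_coe, Finset.mem_filter] at hF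
      rw [Finset.mem_coe, Set.Finite.mem_toFinset]
      simp only [dif_pos hF.2]
      obtain ⟨hmon, hirr, hdeg, h0, hsum, -⟩ := hS F hF.1
      exact LowC_mem_units hmon hirr (by omega) h0 (hz F hF.1) hsum ℚ⟮z₀⟯ hF.2
    · intro F hF G hG hFG
      rw [Finset.mem_coe, Finset.mem_filter] at hF hG
      simp only [dif_pos hF.2, dif_pos hG.2, Subtype.mk.injEq] at hFG
      obtain ⟨hmon, hirr, hdeg, -⟩ := hS F hF.1
      obtain ⟨hmon', hirr', hdeg', -⟩ := hS G hG.1
      have h1 := (LowC_field hmon hirr hdeg (hz F hF.1)).1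
      have h2 := (LowC_field hmon' hirr' hdeg' (hz G hG.1)).1
      rw [hFG, h2] at h1
      exact (map_injective _ (Int.cast_injective) h1).symm
  have hcard : (S.card : ℝ) ≤ C * (L + 1) ^ d * T.card := by
    rw [Finset.card_eq_sum_card_fiberwise (f := fun F => ℚ⟮z F⟯) (t := T) hmaps]
    push_cast
    refine le_trans (Finset.sum_le_sum hfib) ?_
    rw [Finset.sum_const, nsmul_eq_mul, mul_comm]
  rw [hTcard, div_le_iff₀ (by positivity)]
  have h3 : c / C * Real.exp (((d : ℝ) - 2 + 1 / κ) * L) =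
      (c * Real.exp (((d : ℝ) - 2 + 1 / κ) * L)) / C := by ring
  rw [h3, div_le_iff₀ hC]
  linarith [hScard, hcard]

/-- Violators in fields of degree `d` and arbitrarily large discriminant. -/
theorem large_discr (d : ℕ) (hd : 2 ≤ d) (κ : ℝ) (hκ : 1 ≤ κ) (D : ℕ) :
    ∃ (K : Type) (_ : Field K) (_ : NumberField K) (x : K),
      Module.finrank ℚ K = d ∧ (minpoly ℚ x).natDegree = d ∧ (D : ℤ) < |discr K| ∧ Viol κ x := by
  classical
  by_contra hcon
  push Not at hcon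
  obtain ⟨c, L₀, hc, hlow⟩ := lower_fields d hd κ hκ
  have hfin := NumberField.finite_of_discr_bdd ℂ D
  have hfin2 := hfin.image (fun E => E.1)
  set T := hfin2.toFinset with hT
  have hsub : ∀ L : ℝ, ((fun z : ℂ => ℚ⟮z⟯) '' exc d κ L) ⊆ (T : Set (IntermediateField ℚ ℂ)) := by
    rintro L _ ⟨z, ⟨hN, hfr, hgt, hV⟩, rfl⟩
    rw [hT, Set.Finite.coe_toFinset]
    have hfd : FiniteDimensional ℚ ℚ⟮z⟯ := hN.to_finiteDimensional
    refine ⟨⟨ℚ⟮z⟯, hfd⟩, ?_, rfl⟩
    simp only [Set.mem_ofPred_eq]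
    by_contra hlt
    push Not at hlt
    refine hcon ℚ⟮z⟯ _ hN (AdjoinSimple.gen ℚ z) hfr ?_ hlt hV
    have hint : IsIntegral ℚ z := by
      have h1 : IsIntegral ℚ (AdjoinSimple.gen ℚ z) := Algebra.IsIntegral.isIntegral _
      have h2 := h1.map (IntermediateField.val ℚ⟮z⟯)
      simpa using h2
    have hd' : (minpoly ℚ z).natDegree = d := by
      rw [← adjoin.finrank hint]
      exact hfr
    have he := minpoly.algebraMap_eq (A := ℚ) (algebraMap ℚ⟮z⟯ ℂ).injective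
      (AdjoinSimple.gen ℚ z)
    rw [AdjoinSimple.algebraMap_gen] at he
    rw [he] at hd'
    exact hd'
  have hbd : ∀ L : ℝ, L₀ ≤ L → c * Real.exp (((d : ℝ) - 2 + 1 / κ) * L) / (L + 1) ^ d ≤ T.card := by
    intro L hL
    refine le_trans (hlow L hL) ?_
    have := Set.ncard_le_ncard (hsub L) T.finite_toSet
    rw [Set.ncard_coe_finset] at this
    exact_mod_cast this
  have ha : (0 : ℝ) < (d : ℝ) - 2 + 1 / κ := by
    have h1 : (2 : ℝ) ≤ d := by exact_mod_cast hd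
    have h2 : (0 : ℝ) < 1 / κ := by positivity
    linarith
  have htend : Filter.Tendsto
      (fun L : ℝ => c * Real.exp (((d : ℝ) - 2 + 1 / κ) * L) / (L + 1) ^ d)
      Filter.atTop Filter.atTop := by
    set a := (d : ℝ) - 2 + 1 / κ with ha'
    have h1 := tendsto_exp_mul_div_rpow_atTop (d : ℝ) a ha
    have h2 : Filter.Tendsto (fun L : ℝ => L + 1) Filter.atTop Filter.atTop :=
      Filter.tendsto_atTop_add_const_right _ _ Filter.tendsto_id
    have h3 := (h1.comp h2).const_mul_atTop (show 0 < c * Real.exp (-a) by positivity)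
    refine h3.congr fun L => ?_
    simp only [Function.comp]
    rw [Real.rpow_natCast]
    have : Real.exp (a * (L + 1)) = Real.exp (a * L) * Real.exp a := by
      rw [← Real.exp_add]; congr 1; ring
    rw [this, Real.exp_neg]
    field_simp
  obtain ⟨L, hL, hL2⟩ := ((Filter.tendsto_atTop.1 htend ((T.card : ℝ) + 1)).and
    (Filter.eventually_ge_atTop L₀)).exists
  have := hbd L hL2
  linarith

end Pool.Agent.UDC
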