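import Mathlib
import Pool.Agent.UDC.UpC

/-! # Module Quad (UDC): quadratic fields -/

namespace Pool.Agent.UDC

open NumberField IsDedekindDomain Polynomial Pool.Agent.H7.Abc IntermediateField

/-- The quadratic subfields of `ℂ` of discriminant at most `X` in absolute value. -/
def quad (X : ℝ) : Set (IntermediateField ℚ ℂ) :=
  {E | ∃ (_ : NumberField E), Module.finrank ℚ E = 2 ∧ ((|discr E| : ℤ) : ℝ) ≤ X}

theorem quad_finite (X : ℝ) : (quad X).Finite := by
  have hfin := NumberField.finite_of_discr_bdd ℂ ⌊X⌋₊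
  refine (hfin.image (fun E => E.1)).subset ?_
  rintro E ⟨hN, -, hX⟩
  have hfd : FiniteDimensional ℚ E := hN.to_finiteDimensional
  refine ⟨⟨E, hfd⟩, ?_, rfl⟩
  simp only [Set.mem_ofPred_eq]
  have h0 : (0 : ℝ) ≤ X := le_trans (by exact_mod_cast abs_nonneg _) hX
  have h1 : (((|discr E|).toNat : ℕ) : ℝ) ≤ X := by
    have : (((|discr E|).toNat : ℤ) : ℝ) = ((|discr E| : ℤ) : ℝ) := by
      rw [Int.toNat_of_nonneg (abs_nonneg _)]
    push_cast at this ⊢
    rw [this]; exact_mod_cast hX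
  have h2 := Nat.le_floor h1
  have h3 : |discr E| = ((|discr E|).toNat : ℤ) := (Int.toNat_of_nonneg (abs_nonneg _)).symm
  rw [h3]
  exact_mod_cast h2

/-- The square root of `m`. -/
noncomputable def rt (m : ℕ) : ℂ := ((Real.sqrt m : ℝ) : ℂ)

theorem rt_sq (m : ℕ) : rt m ^ 2 = m := by
  unfold rt
  rw [← Complex.ofReal_pow, Real.sq_sqrt (Nat.cast_nonneg m)]
  simp

theorem rt_minpoly {m : ℕ} (hm : Squarefree m) (h2 : 2 ≤ m) :
    minpoly ℚ (rt m) = X ^ 2 - C (m : ℚ) := by
  symm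
  have hdeg : (X ^ 2 - C (m : ℚ)).natDegree = 2 := natDegree_X_pow_sub_C
  have hmon : (X ^ 2 - C (m : ℚ)).Monic := monic_X_pow_sub_C _ (by norm_num)
  refine minpoly.eq_of_irreducible_of_monic ?_ ?_ hmon
  · rw [hmon.irreducible_iff_roots_eq_zero_of_degree_le_three (by omega) (by omega)]
    rw [Multiset.eq_zero_iff_forall_notMem]
    intro r hr
    rw [mem_roots hmon.ne_zero, IsRoot.def] at hr
    simp only [eval_sub, eval_pow, eval_X, eval_C] at hr
    have hr2 : r ^ 2 = (m : ℚ) := by linarith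
    have hirr : Irrational (Real.sqrt (m : ℝ)) := by
      rw [irrational_sqrt_natCast_iff]
      rintro ⟨k, hk⟩
      have : k * k ∣ m := ⟨1, by rw [hk]; ring⟩
      have := hm k this
      have : k = 1 := Nat.isUnit_iff.1 this
      subst this
      omega
    apply hirr
    refine ⟨|r|, ?_⟩
    have h3 : ((m : ℕ) : ℝ) = ((r : ℝ)) ^ 2 := by
      have := congrArg (fun q : ℚ => (q : ℝ)) hr2
      push_cast at this
      exact this.symm
    rw [h3, Real.sqrt_sq_eq_abs]
    push_cast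
    rfl
  · simp [rt_sq]

theorem rt_integral (m : ℕ) : IsIntegral ℚ (rt m) :=
  ⟨X ^ 2 - C (m : ℚ), monic_X_pow_sub_C _ (by norm_num), by simp [rt_sq]⟩

theorem rt_finrank {m : ℕ} (hm : Squarefree m) (h2 : 2 ≤ m) :
    Module.finrank ℚ ℚ⟮rt m⟯ = 2 := by
  rw [adjoin.finrank (rt_integral m), rt_minpoly hm h2]
  exact natDegree_X_pow_sub_C

theorem rt_numberField (m : ℕ) : NumberField ℚ⟮rt m⟯ :=
  @NumberField.mk _ _ inferInstance (adjoin.finiteDimensional (rt_integral m))

/-- `4 m` is a square times the discriminant. -/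
theorem rt_discr {m : ℕ} (hm : Squarefree m) (h2 : 2 ≤ m) [NumberField ℚ⟮rt m⟯] :
    ∃ q : ℤ, (4 * m : ℤ) = q ^ 2 * discr ℚ⟮rt m⟯ := by
  classical
  set K := ℚ⟮rt m⟯ with hK
  set x : K := AdjoinSimple.gen ℚ (rt m) with hx
  have hx2 : x ^ 2 = (m : K) := by
    apply (algebraMap K ℂ).injective
    rw [map_pow, hx, AdjoinSimple.algebraMap_gen, rt_sq]
    simp
  have hxint : IsIntegral ℤ x := ⟨X ^ 2 - C (m : ℤ), monic_X_pow_sub_C _ (by norm_num), by
    simp [hx2]⟩
  set x' : 𝓞 K := ⟨x, hxint⟩ with hx'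
  have hcard : Fintype.card (Module.Free.ChooseBasisIndex ℤ (𝓞 K)) = 2 := by
    rw [← Module.finrank_eq_card_chooseBasisIndex, RingOfIntegers.rank]
    exact rt_finrank hm h2
  set b := (RingOfIntegers.basis K).reindex (Fintype.equivFinOfCardEq hcard) with hb
  set v : Fin 2 → 𝓞 K := ![1, x'] with hv
  refine ⟨(b.toMatrix v).det, ?_⟩
  rw [← NumberField.discr_eq_discr K b, ← Algebra.discr_of_matrix_vecMul,
    Module.Basis.toMatrix_map_vecMul, Algebra.discr_def]
  have htr1 : Algebra.trace ℤ (𝓞 K) 1 = 2 := by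
    have := Algebra.trace_algebraMap (R := ℤ) (S := 𝓞 K) (1 : ℤ)
    rw [map_one, RingOfIntegers.rank] at this
    rw [this, rt_finrank hm h2]
    simp
  have htrm : Algebra.trace ℤ (𝓞 K) (x' * x') = 2 * m := by
    have h : x' * x' = algebraMap ℤ (𝓞 K) (m : ℤ) := by
      apply RingOfIntegers.ext
      change x * x = ((algebraMap ℤ (𝓞 K) (m : ℤ) : 𝓞 K) : K)
      rw [← pow_two, hx2]
      simp
    rw [h, Algebra.trace_algebraMap, RingOfIntegers.rank, rt_finrank hm h2]
    simp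
  have htrx : Algebra.trace ℤ (𝓞 K) x' = 0 := by
    have h : ((Algebra.trace ℤ (𝓞 K) x' : ℤ) : ℚ) = Algebra.trace ℚ K x := Algebra.coe_trace_int x'
    have h3 : Algebra.trace ℚ K x = 0 := by
      have h4 := PowerBasis.trace_gen_eq_nextCoeff_minpoly (adjoin.powerBasis (rt_integral m))
      rw [adjoin.powerBasis_gen] at h4
      rw [minpoly_gen, rt_minpoly hm h2] at h4
      have h5 : (X ^ 2 - C (m : ℚ)).nextCoeff = 0 := by
        rw [nextCoeff_of_natDegree_pos (by rw [natDegree_X_pow_sub_C]; norm_num),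
          natDegree_X_pow_sub_C]
        simp
      rw [h5, neg_zero] at h4
      exact h4
    rw [h3] at h
    exact_mod_cast h
  rw [Matrix.det_fin_two]
  simp only [Algebra.traceMatrix_apply, Algebra.traceForm_apply, hv, Matrix.cons_val_zero,
    Matrix.cons_val_one, mul_one, one_mul]
  rw [htr1, htrm, htrx]
  ring

theorem sq_eq_of_squarefree {m n : ℕ} (hm : Squarefree m) (hn : Squarefree n)
    {p q : ℕ} (hp : p ≠ 0) (hq : q ≠ 0) (h : m * q ^ 2 = n * p ^ 2) : m = n := by
  refine Nat.eq_of_factorization_eq hm.ne_zero hn.ne_zero fun r => ?_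
  have h1 : (m * q ^ 2).factorization r = (n * p ^ 2).factorization r := by rw [h]
  rw [Nat.factorization_mul hm.ne_zero (pow_ne_zero 2 hq),
    Nat.factorization_mul hn.ne_zero (pow_ne_zero 2 hp), Nat.factorization_pow,
    Nat.factorization_pow] at h1
  simp only [Finsupp.coe_add, Finsupp.coe_smul, Pi.add_apply, Pi.smul_apply, smul_eq_mul] at h1
  have h2 := hm.natFactorization_le_one r
  have h3 := hn.natFactorization_le_one r
  omega

/-- Distinct squarefree numbers give distinct fields. -/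
theorem rt_inj {m n : ℕ} (hm : Squarefree m) (h2 : 2 ≤ m) (hn : Squarefree n) (hn2 : 2 ≤ n)
    (h : ℚ⟮rt m⟯ = ℚ⟮rt n⟯) : m = n := by
  have := rt_numberField m
  have := rt_numberField n
  obtain ⟨q, hq⟩ := rt_discr hm h2
  obtain ⟨p, hp⟩ := rt_discr hn hn2
  have hD : discr ℚ⟮rt m⟯ = discr ℚ⟮rt n⟯ :=
    discr_eq_discr_of_ringEquiv _ (IntermediateField.equivOfEq h).toRingEquiv
  rw [← hD] at hp
  set D := discr ℚ⟮rt m⟯ with hDdef
  have hq0 : q ≠ 0 := by
    rintro rfl
    simp at hq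
    omega
  have hp0 : p ≠ 0 := by
    rintro rfl
    simp at hp
    omega
  have hD0 : D ≠ 0 := discr_ne_zero _
  have h3 : (m : ℤ) * p ^ 2 = n * q ^ 2 := by
    have h4 : (4 * m : ℤ) * p ^ 2 = (4 * n) * q ^ 2 := by rw [hq, hp]; ring
    linarith
  refine sq_eq_of_squarefree hm hn (Int.natAbs_ne_zero.2 hq0) (Int.natAbs_ne_zero.2 hp0) ?_
  have h5 := congrArg Int.natAbs h3
  rw [Int.natAbs_mul, Int.natAbs_mul, Int.natAbs_pow, Int.natAbs_pow] at h5
  simpa using h5

theorem rt_mem {m : ℕ} (hm : Squarefree m) (h2 : 2 ≤ m) {X : ℝ} (hX : 4 * (m : ℝ) ≤ X) :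
    ℚ⟮rt m⟯ ∈ quad X := by
  have := rt_numberField m
  refine ⟨inferInstance, rt_finrank hm h2, ?_⟩
  obtain ⟨q, hq⟩ := rt_discr hm h2
  have hq0 : q ≠ 0 := by
    rintro rfl
    simp at hq
    omega
  set D := discr ℚ⟮rt m⟯ with hDdef
  have hq1 : 1 ≤ q ^ 2 := by
    have : 0 < q ^ 2 := by positivity
    omega
  have h3 : |D| ≤ 4 * m := by
    have h4 : (4 * m : ℤ) = q ^ 2 * |D| := by
      rw [← abs_of_nonneg (by positivity : (0 : ℤ) ≤ q ^ 2), ← abs_mul, ← hq,
        abs_of_nonneg (by positivity : (0 : ℤ) ≤ 4 * m)]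
    nlinarith [abs_nonneg D]
  refine le_trans ?_ hX
  exact_mod_cast h3

/-- At least a quarter of the integers up to `N` are squarefree. -/
theorem squarefree_count (N : ℕ) :
    (N : ℝ) / 4 ≤ (((Finset.Icc 1 N).filter Squarefree).card : ℝ) := by
  classical
  have hsum : ∀ n : ℕ, 2 ≤ n → ∑ k ∈ Finset.Icc 2 n, (1 : ℝ) / (k : ℝ) ^ 2 ≤ 3 / 4 - 1 / n := by
    intro n hn
    induction n, hn using Nat.le_induction with
    | base => norm_num
    | succ n hn ih =>
      rw [Finset.sum_Icc_succ_top (by omega)]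
      have hn0 : (0 : ℝ) < n := by
        have : 0 < n := by omega
        exact_mod_cast this
      have h1 : (1 : ℝ) / ((n + 1 : ℕ) : ℝ) ^ 2 ≤ 1 / n - 1 / ((n + 1 : ℕ) : ℝ) := by
        push_cast
        rw [div_sub_div _ _ hn0.ne' (by positivity), div_le_div_iff₀ (by positivity)
          (by positivity)]
        nlinarith
      linarith
  have hsum' : ∑ k ∈ Finset.Icc 2 N, (1 : ℝ) / (k : ℝ) ^ 2 ≤ 3 / 4 := by
    rcases Nat.lt_or_ge N 2 with h | h
    · rw [Finset.Icc_eq_empty (by omega)]; norm_num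
    · refine le_trans (hsum N h) ?_
      have : (0 : ℝ) ≤ 1 / N := by positivity
      linarith
  have hsplit := Finset.card_filter_add_card_filter_not (s := Finset.Icc 1 N) (p := Squarefree)
  rw [Nat.card_Icc] at hsplit
  have hnot : (((Finset.Icc 1 N).filter (fun m => ¬ Squarefree m)).card : ℝ) ≤ 3 / 4 * N := by
    have hsub : (Finset.Icc 1 N).filter (fun m => ¬ Squarefree m) ⊆
        (Finset.Icc 2 N).biUnion (fun k => (Finset.Icc 1 N).filter (fun m => k ^ 2 ∣ m)) := by
      intro m hm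
      rw [Finset.mem_filter, Finset.mem_Icc] at hm
      have h1 := hm.2
      rw [Nat.squarefree_iff_prime_squarefree] at h1
      push Not at h1
      obtain ⟨p, hp, hpm⟩ := h1
      rw [Finset.mem_biUnion]
      refine ⟨p, Finset.mem_Icc.2 ⟨hp.two_le, ?_⟩, ?_⟩
      · have := Nat.le_of_dvd (by omega) hpm
        nlinarith [hp.two_le]
      · rw [Finset.mem_filter, Finset.mem_Icc]
        exact ⟨hm.1, by rw [pow_two]; exact hpm⟩
    have h2 : (((Finset.Icc 1 N).filter (fun m => ¬ Squarefree m)).card : ℝ) ≤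
        ∑ k ∈ Finset.Icc 2 N, (((Finset.Icc 1 N).filter (fun m => k ^ 2 ∣ m)).card : ℝ) := by
      have := le_trans (Finset.card_le_card hsub) Finset.card_biUnion_le
      exact_mod_cast this
    refine le_trans h2 ?_
    have h3 : ∀ k ∈ Finset.Icc 2 N, (((Finset.Icc 1 N).filter (fun m => k ^ 2 ∣ m)).card : ℝ) ≤
        N * (1 / (k : ℝ) ^ 2) := by
      intro k hk
      have h4 : ((Finset.Icc 1 N).filter (fun m => k ^ 2 ∣ m)).card = N / k ^ 2 := by
        have := Nat.Ioc_filter_dvd_card_eq_div N (k ^ 2)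
        rw [← this]
        congr 1
      rw [h4]
      refine le_trans (Nat.cast_div_le) ?_
      push_cast
      rw [mul_one_div]
    refine le_trans (Finset.sum_le_sum h3) ?_
    rw [← Finset.mul_sum]
    nlinarith [Nat.cast_nonneg (α := ℝ) N]
  have h5 : (((Finset.Icc 1 N).filter Squarefree).card : ℝ) +
      (((Finset.Icc 1 N).filter (fun m => ¬ Squarefree m)).card : ℝ) = N := by
    have : N + 1 - 1 = N := by omega
    rw [this] at hsplit
    exact_mod_cast hsplit
  linarith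

/-- The number of quadratic fields. -/
theorem quad_count {X : ℝ} (hX : 100 ≤ X) : X / 100 ≤ ((quad X).ncard : ℝ) := by
  classical
  set N := ⌊X / 4⌋₊ with hN
  have hN1 : (N : ℝ) ≤ X / 4 := Nat.floor_le (by linarith)
  have hN2 : X / 4 < N + 1 := Nat.lt_floor_add_one _
  have hcount := squarefree_count N
  set S := ((Finset.Icc 1 N).filter Squarefree).erase 1 with hS
  have hScard : (N : ℝ) / 4 - 1 ≤ (S.card : ℝ) := by
    have : ((Finset.Icc 1 N).filter Squarefree).card ≤ S.card + 1 := by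
      have := Finset.pred_card_le_card_erase (s := (Finset.Icc 1 N).filter Squarefree) (a := 1)
      rw [← hS] at this
      omega
    have : (((Finset.Icc 1 N).filter Squarefree).card : ℝ) ≤ S.card + 1 := by exact_mod_cast this
    linarith
  have hmem : ∀ m ∈ S, Squarefree m ∧ 2 ≤ m ∧ m ≤ N := by
    intro m hm
    rw [hS, Finset.mem_erase, Finset.mem_filter, Finset.mem_Icc] at hm
    exact ⟨hm.2.2, by omega, hm.2.1.2⟩
  have hle : S.card ≤ (quad X).ncard := by
    rw [Set.ncard_eq_toFinset_card _ (quad_finite X)]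
    refine Finset.card_le_card_of_injOn (fun m => ℚ⟮rt m⟯) ?_ ?_
    · intro m hm
      obtain ⟨h1, h2, h3⟩ := hmem m hm
      rw [Finset.mem_coe, Set.Finite.mem_toFinset]
      refine rt_mem h1 h2 ?_
      have : (m : ℝ) ≤ N := by exact_mod_cast h3
      linarith
    · intro m hm n hn h
      obtain ⟨h1, h2, -⟩ := hmem m hm
      obtain ⟨h1', h2', -⟩ := hmem n hn
      exact rt_inj h1 h2 h1' h2' h
  have : (S.card : ℝ) ≤ (quad X).ncard := by exact_mod_cast hle
  linarith

/-- An irrational element generates a quadratic field. -/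
theorem quad_gen {E : IntermediateField ℚ ℂ} (hE : Module.finrank ℚ E = 2) {x : E}
    (hx : ∀ q : ℚ, x ≠ algebraMap ℚ E q) : ℚ⟮(x : ℂ)⟯ = E := by
  have hfd : FiniteDimensional ℚ E := Module.finite_of_finrank_pos (by omega)
  have hle : ℚ⟮(x : ℂ)⟯ ≤ E := by
    rw [adjoin_simple_le_iff]
    exact x.2
  refine IntermediateField.eq_of_le_of_finrank_le hle ?_
  rw [hE]
  by_contra hlt
  push Not at hlt
  have hfd2 : FiniteDimensional ℚ ℚ⟮(x : ℂ)⟯ :=
    adjoin.finiteDimensional ((Algebra.IsIntegral.isIntegral (R := ℚ) x).map (val E))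
  have hpos : 0 < Module.finrank ℚ ℚ⟮(x : ℂ)⟯ := Module.finrank_pos
  have h1 : Module.finrank ℚ ℚ⟮(x : ℂ)⟯ = 1 := by omega
  rw [finrank_adjoin_simple_eq_one_iff, mem_bot] at h1
  obtain ⟨q, hq⟩ := h1
  refine hx q ?_
  apply Subtype.ext
  rw [← hq]
  rfl

theorem quad_mem_exc {E : IntermediateField ℚ ℂ} [hN : NumberField E]
    (hE : Module.finrank ℚ E = 2) {x : E}
    (hx : ∀ q : ℚ, x ≠ algebraMap ℚ E q) {κ L : ℝ} (hL : hgt x ≤ L) (hV : Viol κ x) :
    E ∈ (fun z : ℂ => ℚ⟮z⟯) '' exc 2 κ L := by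
  have h := quad_gen hE hx
  refine ⟨(x : ℂ), ?_, h⟩
  obtain ⟨z, hz⟩ := x
  simp only at h
  subst h
  exact ⟨hN, hE, hL, hV⟩

end Pool.Agent.UDC
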