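import Mathlib
import Pool.Agent.UDC.LowC
import Pool.Agent.UDC.Quad
import Pool.Agent.UDC.DiscBd

/-! # Module Many (UDC): many fields of degree `d` and bounded discriminant, and almost all fields -/

namespace Pool.Agent.UDC

open NumberField IsDedekindDomain Polynomial Pool.Agent.H7.Abc IntermediateField

/-- The subfields of `ℂ` of degree `d` and discriminant at most `X` in absolute value. -/
def allF (d : ℕ) (X : ℝ) : Set (IntermediateField ℚ ℂ) :=
  {E | ∃ (_ : NumberField E), Module.finrank ℚ E = d ∧ ((|discr E| : ℤ) : ℝ) ≤ X}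

theorem allF_finite (d : ℕ) (X : ℝ) : (allF d X).Finite := by
  have hfin := NumberField.finite_of_discr_bdd ℂ ⌊X⌋₊
  refine (hfin.image (fun E => E.1)).subset ?_
  rintro E ⟨hN, -, hX⟩
  have hfd : FiniteDimensional ℚ E := hN.to_finiteDimensional
  refine ⟨⟨E, hfd⟩, ?_, rfl⟩
  simp only [Set.mem_ofPred_eq]
  have h1 : (((|discr E|).toNat : ℕ) : ℝ) ≤ X := by
    have : (((|discr E|).toNat : ℤ) : ℝ) = ((|discr E| : ℤ) : ℝ) := by
      rw [Int.toNat_of_nonneg (abs_nonneg _)]
    push_cast at this ⊢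
    rw [this]; exact_mod_cast hX
  have h2 := Nat.le_floor h1
  have h3 : |discr E| = ((|discr E|).toNat : ℤ) := (Int.toNat_of_nonneg (abs_nonneg _)).symm
  rw [h3]
  exact_mod_cast h2

/-- Many fields of degree `d` are generated by units of small height. -/
theorem many_unit_fields (d : ℕ) (hd : 2 ≤ d) : ∃ c L₀ : ℝ, 0 < c ∧
    ∀ L : ℝ, L₀ ≤ L → c * Real.exp (((d : ℝ) - 1) * L) / (L + 1) ^ d ≤
      ((allF d (2 ^ (d * (d - 1)) * Real.exp L ^ (2 * (d - 1)))).ncard : ℝ) := by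
  classical
  obtain ⟨c, L₀, hc, hfam⟩ := family d hd 1 le_rfl
  obtain ⟨C, hC, hcnt⟩ := unit_count d
  refine ⟨c / C, max L₀ 0, by positivity, fun L hL => ?_⟩
  have hL0 : 0 ≤ L := le_trans (le_max_right _ _) hL
  obtain ⟨S, hScard, hS⟩ := hfam L (le_trans (le_max_left _ _) hL)
  set X : ℝ := 2 ^ (d * (d - 1)) * Real.exp L ^ (2 * (d - 1)) with hX
  have hfin := allF_finite d X
  -- the roots
  have hroot : ∀ F : ℤ[X], ∃ z : ℂ, F ∈ S → aeval z F = 0 := by
    intro F
    by_cases hF : F ∈ S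
    · obtain ⟨hmon, -, hdeg, -⟩ := hS F hF
      obtain ⟨z, hz⟩ := IsAlgClosed.exists_aeval_eq_zero ℂ F (by
        intro h
        have := natDegree_eq_zero_iff_degree_le_zero.2 h.le
        omega)
      exact ⟨z, fun _ => hz⟩
    · exact ⟨0, fun h => absurd h hF⟩
  choose z hz using hroot
  set T : Finset (IntermediateField ℚ ℂ) := hfin.toFinset with hT
  have hTcard : (allF d X).ncard = T.card := by
    rw [hT, Set.ncard_eq_toFinset_card _ hfin]
  have hmaps : ∀ F ∈ S, ℚ⟮z F⟯ ∈ T := by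
    intro F hF
    rw [hT, Set.Finite.mem_toFinset]
    obtain ⟨hmon, hirr, hdeg, h0, hsum, -⟩ := hS F hF
    obtain ⟨hmin, hN, hfr⟩ := LowC_field hmon hirr hdeg (hz F hF)
    refine ⟨hN, hfr, ?_⟩
    have hU := LowC_uroot hmon hirr (by omega) h0 (hz F hF) hN
    have hmem := LowC_mem_units hmon hirr (by omega) h0 (hz F hF) hsum ℚ⟮z F⟯ rfl
    have hint : IsIntegral ℤ (AdjoinSimple.gen ℚ (z F)) := ⟨F, hmon, hU.root⟩
    have hmp : (minpoly ℚ (AdjoinSimple.gen ℚ (z F))).natDegree = d := by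
      rw [minpoly_eq hU, hmon.natDegree_map, hdeg]
    have h1 := discr_le hfr hint hmp
    refine le_trans h1 ?_
    rw [hX]
    refine mul_le_mul_of_nonneg_left ?_ (by positivity)
    refine pow_le_pow_left₀ (Real.exp_pos _).le ?_ _
    exact Real.exp_le_exp.2 hmem.2.2
  have hfib : ∀ E ∈ T, (((S.filter (fun F => ℚ⟮z F⟯ = E)).card : ℕ) : ℝ) ≤ C * (L + 1) ^ d := by
    intro E hE
    rw [hT, Set.Finite.mem_toFinset] at hE
    obtain ⟨hN, hfr, -⟩ := hE
    obtain ⟨hUfin, hUcard⟩ := hcnt E hfr L hL0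
    refine le_trans ?_ hUcard
    rw [Set.ncard_eq_toFinset_card _ hUfin]
    norm_cast
    refine Finset.card_le_card_of_injOn
      (fun F => if h : ℚ⟮z F⟯ = E then ⟨z F, h ▸ mem_adjoin_simple_self ℚ (z F)⟩ else 0) ?_ ?_
    · intro F hF
      rw [Finset.mem_coe, Finset.mem_filter] at hF
      rw [Finset.mem_coe, Set.Finite.mem_toFinset]
      simp only [dif_pos hF.2]
      obtain ⟨hmon, hirr, hdeg, h0, hsum, -⟩ := hS F hF.1
      exact LowC_mem_units hmon hirr (by omega) h0 (hz F hF.1) hsum E hF.2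
    · intro F hF G hG hFG
      rw [Finset.mem_coe, Finset.mem_filter] at hF hG
      simp only [dif_pos hF.2, dif_pos hG.2, Subtype.mk.injEq] at hFG
      obtain ⟨hmon, hirr, hdeg, -⟩ := hS F hF.1
      obtain ⟨hmon', hirr', hdeg', -⟩ := hS G hG.1
      have h1 := (LowC_field hmon hirr hdeg (hz F hF.1)).1
      have h2 := (LowC_field hmon' hirr' hdeg' (hz G hG.1)).1
      rw [hFG, h2] at h1
      exact (map_injective _ (Int.cast_injective) h1).symm
  have hcard : (S.card : ℝ) ≤ C * (L + 1) ^ d * T.card := by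
    rw [Finset.card_eq_sum_card_fiberwise (f := fun F => ℚ⟮z F⟯) (t := T) hmaps]
    push_cast
    refine le_trans (Finset.sum_le_sum hfib) ?_
    rw [Finset.sum_const, nsmul_eq_mul, mul_comm]
  rw [hTcard, div_le_iff₀ (by positivity)]
  have h3 : c / C * Real.exp (((d : ℝ) - 1) * L) =
      (c * Real.exp (((d : ℝ) - 2 + 1 / 1) * L)) / C := by
    have : (d : ℝ) - 1 = (d : ℝ) - 2 + 1 / 1 := by ring
    rw [this]; ring
  rw [h3, div_le_iff₀ hC]
  linarith [hScard, hcard]

theorem exists_pow_le_exp (d : ℕ) (ε K₀ : ℝ) (hε : 0 < ε) : ∃ t₀ : ℝ, 0 ≤ t₀ ∧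
    ∀ t : ℝ, t₀ ≤ t → K₀ * (t + 1) ^ d ≤ Real.exp (ε * t) := by
  have h1 := tendsto_exp_mul_div_rpow_atTop (d : ℝ) ε hε
  have h2 : Filter.Tendsto (fun L : ℝ => L + 1) Filter.atTop Filter.atTop :=
    Filter.tendsto_atTop_add_const_right _ _ Filter.tendsto_id
  have h3 := (h1.comp h2).const_mul_atTop (show 0 < Real.exp (-ε) by positivity)
  obtain ⟨t₀, ht₀⟩ := Filter.eventually_atTop.1 (Filter.tendsto_atTop.1 h3 K₀)
  refine ⟨max t₀ 0, le_max_right _ _, fun t ht => ?_⟩
  have h4 := ht₀ t (le_trans (le_max_left _ _) ht)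
  have ht0 : 0 ≤ t := le_trans (le_max_right _ _) ht
  simp only [Function.comp] at h4
  rw [Real.rpow_natCast, ← mul_div_assoc, ← Real.exp_add, le_div_iff₀ (by positivity)] at h4
  have h5 : -ε + ε * (t + 1) = ε * t := by ring
  rw [h5] at h4
  exact h4

/-- There are at least `X^(ν - ε)` fields of degree `d` and discriminant at most `X`, with
`ν = 1/2`, and `ν = 1` for `d = 2`. -/
theorem many_fields (d : ℕ) (hd : 2 ≤ d) (ε : ℝ) (hε : 0 < ε) : ∃ X₀ : ℝ, 1 ≤ X₀ ∧
    ∀ X : ℝ, X₀ ≤ X → X ^ ((if d = 2 then (1 : ℝ) else 1 / 2) - ε) ≤ ((allF d X).ncard : ℝ) := by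
  split_ifs with h2
  · subst h2
    refine ⟨max 100 ((100 : ℝ) ^ (1 / ε)), le_trans (by norm_num) (le_max_left _ _),
      fun X hX => ?_⟩
    have hX1 : (100 : ℝ) ≤ X := le_trans (le_max_left _ _) hX
    have hX2 : (100 : ℝ) ^ (1 / ε) ≤ X := le_trans (le_max_right _ _) hX
    have hX0 : 0 < X := by linarith
    have h3 : (100 : ℝ) ≤ X ^ ε := by
      have := Real.rpow_le_rpow (by positivity) hX2 hε.le
      rw [← Real.rpow_mul (by norm_num), one_div_mul_cancel hε.ne', Real.rpow_one] at this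
      exact this
    have h4 := quad_count hX1
    refine le_trans ?_ h4
    rw [Real.rpow_sub hX0, Real.rpow_one]
    exact div_le_div_of_nonneg_left hX0.le (by norm_num) h3
  · obtain ⟨c, L₀, hc, hmany⟩ := many_unit_fields d hd
    obtain ⟨t₀, ht₀, hexp⟩ := exists_pow_le_exp d ε (c⁻¹ * 2 ^ (d * (d - 1))) hε
    have hd1 : (1 : ℝ) ≤ (d : ℝ) - 1 := by
      have : (2 : ℝ) ≤ d := by exact_mod_cast hd
      linarith
    set B : ℝ := (d * (d - 1) : ℕ) * Real.log 2 with hB
    have hB0 : 0 ≤ B := by positivity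
    refine ⟨Real.exp (max t₀ (2 * ((d : ℝ) - 1) * max L₀ 0 + B)), ?_, fun X hX => ?_⟩
    · rw [← Real.exp_zero]
      exact Real.exp_le_exp.2 (le_trans ht₀ (le_max_left _ _))
    have hX0 : 0 < X := lt_of_lt_of_le (Real.exp_pos _) hX
    have hlog : max t₀ (2 * ((d : ℝ) - 1) * max L₀ 0 + B) ≤ Real.log X := by
      rw [Real.le_log_iff_exp_le hX0]; exact hX
    set t := Real.log X with ht
    have ht1 : t₀ ≤ t := le_trans (le_max_left _ _) hlog
    have ht2 : 2 * ((d : ℝ) - 1) * max L₀ 0 + B ≤ t := le_trans (le_max_right _ _) hlog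
    set L := (t - B) / (2 * ((d : ℝ) - 1)) with hL
    have hL1 : max L₀ 0 ≤ L := by
      rw [hL, le_div_iff₀ (by positivity)]
      linarith
    have hL0 : 0 ≤ L := le_trans (le_max_right _ _) hL1
    have hLt : L ≤ t := by
      rw [hL, div_le_iff₀ (by positivity)]
      have : 0 ≤ t := le_trans ht₀ ht1
      nlinarith
    have hmul : 2 * ((d : ℝ) - 1) * L = t - B := by
      rw [hL]; field_simp
    have hXeq : 2 ^ (d * (d - 1)) * Real.exp L ^ (2 * (d - 1)) = X := by
      have h1 : (2 : ℝ) ^ (d * (d - 1)) = Real.exp B := by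
        rw [hB, mul_comm, ← Real.exp_log (by norm_num : (0 : ℝ) < 2), ← Real.exp_nat_mul,
          Real.exp_log (by norm_num)]
      have h3 : Real.exp L ^ (2 * (d - 1)) = Real.exp (t - B) := by
        rw [← Real.exp_nat_mul, ← hmul]
        congr 1
        push_cast [Nat.cast_sub (show 1 ≤ d by omega)]
        ring
      rw [h1, h3, ← Real.exp_add, add_sub_cancel, ht, Real.exp_log hX0]
    have h4 := hmany L (le_trans (le_max_left _ _) hL1)
    rw [hXeq] at h4
    refine le_trans ?_ h4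
    rw [le_div_iff₀ (by positivity)]
    have h5 := hexp t ht1
    have h6 : (L + 1) ^ d ≤ (t + 1) ^ d := pow_le_pow_left₀ (by positivity) (by linarith) d
    have h7 : (L + 1) ^ d ≤ c * Real.exp (-B) * Real.exp (ε * t) := by
      have h8 : (2 : ℝ) ^ (d * (d - 1)) = Real.exp B := by
        rw [hB, mul_comm, ← Real.exp_log (by norm_num : (0 : ℝ) < 2), ← Real.exp_nat_mul,
          Real.exp_log (by norm_num)]
      rw [h8] at h5
      have h9 : (t + 1) ^ d = c * Real.exp (-B) * (c⁻¹ * Real.exp B * (t + 1) ^ d) := by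
        rw [Real.exp_neg]
        field_simp
      rw [h9] at h6
      exact le_trans h6 (mul_le_mul_of_nonneg_left h5 (by positivity))
    calc X ^ ((1 : ℝ) / 2 - ε) * (L + 1) ^ d
        ≤ X ^ ((1 : ℝ) / 2 - ε) * (c * Real.exp (-B) * Real.exp (ε * t)) :=
          mul_le_mul_of_nonneg_left h7 (by positivity)
      _ = c * Real.exp ((1 / 2) * t - B) := by
          rw [Real.rpow_def_of_pos hX0, ← ht]
          have : Real.exp (t * (1 / 2 - ε)) * (c * Real.exp (-B) * Real.exp (ε * t)) =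
              c * (Real.exp (t * (1 / 2 - ε)) * Real.exp (-B) * Real.exp (ε * t)) := by ring
          rw [this, ← Real.exp_add, ← Real.exp_add]
          congr 2
          ring
      _ ≤ c * Real.exp (((d : ℝ) - 1) * L) := by
          refine mul_le_mul_of_nonneg_left (Real.exp_le_exp.2 ?_) hc.le
          nlinarith

/-- A generator in `E` of a field `E` of degree `d` gives a point of `exc`. -/
theorem gen_mem_exc {E : IntermediateField ℚ ℂ} [hN : NumberField E] {d : ℕ}
    (hE : Module.finrank ℚ E = d) {x : E} (hx : ℚ⟮(x : ℂ)⟯ = E) {κ L : ℝ} (hL : hgt x ≤ L)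
    (hV : Viol κ x) : E ∈ (fun z : ℂ => ℚ⟮z⟯) '' exc d κ L := by
  refine ⟨(x : ℂ), ?_, hx⟩
  obtain ⟨z, hz⟩ := x
  simp only at hx
  subst hx
  exact ⟨hN, hE, hL, hV⟩

end Pool.Agent.UDC
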